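import Pool.Agent.Work.MP_bd00dd_co.G.Edge

/-!
The averaging principle.
-/

namespace Pool.Agent.Work.MP_bd00dd_co

open MeasureTheory Metric Set

variable {ι : Type*} {P : Set Pl} {g : ι → Pl ≃ᵢ Pl}

theorem tile_vol (i : ι) : volume (g i '' P) = volume P := vol_im (g i) P

/-- Volume bound in real numbers. -/
theorem folner_aux (h : Tiling P g) (R : ℝ) (hR : 0 < R) (hR2 : diam P ≤ R) (W W' : Finset ι)
    (hW : ∀ i, i ∈ W ↔ (g i '' P ∩ closedBall 0 R).Nonempty)
    (hW' : ∀ i ∈ W', i ∈ W ∧ ¬ g i '' P ⊆ closedBall 0 R) :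
    (W'.card : ℝ) * R ≤ 4 * diam P * W.card := by
  obtain ⟨V, hV⟩ : ∃ V, V = (volume P).toReal := ⟨_, rfl⟩
  have hVpos : 0 < V := by
    rw [hV]
    exact ENNReal.toReal_pos (vol_pos h).1.ne' (vol_pos h).2.ne
  have hVP : volume P = ENNReal.ofReal V := by
    rw [hV, ENNReal.ofReal_toReal (vol_pos h).2.ne]
  have hδ : 0 ≤ diam P := diam_nonneg
  -- lower bound
  have h1 : volume (closedBall (0 : Pl) R) ≤ (W.card : ENNReal) * volume P := by
    have hsub : closedBall (0 : Pl) R ⊆ ⋃ i ∈ W, g i '' P := by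
      intro y hy
      have hyu : y ∈ ⋃ i, g i '' P := by rw [h.cov]; trivial
      obtain ⟨k, hk⟩ := mem_iUnion.1 hyu
      simp only [mem_iUnion]
      exact ⟨k, (hW k).2 ⟨y, hk, hy⟩, hk⟩
    refine (measure_mono hsub).trans ((measure_biUnion_finset_le _ _).trans ?_)
    rw [Finset.sum_congr rfl fun i _ => tile_vol i, Finset.sum_const, nsmul_eq_mul]
  have h2 : (W'.card : ENNReal) * volume P ≤
      volume (closedBall (0 : Pl) (R + diam P) \ closedBall (0 : Pl) (R - diam P)) := by
    apply card_le h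
    intro i hi
    obtain ⟨h3, h4⟩ := hW' i hi
    have h5 := tile_sub h ((hW i).1 h3)
    intro y hy
    refine ⟨h5 hy, fun hy2 => h4 ?_⟩
    have := tile_sub h (i := i) (x := 0) (R := R - diam P) ⟨y, hy, hy2⟩
    rwa [sub_add_cancel] at this
  rw [measure_sdiff (closedBall_subset_closedBall (by linarith))
    isClosed_closedBall.measurableSet.nullMeasurableSet measure_closedBall_lt_top.ne] at h2
  rw [EuclideanSpace.volume_closedBall_fin_two, hVP] at h1
  rw [EuclideanSpace.volume_closedBall_fin_two, EuclideanSpace.volume_closedBall_fin_two, hVP] at h2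
  have hpi := Real.pi_pos
  have e1 : ∀ a : ℝ, 0 ≤ a → ENNReal.ofReal a ^ 2 * ENNReal.ofReal Real.pi =
      ENNReal.ofReal (a ^ 2 * Real.pi) := by
    intro a ha
    rw [ENNReal.ofReal_mul (pow_nonneg ha 2), ENNReal.ofReal_pow ha]
  have e2 : ∀ n : ℕ, (n : ENNReal) * ENNReal.ofReal V = ENNReal.ofReal (n * V) := by
    intro n
    rw [ENNReal.ofReal_mul (Nat.cast_nonneg n), ENNReal.ofReal_natCast]
  have h3 : (R + diam P) ^ 2 * Real.pi - (R - diam P) ^ 2 * Real.pi = 4 * R * diam P * Real.pi := by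
    ring
  have h1' : R ^ 2 * Real.pi ≤ W.card * V := by
    rw [e1 R hR.le, e2] at h1
    exact (ENNReal.ofReal_le_ofReal_iff (mul_nonneg (Nat.cast_nonneg _) hVpos.le)).1 h1
  have h2' : W'.card * V ≤ (R + diam P) ^ 2 * Real.pi - (R - diam P) ^ 2 * Real.pi := by
    rw [e1 (R + diam P) (by linarith), e1 (R - diam P) (by linarith), e2,
      ← ENNReal.ofReal_sub _ (by positivity)] at h2
    refine (ENNReal.ofReal_le_ofReal_iff ?_).1 h2
    rw [h3]
    positivity
  rw [h3] at h2'
  have h4 : (W'.card : ℝ) * R * V ≤ 4 * diam P * W.card * V := by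
    calc (W'.card : ℝ) * R * V = R * (W'.card * V) := by ring
      _ ≤ R * (4 * R * diam P * Real.pi) := mul_le_mul_of_nonneg_left h2' hR.le
      _ = 4 * diam P * (R ^ 2 * Real.pi) := by ring
      _ ≤ 4 * diam P * (W.card * V) := mul_le_mul_of_nonneg_left h1' (by positivity)
      _ = 4 * diam P * W.card * V := by ring
  exact le_of_mul_le_mul_right h4 hVpos

/-- Large finite families of tiles with small boundary. Let W be the set of the tiles which meet
closedBall 0 R, and W' the set of the i ∈ W such that some tile j outside W meets T i. Then W is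
finite (locfin), #W vol P >= vol(closedBall 0 R) = π R^2 (the tiles of W cover the ball), and a tile
of W' meets the ball and contains a point outside the ball, so it is contained in the annulus
R - δ <= |x| <= R + δ, δ = diam P: #W' vol P <= π ((R + δ)^2 - (R - δ)^2) = 4 π R δ (card_le). So
#W' / #W -> 0 as R -> ∞. -/
theorem folner (h : Tiling P g) (ε : ℝ) (hε : 0 < ε) :
    ∃ W : Finset ι, W.Nonempty ∧ ∃ W' ⊆ W,
      (∀ i ∈ W, i ∉ W' → ∀ j, (g i '' P ∩ g j '' P).Nonempty → j ∈ W) ∧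
      (W'.card : ℝ) ≤ ε * W.card := by
  classical
  obtain ⟨R, hR, hR2, hR3⟩ : ∃ R : ℝ, 0 < R ∧ diam P ≤ R ∧ 4 * diam P ≤ ε * R := by
    have hδ : 0 ≤ diam P := diam_nonneg
    refine ⟨diam P + 4 * diam P / ε + 1, by positivity, ?_, ?_⟩
    · have : 0 ≤ 4 * diam P / ε := by positivity
      linarith
    · have : ε * (diam P + 4 * diam P / ε + 1) = ε * diam P + 4 * diam P + ε := by
        field_simp
      rw [this]
      have : 0 ≤ ε * diam P := by positivity
      linarith
  have hmem : ∀ i, i ∈ (locfin h 0 R).toFinset ↔ (g i '' P ∩ closedBall 0 R).Nonempty := by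
    intro i
    simp only [Finite.mem_toFinset, mem_setOf_eq]
  refine ⟨(locfin h 0 R).toFinset, ?_,
    (locfin h 0 R).toFinset.filter (fun i => ¬ g i '' P ⊆ closedBall 0 R),
    Finset.filter_subset _ _, ?_, ?_⟩
  · have hyu : (0 : Pl) ∈ ⋃ i, g i '' P := by rw [h.cov]; trivial
    obtain ⟨k, hk⟩ := mem_iUnion.1 hyu
    exact ⟨k, (hmem k).2 ⟨0, hk, mem_closedBall_self hR.le⟩⟩
  · intro i hi hi' j hij
    have hsub : g i '' P ⊆ closedBall 0 R := by
      by_contra hc
      exact hi' (Finset.mem_filter.2 ⟨hi, hc⟩)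
    obtain ⟨y, hy1, hy2⟩ := hij
    exact (hmem j).2 ⟨y, hy2, hsub hy1⟩
  · have h1 := folner_aux h R hR hR2 _ ((locfin h 0 R).toFinset.filter
      (fun i => ¬ g i '' P ⊆ closedBall 0 R)) hmem (fun i hi => Finset.mem_filter.1 hi)
    obtain ⟨a, ha⟩ : ∃ a : ℝ, a = (((locfin h 0 R).toFinset.filter
      (fun i => ¬ g i '' P ⊆ closedBall 0 R)).card : ℝ) := ⟨_, rfl⟩
    obtain ⟨b, hb⟩ : ∃ b : ℝ, b = ((locfin h 0 R).toFinset.card : ℝ) := ⟨_, rfl⟩
    rw [← ha, ← hb] at h1 ⊢
    have hb0 : 0 ≤ b := by rw [hb]; positivity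
    have h2 : a * R ≤ ε * b * R := by
      calc a * R ≤ 4 * diam P * b := h1
        _ ≤ ε * R * b := mul_le_mul_of_nonneg_right hR3 hb0
        _ = ε * b * R := by ring
    exact le_of_mul_le_mul_right h2 hR

theorem mem_vsf (h : Tiling P g) (i : ι) (v : Pl) :
    v ∈ (vs_fin h i).toFinset ↔ v ∈ g i '' P ∧ 3 ≤ (Thr P g v).ncard := by
  simp only [Finite.mem_toFinset, mem_setOf_eq]

theorem mem_tsf (h : Tiling P g) (v : Pl) (i : ι) :
    i ∈ (thr_fin h v).toFinset ↔ v ∈ g i '' P := by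
  rw [Finite.mem_toFinset]
  rfl

open Classical in
/-- Averaging principle. Suppose every tile has at most K vertices, |F i v| <= M, and
∑ over the tiles i at v of F i v is <= 0 for every vertex v. Then for no δ > 0 all tiles have
∑ over their vertices >= δ. Proof: sum over the tiles of W from folner; the vertices all of whose
tiles are in W contribute <= 0; the other pairs (i, v) with i ∈ W have i ∈ W' (v ∈ T i ∩ T j with
j not in W), there are at most K #W' of them. So δ #W <= M K #W' <= M K ε #W; choose ε small. -/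
theorem ap_eps (h : Tiling P g) (F : ι → Pl → ℝ) (M : ℝ) (K : ℕ)
    (hK : ∀ i, (vs_fin h i).toFinset.card ≤ K)
    (hM : ∀ i, ∀ v ∈ (vs_fin h i).toFinset, |F i v| ≤ M)
    (hF : ∀ v, 3 ≤ (Thr P g v).ncard → ∑ i ∈ (thr_fin h v).toFinset, F i v ≤ 0) (δ : ℝ)
    (hδ : 0 < δ) (hall : ∀ i, δ ≤ ∑ v ∈ (vs_fin h i).toFinset, F i v) : False := by
  have hKM : 0 ≤ (K : ℝ) * |M| := by positivity
  obtain ⟨W, hWne, W', hW'W, hcl, hcard⟩ := folner h (δ / (2 * (K * |M| + 1))) (by positivity)
  have hgood : ∀ i ∈ W, i ∉ W' → ∀ v ∈ (vs_fin h i).toFinset, (thr_fin h v).toFinset ⊆ W := by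
    intro i hi hi' v hv j hj
    rw [mem_tsf h] at hj
    rw [mem_vsf h] at hv
    exact hcl i hi hi' j ⟨v, hv.1, hj⟩
  have hsplit : ∀ i, ∑ v ∈ (vs_fin h i).toFinset, F i v =
      ∑ v ∈ (vs_fin h i).toFinset, (if (thr_fin h v).toFinset ⊆ W then F i v else 0) +
      ∑ v ∈ (vs_fin h i).toFinset, (if (thr_fin h v).toFinset ⊆ W then 0 else F i v) := by
    intro i
    rw [← Finset.sum_add_distrib]
    apply Finset.sum_congr rfl
    intro v _
    split_ifs <;> simp
  have hG : ∑ i ∈ W, ∑ v ∈ (vs_fin h i).toFinset,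
      (if (thr_fin h v).toFinset ⊆ W then F i v else 0) ≤ 0 := by
    rw [Finset.sum_comm' (t' := W.biUnion fun i => (vs_fin h i).toFinset)
      (s' := fun v => W.filter fun i => v ∈ (vs_fin h i).toFinset) (by
        intro i v
        simp only [Finset.mem_filter, Finset.mem_biUnion]
        constructor
        · rintro ⟨h1, h2⟩
          exact ⟨⟨h1, h2⟩, i, h1, h2⟩
        · rintro ⟨⟨h1, h2⟩, _⟩
          exact ⟨h1, h2⟩)]
    apply Finset.sum_nonpos
    intro v hv
    rw [Finset.mem_biUnion] at hv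
    obtain ⟨i0, hi0, hv0⟩ := hv
    rw [mem_vsf h] at hv0
    by_cases hs : (thr_fin h v).toFinset ⊆ W
    · simp only [hs, if_true]
      have he : W.filter (fun i => v ∈ (vs_fin h i).toFinset) = (thr_fin h v).toFinset := by
        ext j
        rw [Finset.mem_filter, mem_tsf h, mem_vsf h]
        constructor
        · rintro ⟨_, h2, _⟩
          exact h2
        · intro hj
          exact ⟨hs ((mem_tsf h v j).2 hj), hj, hv0.2⟩
      rw [he]
      exact hF v hv0.2
    · simp [hs]
  have hH : ∑ i ∈ W, ∑ v ∈ (vs_fin h i).toFinset,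
      (if (thr_fin h v).toFinset ⊆ W then 0 else F i v) ≤ W'.card * (K * |M|) := by
    rw [← Finset.sum_sdiff hW'W]
    have h1 : ∑ i ∈ W \ W', ∑ v ∈ (vs_fin h i).toFinset,
        (if (thr_fin h v).toFinset ⊆ W then 0 else F i v) = 0 := by
      apply Finset.sum_eq_zero
      intro i hi
      rw [Finset.mem_sdiff] at hi
      apply Finset.sum_eq_zero
      intro v hv
      rw [if_pos (hgood i hi.1 hi.2 v hv)]
    rw [h1, zero_add, ← nsmul_eq_mul]
    apply Finset.sum_le_card_nsmul
    intro i _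
    calc ∑ v ∈ (vs_fin h i).toFinset, (if (thr_fin h v).toFinset ⊆ W then 0 else F i v)
        ≤ ∑ v ∈ (vs_fin h i).toFinset, |M| := by
          apply Finset.sum_le_sum
          intro v hv
          split_ifs
          · positivity
          · exact (le_abs_self _).trans ((hM i v hv).trans (le_abs_self M))
      _ = (vs_fin h i).toFinset.card * |M| := by rw [Finset.sum_const, nsmul_eq_mul]
      _ ≤ K * |M| := by
          apply mul_le_mul_of_nonneg_right _ (abs_nonneg M)
          exact_mod_cast hK i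
  have htot : (W.card : ℝ) * δ ≤ W'.card * (K * |M|) := by
    calc (W.card : ℝ) * δ = ∑ i ∈ W, δ := by rw [Finset.sum_const, nsmul_eq_mul]
      _ ≤ ∑ i ∈ W, ∑ v ∈ (vs_fin h i).toFinset, F i v := Finset.sum_le_sum fun i _ => hall i
      _ ≤ _ := by
          rw [Finset.sum_congr rfl fun i _ => hsplit i, Finset.sum_add_distrib]
          linarith
  have hWpos : (0 : ℝ) < W.card := by
    exact_mod_cast hWne.card_pos
  have h1 : (W'.card : ℝ) * (K * |M|) ≤ δ / (2 * (K * |M| + 1)) * W.card * (K * |M|) :=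
    mul_le_mul_of_nonneg_right hcard hKM
  have h2 : δ / (2 * (K * |M| + 1)) * W.card * (K * |M|) < W.card * δ := by
    have h3 : δ / (2 * (K * |M| + 1)) * (K * |M|) < δ := by
      rw [div_mul_eq_mul_div, div_lt_iff₀ (by positivity)]
      nlinarith
    calc δ / (2 * (K * |M| + 1)) * W.card * (K * |M|)
        = W.card * (δ / (2 * (K * |M| + 1)) * (K * |M|)) := by ring
      _ < W.card * δ := mul_lt_mul_of_pos_left h3 hWpos
  linarith

open Classical in
/-- If F takes only finitely many values then some tile has sum <= 0: the sums over the tiles take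
finitely many values (at most K summands from the finite set Q), so otherwise they are all >= δ
for some δ > 0. -/
theorem ap (h : Tiling P g) (K : ℕ) (hK : ∀ i, (vs_fin h i).toFinset.card ≤ K)
    (F : ι → Pl → ℝ) (Q : Finset ℝ) (hQ : ∀ i, ∀ v ∈ (vs_fin h i).toFinset, F i v ∈ Q)
    (hF : ∀ v, 3 ≤ (Thr P g v).ncard → ∑ i ∈ (thr_fin h v).toFinset, F i v ≤ 0) :
    ∃ i, ∑ v ∈ (vs_fin h i).toFinset, F i v ≤ 0 := by
  by_contra hno
  push Not at hno
  have hne : (⋃ i, g i '' P).Nonempty := by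
    rw [h.cov]
    exact univ_nonempty
  obtain ⟨x, hx⟩ := hne
  obtain ⟨i0, _⟩ := mem_iUnion.1 hx
  have hsum : ∀ i, ∃ c : Q → Fin (K + 1),
      ∑ q : Q, ((c q : ℕ) : ℝ) * q.1 = ∑ v ∈ (vs_fin h i).toFinset, F i v := by
    intro i
    refine ⟨fun q => ⟨((vs_fin h i).toFinset.filter fun v => F i v = q.1).card, ?_⟩, ?_⟩
    · have := (Finset.card_filter_le (vs_fin h i).toFinset (fun v => F i v = q.1)).trans (hK i)
      omega
    · rw [← Finset.sum_fiberwise_of_maps_to' (hQ i) (fun q => q)]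
      rw [← Finset.sum_coe_sort Q]
      apply Finset.sum_congr rfl
      intro q _
      rw [Finset.sum_const, nsmul_eq_mul]
  have hfin : {t | t ∈ range (fun c : Q → Fin (K + 1) => ∑ q : Q, ((c q : ℕ) : ℝ) * q.1) ∧
      0 < t}.Finite := (finite_range _).subset fun t ht => ht.1
  have hmem : ∀ i, ∑ v ∈ (vs_fin h i).toFinset, F i v ∈
      {t | t ∈ range (fun c : Q → Fin (K + 1) => ∑ q : Q, ((c q : ℕ) : ℝ) * q.1) ∧ 0 < t} := by
    intro i
    obtain ⟨c, hc⟩ := hsum i
    exact ⟨⟨c, hc⟩, hno i⟩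
  obtain ⟨δ, hδ, hmin⟩ := exists_min_image _ (fun t => t) hfin ⟨_, hmem i0⟩
  refine ap_eps h F (∑ q ∈ Q, |q|) K hK ?_ hF δ hδ.2 fun i => hmin _ (hmem i)
  intro i v hv
  exact Finset.single_le_sum (f := fun q => |q|) (fun q _ => abs_nonneg q) (hQ i v hv)

end Pool.Agent.Work.MP_bd00dd_co
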