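import Pool.Agent.Work.MP_bd00dd_co.G.Ang

/-!
Angle sum of a convex polygon with k corners: k - 2.

Proof. For u ≠ 0 with cross u (q - p) ≠ 0 for all different corners p, q: the number of the corners
p with u ∈ cone Q p plus the number of those with -u ∈ cone Q p is k - 2. Namely f = cross u is
injective on the corners; let p1, p2 be the corners with the largest and smallest value; the face
of f (and of -f) is the single point p1 (p2) as Q is the hull of the corners. For p = p1: p + r u
with r ≠ 0 has the same f, so it is not in Q; hence neither u nor -u is in the cone, the same for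
p2. For any other corner p: f p2 < f p < f p1; the point x of the segment p2 p1 with f x = f p is in
Q and different from p (p is extreme), x - p = r u with r ≠ 0; so u or -u is in the cone; not both
since p is extreme. The exceptional u form a finite union of lines (line_null). Integrate over the
unit ball: ∑ 2 vol(cone Q p ∩ ball) = (k - 2) vol(ball), since -cone has the same volume.
-/

namespace Pool.Agent.Work.MP_bd00dd_co

open MeasureTheory Metric Set

/-- At a corner where `cross u` is maximal neither `u` nor `-u` points into the polygon. -/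
theorem angsum_max {Q : Set Pl} (h : Poly Q) {u : Pl} (hu : u ≠ 0)
    (hn : ∀ p ∈ Q.extremePoints ℝ, ∀ q ∈ Q.extremePoints ℝ, p ≠ q → cross u (q - p) ≠ 0)
    {f : Pl →L[ℝ] ℝ} (hf : ∀ x, f x = cross u x ∨ f x = - cross u x) (hf0 : f ≠ 0) {p : Pl}
    (hp : p ∈ Q.extremePoints ℝ) (hmax : ∀ q ∈ Q.extremePoints ℝ, f q ≤ f p) :
    u ∉ cone Q p ∧ -u ∉ cone Q p := by
  have hpQ : p ∈ Q := extremePoints_subset hp
  have hfu : f u = 0 := by
    rcases hf u with h1 | h1
    · rw [h1]; simp [cross, mul_comm]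
    · rw [h1]; simp [cross, mul_comm]
  have hmax' : ∀ z ∈ Q, f z ≤ f p := by
    intro z hz
    have h1 := corner_hull_le h (-f) (- f p) (fun x hx => by
      show - f p ≤ - f x
      linarith [hmax x hx]) z hz
    have h2 : - f p ≤ - f z := h1
    linarith
  have key : ∀ r : ℝ, r ≠ 0 → p + r • u ∉ Q := by
    intro r hr hru
    have hne : p ≠ p + r • u := by
      intro h1
      have h2 : r • u = 0 := by
        have := congrArg (fun z => z - p) h1
        simpa using this.symm
      rcases smul_eq_zero.mp h2 with h3 | h3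
      · exact hr h3
      · exact hu h3
    obtain ⟨P, R, hPR, hF⟩ := face h hf0 hpQ hru hne (by rw [map_add, map_smul, hfu, smul_zero,
      add_zero]) hmax'
    have h1 : P ∈ {z | z ∈ Q ∧ f z = f p} := by rw [hF]; exact left_mem_segment ℝ P R
    have h2 : R ∈ {z | z ∈ Q ∧ f z = f p} := by rw [hF]; exact right_mem_segment ℝ P R
    have h3 : f (R - P) = 0 := by rw [map_sub, h1.2, h2.2, sub_self]
    apply hn P hPR.1 R hPR.2.1 hPR.2.2.1
    rcases hf (R - P) with h4 | h4
    · rw [← h4, h3]
    · rw [h3] at h4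
      linarith
  constructor
  · rintro ⟨r, hr, h1⟩
    exact key r hr.ne' h1
  · rintro ⟨r, hr, h1⟩
    apply key (-r) (neg_ne_zero.mpr hr.ne')
    rwa [smul_neg, ← neg_smul] at h1

/-- The pointwise statement. -/
theorem ang_count {Q : Set Pl} (h : Poly Q) {u : Pl} (hu : u ≠ 0)
    (hn : ∀ p ∈ Q.extremePoints ℝ, ∀ q ∈ Q.extremePoints ℝ, p ≠ q → cross u (q - p) ≠ 0) :
    {p | p ∈ Q.extremePoints ℝ ∧ u ∈ cone Q p}.ncard +
      {p | p ∈ Q.extremePoints ℝ ∧ -u ∈ cone Q p}.ncard + 2 = (Q.extremePoints ℝ).ncard := by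
  classical
  have h3 := three_ext h
  have hEne : h.fin.toFinset.Nonempty := by
    rw [← Finset.card_pos, ← Set.ncard_eq_toFinset_card _ h.fin]
    omega
  have hmem : ∀ x, x ∈ h.fin.toFinset ↔ x ∈ Q.extremePoints ℝ := fun x =>
    Set.Finite.mem_toFinset _
  obtain ⟨p1, hp1, hmax⟩ := h.fin.toFinset.exists_max_image (fun x => cross u x) hEne
  obtain ⟨p2, hp2, hmin⟩ := h.fin.toFinset.exists_min_image (fun x => cross u x) hEne
  rw [hmem] at hp1 hp2
  have hinj : ∀ p ∈ Q.extremePoints ℝ, ∀ q ∈ Q.extremePoints ℝ, p ≠ q → cross u p ≠ cross u q := by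
    intro p hp q hq hpq h4
    apply hn p hp q hq hpq
    rw [corner_cross_sub, h4, sub_self]
  have hp12 : p1 ≠ p2 := by
    intro h4
    have h5 : ∀ x ∈ Q.extremePoints ℝ, x = p1 := by
      intro x hx
      by_contra h6
      have h7 := hmax x ((hmem x).mpr hx)
      have h8 := hmin x ((hmem x).mpr hx)
      rw [← h4] at h8
      exact hinj x hx p1 hp1 h6 (le_antisymm h7 h8)
    have h6 : (Q.extremePoints ℝ) ⊆ {p1} := fun x hx => h5 x hx
    have h7 := Set.ncard_le_ncard h6
    rw [Set.ncard_singleton] at h7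
    omega
  have m1 := angsum_max h hu hn (f := face_cr u) (fun x => Or.inl rfl) (face_cr_ne hu) hp1
    (fun q hq => hmax q ((hmem q).mpr hq))
  have m2 := angsum_max h hu hn (f := - face_cr u) (fun x => Or.inr rfl)
    (neg_ne_zero.mpr (face_cr_ne hu)) hp2
    (fun q hq => neg_le_neg (hmin q ((hmem q).mpr hq)))
  have hmid : ∀ p ∈ Q.extremePoints ℝ, p ≠ p1 → p ≠ p2 → (u ∈ cone Q p ∨ -u ∈ cone Q p) := by
    intro p hp h4 h5
    have h6 : cross u p < cross u p1 :=
      lt_of_le_of_ne (hmax p ((hmem p).mpr hp)) (hinj p hp p1 hp1 h4)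
    have h7 : cross u p2 < cross u p :=
      lt_of_le_of_ne (hmin p ((hmem p).mpr hp)) (hinj p2 hp2 p hp h5.symm)
    set a := (cross u p1 - cross u p) / (cross u p1 - cross u p2) with ha
    have hden : 0 < cross u p1 - cross u p2 := by linarith
    have ha0 : 0 < a := div_pos (by linarith) hden
    have ha1 : a < 1 := by rw [ha, div_lt_one hden]; linarith
    have hb : 1 - a = (cross u p - cross u p2) / (cross u p1 - cross u p2) := by
      rw [ha, eq_div_iff hden.ne', sub_mul, div_mul_cancel₀ _ hden.ne']; ring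
    have hxo : a • p2 + (1 - a) • p1 ∈ openSegment ℝ p2 p1 :=
      ⟨a, 1 - a, ha0, by linarith, by ring, rfl⟩
    have hxQ : a • p2 + (1 - a) • p1 ∈ Q :=
      h.conv.openSegment_subset (extremePoints_subset hp2) (extremePoints_subset hp1) hxo
    have hfx : cross u (a • p2 + (1 - a) • p1 - p) = 0 := by
      have e1 : cross u (a • p2 + (1 - a) • p1 - p) =
          a * cross u p2 + (1 - a) * cross u p1 - cross u p := by
        simp only [cross, PiLp.sub_apply, PiLp.add_apply, PiLp.smul_apply, smul_eq_mul]; ring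
      rw [e1, hb, ha, div_mul_eq_mul_div, div_mul_eq_mul_div, ← add_div, sub_eq_zero,
        div_eq_iff hden.ne']
      ring
    obtain ⟨r, hr⟩ := face_prop hu hfx
    have hx : a • p2 + (1 - a) • p1 = p + r • u := by rw [← hr]; abel
    rw [hx] at hxQ hxo
    rcases lt_trichotomy r 0 with h8 | h8 | h8
    · right
      refine ⟨-r, by linarith, ?_⟩
      rwa [smul_neg, neg_smul, neg_neg]
    · exfalso
      rw [h8, zero_smul, add_zero] at hxo
      rw [mem_extremePoints] at hp
      exact h5 (hp.2 p2 (extremePoints_subset hp2) p1 (extremePoints_subset hp1) hxo).1.symm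
    · left
      exact ⟨r, h8, hxQ⟩
  have hnot : ∀ p ∈ Q.extremePoints ℝ, ¬ (u ∈ cone Q p ∧ -u ∈ cone Q p) := by
    rintro p hp ⟨⟨r, hr, h4⟩, ⟨s, hs, h5⟩⟩
    rw [mem_extremePoints] at hp
    have h6 : p ∈ openSegment ℝ (p + r • u) (p + s • -u) := by
      refine ⟨s / (r + s), r / (r + s), by positivity, by positivity, by field_simp; ring, ?_⟩
      have : r + s ≠ 0 := by positivity
      apply face_ext <;>
      · simp only [PiLp.add_apply, PiLp.smul_apply, PiLp.neg_apply, smul_eq_mul]
        field_simp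
        ring
    have h7 := (hp.2 _ h4 _ h5 h6).1
    have h8 : r • u = 0 := by
      have := congrArg (fun z => z - p) h7
      simpa using this
    rcases smul_eq_zero.mp h8 with h9 | h9
    · exact hr.ne' h9
    · exact hu h9
  have hU : {p | p ∈ Q.extremePoints ℝ ∧ u ∈ cone Q p} ∪
      {p | p ∈ Q.extremePoints ℝ ∧ -u ∈ cone Q p} = Q.extremePoints ℝ \ {p1, p2} := by
    ext p
    constructor
    · rintro (⟨h4, h5⟩ | ⟨h4, h5⟩)
      · refine ⟨h4, ?_⟩
        rintro (rfl | h6)
        · exact m1.1 h5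
        · rw [mem_singleton_iff] at h6
          subst h6
          exact m2.1 h5
      · refine ⟨h4, ?_⟩
        rintro (rfl | h6)
        · exact m1.2 h5
        · rw [mem_singleton_iff] at h6
          subst h6
          exact m2.2 h5
    · rintro ⟨h4, h5⟩
      rcases hmid p h4 (fun h6 => h5 (Or.inl h6)) (fun h6 => h5 (Or.inr h6)) with h6 | h6
      · exact Or.inl ⟨h4, h6⟩
      · exact Or.inr ⟨h4, h6⟩
  have hdisj : Disjoint {p | p ∈ Q.extremePoints ℝ ∧ u ∈ cone Q p}
      {p | p ∈ Q.extremePoints ℝ ∧ -u ∈ cone Q p} := by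
    rw [Set.disjoint_left]
    rintro p ⟨h4, h5⟩ ⟨_, h6⟩
    exact hnot p h4 ⟨h5, h6⟩
  rw [← Set.ncard_union_eq hdisj (h.fin.subset fun p hp => hp.1) (h.fin.subset fun p hp => hp.1),
    hU]
  have h4 : ({p1, p2} : Set Pl) ⊆ Q.extremePoints ℝ := by
    rintro x (rfl | h5)
    · exact hp1
    · rw [mem_singleton_iff] at h5
      rw [h5]; exact hp2
  rw [Set.ncard_sdiff h4 (Set.toFinite _), Set.ncard_pair hp12]
  omega

theorem ang_sum {Q : Set Pl} (h : Poly Q) :
    ∑ p ∈ h.fin.toFinset, ang Q p = ((Q.extremePoints ℝ).ncard : ℝ) - 2 := by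
  classical
  have h3 := three_ext h
  have hmem : ∀ x, x ∈ h.fin.toFinset ↔ x ∈ Q.extremePoints ℝ := fun x =>
    Set.Finite.mem_toFinset _
  set μ : Measure Pl := volume.restrict (ball 0 1) with hμ
  -- almost every direction is good
  have hae0 : ∀ᵐ u : Pl ∂volume, ∀ p ∈ h.fin.toFinset, ∀ q ∈ h.fin.toFinset, p ≠ q →
      cross u (q - p) ≠ 0 := by
    rw [Filter.eventually_all_finset]
    intro p _
    rw [Filter.eventually_all_finset]
    intro q _
    by_cases hpq : p = q
    · exact Filter.Eventually.of_forall fun u h4 => absurd hpq h4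
    · have h4 := line_null (sub_ne_zero.mpr (Ne.symm hpq))
      have h5 : ∀ᵐ u : Pl ∂volume, u ∉ {u : Pl | cross (q - p) u = 0} :=
        measure_eq_zero_iff_ae_notMem.mp h4
      filter_upwards [h5] with u hu _ h6
      apply hu
      show cross (q - p) u = 0
      rw [corner_cross_anti, h6, neg_zero]
  have hae : ∀ᵐ u : Pl ∂μ, ∀ p ∈ h.fin.toFinset, ∀ q ∈ h.fin.toFinset, p ≠ q →
      cross u (q - p) ≠ 0 := ae_restrict_of_ae hae0
  obtain ⟨a, b, ha, hb, hab⟩ := (Set.one_lt_ncard_iff h.fin).mp
    (show 1 < (Q.extremePoints ℝ).ncard by omega)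
  have hnull : ∀ p ∈ h.fin.toFinset, NullMeasurableSet (cone Q p) μ := fun p hp =>
    (cone_null h.conv (extremePoints_subset ((hmem p).mp hp))).mono Measure.restrict_le_self
  have hnull' : ∀ p ∈ h.fin.toFinset, NullMeasurableSet (-cone Q p) μ := fun p hp =>
    (((cone_convex h.conv (extremePoints_subset ((hmem p).mp hp))).neg).nullMeasurableSet
      volume).mono Measure.restrict_le_self
  have e1 : ∫⁻ u, (∑ p ∈ h.fin.toFinset, (cone Q p).indicator 1 u) +
      (∑ p ∈ h.fin.toFinset, (-cone Q p).indicator 1 u) ∂μ =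
      ∑ p ∈ h.fin.toFinset, (μ (cone Q p) + μ (-cone Q p)) := by
    rw [lintegral_add_left', lintegral_finsetSum', lintegral_finsetSum', ← Finset.sum_add_distrib]
    · refine Finset.sum_congr rfl fun p hp => ?_
      rw [lintegral_indicator_one₀ (hnull p hp), lintegral_indicator_one₀ (hnull' p hp)]
    · exact fun p hp => aemeasurable_one.indicator₀ (hnull' p hp)
    · exact fun p hp => aemeasurable_one.indicator₀ (hnull p hp)
    · exact Finset.aemeasurable_fun_sum _
        fun p hp => aemeasurable_one.indicator₀ (hnull p hp)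
  have e2 : ∫⁻ u, (∑ p ∈ h.fin.toFinset, (cone Q p).indicator 1 u) +
      (∑ p ∈ h.fin.toFinset, (-cone Q p).indicator 1 u) ∂μ =
      ∫⁻ _, (((Q.extremePoints ℝ).ncard - 2 : ℕ) : ENNReal) ∂μ := by
    apply lintegral_congr_ae
    filter_upwards [hae] with u hu
    have hn : ∀ p ∈ Q.extremePoints ℝ, ∀ q ∈ Q.extremePoints ℝ, p ≠ q → cross u (q - p) ≠ 0 :=
      fun p hp q hq => hu p ((hmem p).mpr hp) q ((hmem q).mpr hq)
    have hu0 : u ≠ 0 := by
      rintro rfl
      apply hn a ha b hb hab
      simp [cross]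
    have hc := ang_count h hu0 hn
    have f1 : (∑ p ∈ h.fin.toFinset, (cone Q p).indicator (1 : Pl → ENNReal) u) =
        (({p | p ∈ Q.extremePoints ℝ ∧ u ∈ cone Q p}.ncard : ℕ) : ENNReal) := by
      simp only [Set.indicator_apply, Pi.one_apply]
      rw [Finset.sum_boole]
      congr 1
      rw [← Set.ncard_coe_finset]
      congr 1
      ext p
      simp
    have f2 : (∑ p ∈ h.fin.toFinset, (-cone Q p).indicator (1 : Pl → ENNReal) u) =
        (({p | p ∈ Q.extremePoints ℝ ∧ -u ∈ cone Q p}.ncard : ℕ) : ENNReal) := by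
      simp only [Set.indicator_apply, Pi.one_apply]
      rw [Finset.sum_boole]
      congr 1
      rw [← Set.ncard_coe_finset]
      congr 1
      ext p
      simp
    rw [f1, f2, ← Nat.cast_add]
    congr 1
    omega
  rw [e1, lintegral_const] at e2
  have hB : MeasurableSet (ball (0 : Pl) 1) := measurableSet_ball
  have e3 : ∀ p, μ (cone Q p) = volume (cone Q p ∩ ball 0 1) := fun p => by
    rw [hμ, Measure.restrict_apply' hB]
  have e4 : ∀ p, μ (-cone Q p) = volume (cone Q p ∩ ball 0 1) := fun p => by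
    rw [hμ, Measure.restrict_apply' hB, ← Measure.measure_neg volume (cone Q p ∩ ball 0 1)]
    congr 1
    ext u
    simp only [mem_neg, mem_inter_iff, mem_ball_zero_iff, norm_neg]
  have hfin : ∀ s : Set Pl, volume (s ∩ ball 0 1) ≠ ⊤ := fun s =>
    ne_top_of_le_ne_top measure_ball_lt_top.ne (measure_mono inter_subset_right)
  have e5 : μ univ = volume (ball (0 : Pl) 1) := by
    rw [hμ, Measure.restrict_apply_univ]
  have e6 := congrArg ENNReal.toReal e2
  rw [e5, ENNReal.toReal_mul, ENNReal.toReal_natCast, ENNReal.toReal_sum (fun p _ => by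
    rw [e3, e4]; exact ENNReal.add_ne_top.mpr ⟨hfin _, hfin _⟩)] at e6
  have hV := ang_ball_pos
  have e7 : (((Q.extremePoints ℝ).ncard - 2 : ℕ) : ℝ) = ((Q.extremePoints ℝ).ncard : ℝ) - 2 := by
    rw [Nat.cast_sub (by omega)]; norm_num
  rw [← e7, ← mul_right_cancel_iff_of_pos hV, ← e6, Finset.sum_mul]
  refine Finset.sum_congr rfl fun p _ => ?_
  rw [e3, e4, ENNReal.toReal_add (hfin _) (hfin _)]
  unfold ang
  rw [div_mul_cancel₀ _ hV.ne']
  ring

end Pool.Agent.Work.MP_bd00dd_co
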