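import Pool.Agent.Work.MP_bd00dd_co.G.Edge

/-!
Number of neighbours: n = ∑ over the vertices v on T i of (deg v - 2).

Proof. Let V be the finite set of the vertices on T i, J the set of the j ≠ i with T j ∩ T i
nonempty (finite, n elements). For j ∈ J the set V ∩ T j has one or two elements (inter_cases:
T i ∩ T j = segment a b, V ∩ T j = {a, b}); let E be the set of the j with two elements (a ≠ b).
Double counting of the pairs (v, j), v ∈ V, j ∈ J, v ∈ T j: ∑ (deg v - 1) = n + #E.
Double counting of the pairs (v, j), v ∈ V, j ∈ E, v ∈ T j: every j ∈ E has two such v; every v has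
exactly two such j (edge_two), so 2 #V = 2 #E. Hence ∑ (deg v - 2) = n.
-/

namespace Pool.Agent.Work.MP_bd00dd_co

open MeasureTheory Metric Set

variable {ι : Type*} {P : Set Pl} {g : ι → Pl ≃ᵢ Pl}

/-- The two rays of the boundary of a polygon at a boundary point. -/
theorem count_rays {Q : Set Pl} (h : Poly Q) {v : Pl} (hv : v ∈ frontier Q) :
    ∃ p1 q1 p2 q2, IsSide Q p1 q1 ∧ IsSide Q p2 q2 ∧ v ∈ segment ℝ p1 q1 ∧
      v ∈ segment ℝ p2 q2 ∧ v ≠ q1 ∧ v ≠ q2 ∧
      (∀ x ∈ segment ℝ v q1, x ∈ segment ℝ v q2 → x = v) ∧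
      ∀ p q, IsSide Q p q → v ∈ segment ℝ p q → ∀ y ∈ segment ℝ p q, y ≠ v →
        y ∈ segment ℝ v q1 ∨ y ∈ segment ℝ v q2 := by
  rcases front_cases h hv with he | ⟨p, q, hpq, hvo⟩
  · obtain ⟨q, r, hqr, hq, hr, hcr, huniq⟩ := two_sides h he
    refine ⟨v, q, v, r, hq, hr, left_mem_segment ℝ _ _, left_mem_segment ℝ _ _, hq.2.2.1,
      hr.2.2.1, ?_, ?_⟩
    · intro x hx hx'
      rw [segment_eq_image'] at hx hx'
      obtain ⟨s, hs, rfl⟩ := hx
      obtain ⟨t, ht, he⟩ := hx'
      have h1 : t • (r - v) = s • (q - v) := add_left_cancel he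
      have h2 : cross (r - v) (s • (q - v)) = 0 := by
        rw [← h1, corner_cross_smul]
        simp [cross, mul_comm]
      rw [corner_cross_smul] at h2
      have h3 : s = 0 := by
        rcases mul_eq_zero.mp h2 with h4 | h4
        · exact h4
        · rw [corner_cross_anti, neg_eq_zero] at h4
          exact absurd h4 hcr
      simp [h3]
    · intro p' q' hs' hv' y hy hyv
      rcases ext_side h hs' hv' he with rfl | rfl
      · rcases huniq q' hs' with rfl | rfl
        · exact Or.inl hy
        · exact Or.inr hy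
      · rw [segment_symm] at hy
        rcases huniq p' (face_side_symm hs') with rfl | rfl
        · exact Or.inl hy
        · exact Or.inr hy
  · have hd : q - p ≠ 0 := sub_ne_zero.2 hpq.2.2.1.symm
    have hvs := openSegment_subset_segment ℝ p q hvo
    rw [openSegment_eq_image'] at hvo
    obtain ⟨t, ⟨ht0, ht1⟩, hvt⟩ := hvo
    have hvt' : v = p + t • (q - p) := hvt.symm
    have hq1 : q = p + (1 : ℝ) • (q - p) := by simp
    have hp0 : p = p + (0 : ℝ) • (q - p) := by simp
    have hvq : v ≠ q := by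
      intro h1
      have h2 : p + t • (q - p) = p + (1 : ℝ) • (q - p) := by
        rw [← hvt', ← hq1]
        exact h1
      have := line_inj hd h2
      linarith
    have hvp : v ≠ p := by
      intro h1
      rw [hvt'] at h1
      have h2 : t • (q - p) = 0 := by simpa using h1
      rcases smul_eq_zero.mp h2 with h3 | h3
      · exact ht0.ne' h3
      · exact hd h3
    refine ⟨p, q, q, p, hpq, face_side_symm hpq, hvs, by rw [segment_symm]; exact hvs, hvq, hvp,
      ?_, ?_⟩
    · intro x hx hx'
      rw [segment_eq_image'] at hx hx'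
      obtain ⟨s, ⟨hs0, hs1⟩, rfl⟩ := hx
      obtain ⟨r, ⟨hr0, hr1⟩, he⟩ := hx'
      have e1 : v + s • (q - v) = p + (t + s * (1 - t)) • (q - p) := by
        rw [hvt']
        module
      have e2 : v + r • (p - v) = p + (t - r * t) • (q - p) := by
        rw [hvt']
        module
      have e3 : p + (t - r * t) • (q - p) = p + (t + s * (1 - t)) • (q - p) := by
        rw [← e1, ← e2]; exact he
      have e4 := line_inj hd e3
      have e5 : s = 0 := by
        have h6 : 0 ≤ r * t := by positivity
        have h7 : s * (1 - t) ≤ 0 := by linarith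
        by_contra h8
        have h9 : 0 < s := lt_of_le_of_ne hs0 (Ne.symm h8)
        have : 0 < s * (1 - t) := mul_pos h9 (by linarith)
        linarith
      simp [e5]
    · intro p' q' hs' hv' y hy hyv
      have hy' : y ∈ segment ℝ p q := by
        have hvo' : v ∈ openSegment ℝ p q := face_open_of_seg hvs hvp hvq
        rcases side_unique h hpq hs' hvo' hv' with ⟨e1, e2⟩ | ⟨e1, e2⟩
        · rw [e1, e2]; exact hy
        · rw [e1, e2, segment_symm]; exact hy
      rw [segment_eq_image'] at hy'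
      obtain ⟨s, ⟨hs0, hs1⟩, hys⟩ := hy'
      have hys' : y = p + s • (q - p) := hys.symm
      rcases lt_trichotomy s t with h1 | h1 | h1
      · right
        rcases hs0.lt_or_eq with h2 | h2
        · apply openSegment_subset_segment
          have := line_mem (p := p) (d := q - p) (s := s) (t := t) (u := 0) (Or.inr ⟨h2, h1⟩)
          rw [← hvt', ← hys', ← hp0] at this
          exact this
        · rw [hys', ← h2, ← hp0]
          exact right_mem_segment ℝ _ _
      · exact absurd (by rw [hys', h1, hvt']) hyv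
      · left
        rcases hs1.lt_or_eq with h2 | h2
        · apply openSegment_subset_segment
          have := line_mem (p := p) (d := q - p) (s := s) (t := t) (u := 1) (Or.inl ⟨h1, h2⟩)
          rw [← hvt', ← hys', ← hq1] at this
          exact this
        · rw [hys', h2, ← hq1]
          exact right_mem_segment ℝ _ _

/-- Comparison of two points of a ray. -/
theorem count_cmp {v q y w : Pl} (hy : y ∈ segment ℝ v q) (hw : w ∈ segment ℝ v q)
    (hyv : y ≠ v) (hwv : w ≠ v) :
    y = w ∨ y ∈ openSegment ℝ v w ∨ w ∈ openSegment ℝ v y := by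
  rw [segment_eq_image'] at hy hw
  obtain ⟨s, ⟨hs0, _⟩, rfl⟩ := hy
  obtain ⟨t, ⟨ht0, _⟩, rfl⟩ := hw
  have hs : 0 < s := lt_of_le_of_ne hs0 (by rintro rfl; exact hyv (by simp))
  have ht : 0 < t := lt_of_le_of_ne ht0 (by rintro rfl; exact hwv (by simp))
  have hv0 : v = v + (0 : ℝ) • (q - v) := by simp
  rcases lt_trichotomy s t with h1 | h1 | h1
  · right; left
    have := line_mem (p := v) (d := q - v) (s := s) (t := 0) (u := t) (Or.inl ⟨hs, h1⟩)
    rwa [← hv0] at this
  · left
    rw [h1]
  · right; right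
    have := line_mem (p := v) (d := q - v) (s := t) (t := 0) (u := s) (Or.inl ⟨ht, h1⟩)
    rwa [← hv0] at this

/-- Every vertex v on T i is in exactly two tiles j ≠ i such that T i ∩ T j has more than one
point. Proof: there are exactly two sides rays at v: if v is a corner, the sides v q, v r of
two_sides; otherwise v is inside a side p q (front_cases) and the rays go to p and to q. Each ray
gives an edge v w (first_edge, edge), the two w are different and so are the two tiles j
(T i ∩ T j = segment v w). If T i ∩ T j contains v and another point then it is a segment a b with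
v ∈ {a, b} (inner points have degree 2), it is in the frontier, so in a side (seg_front) which
contains v, hence along one of the two rays (two_sides, side_unique, ext_side); points close to
v on this ray are in T j and in the tile of this ray and have degree 2, so j is this tile. -/
theorem edge_two (h : Tiling P g) {i : ι} {v : Pl} (hv : v ∈ g i '' P)
    (h3 : 3 ≤ (Thr P g v).ncard) :
    {j | j ≠ i ∧ v ∈ g j '' P ∧ ∃ w, w ≠ v ∧ w ∈ g i '' P ∩ g j '' P}.ncard = 2 := by
  obtain ⟨j0, hj0, hj0i⟩ : ∃ j ∈ Thr P g v, j ≠ i := by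
    by_contra hno
    push Not at hno
    have : (Thr P g v).ncard ≤ 1 :=
      (ncard_le_one (thr_fin h v)).2 fun a ha b hb => (hno a ha).trans (hno b hb).symm
    omega
  have hvf : v ∈ frontier (g i '' P) := inter_front h (Ne.symm hj0i) hv hj0
  obtain ⟨p1, q1, p2, q2, hs1, hs2, hv1, hv2, hvq1, hvq2, hdis, hcomp⟩ :=
    count_rays (poly_t h i) hvf
  obtain ⟨w1, hw1, hw1v, hw13, hw1o⟩ := first_edge h hs1 hv1 hvq1 h3
  obtain ⟨w2, hw2, hw2v, hw23, hw2o⟩ := first_edge h hs2 hv2 hvq2 h3
  have hw1s : w1 ∈ segment ℝ p1 q1 :=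
    (convex_segment p1 q1).segment_subset hv1 (right_mem_segment ℝ _ _) hw1
  have hw2s : w2 ∈ segment ℝ p2 q2 :=
    (convex_segment p2 q2).segment_subset hv2 (right_mem_segment ℝ _ _) hw2
  obtain ⟨j1, hj1i, hj1K, hj1u⟩ := edge h hs1 hv1 hw1s hw1v.symm h3 hw13 hw1o
  obtain ⟨j2, hj2i, hj2K, hj2u⟩ := edge h hs2 hv2 hw2s hw2v.symm h3 hw23 hw2o
  have hw1T : w1 ∈ g i '' P ∩ g j1 '' P := by rw [hj1K]; exact right_mem_segment ℝ _ _
  have hw2T : w2 ∈ g i '' P ∩ g j2 '' P := by rw [hj2K]; exact right_mem_segment ℝ _ _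
  have hv1T : v ∈ g i '' P ∩ g j1 '' P := by rw [hj1K]; exact left_mem_segment ℝ _ _
  have hv2T : v ∈ g i '' P ∩ g j2 '' P := by rw [hj2K]; exact left_mem_segment ℝ _ _
  have hj12 : j1 ≠ j2 := by
    rintro rfl
    have h4 : w1 ∈ segment ℝ v w2 := by rw [← hj2K]; exact hw1T
    have h5 : w1 ∈ segment ℝ v q2 :=
      (convex_segment v q2).segment_subset (left_mem_segment ℝ _ _) hw2 h4
    exact hw1v (hdis w1 hw1 h5)
  have hset : {j | j ≠ i ∧ v ∈ g j '' P ∧ ∃ w, w ≠ v ∧ w ∈ g i '' P ∩ g j '' P} = {j1, j2} := by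
    ext j
    constructor
    · rintro ⟨hji, hvj, w, hwv, hwi, hwj⟩
      obtain ⟨a, b, hK, ha3, hb3, ho⟩ := inter_cases h (Ne.symm hji) ⟨v, hv, hvj⟩
      -- wlog `v = a`
      have hKv : v ∈ segment ℝ a b := by rw [← hK]; exact ⟨hv, hvj⟩
      have hKw : w ∈ segment ℝ a b := by rw [← hK]; exact ⟨hwi, hwj⟩
      have hab : a ≠ b := by
        rintro rfl
        rw [segment_same] at hKv hKw
        exact hwv (hKw.trans hKv.symm)
      have hKf : segment ℝ a b ⊆ frontier (g i '' P) := by
        intro y hy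
        rw [← hK] at hy
        exact inter_front h (Ne.symm hji) hy.1 hy.2
      obtain ⟨p, q, hs, hap, hbp⟩ := seg_front (poly_t h i) hab hKf
      obtain ⟨c, hc3, hcv, hK', hcp, ho'⟩ : ∃ c, 3 ≤ (Thr P g c).ncard ∧ c ≠ v ∧
          g i '' P ∩ g j '' P = segment ℝ v c ∧ c ∈ segment ℝ p q ∧
          ∀ x ∈ openSegment ℝ v c, Thr P g x = {i, j} := by
        rcases mem_ends (Ne.symm hji) ho hKv h3 with rfl | rfl
        · exact ⟨b, hb3, hab.symm, hK, hbp, fun x hx => ho x hx hab⟩
        · refine ⟨a, ha3, hab, by rw [segment_symm]; exact hK, hap, fun x hx => ?_⟩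
          rw [openSegment_symm] at hx
          exact ho x hx hab
      have hvp : v ∈ segment ℝ p q := (convex_segment p q).segment_subset hap hbp hKv
      have hcT : c ∈ g i '' P ∩ g j '' P := by rw [hK']; exact right_mem_segment ℝ _ _
      have key : ∀ w, w ≠ v → 3 ≤ (Thr P g w).ncard →
          (∀ x ∈ openSegment ℝ v w, (Thr P g x).ncard < 3) → ∀ q', w ∈ segment ℝ v q' →
          c ∈ segment ℝ v q' → c = w := by
        intro w hwv hw3 hwo q' hwq hcq
        rcases count_cmp hcq hwq hcv hwv with h4 | h4 | h4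
        · exact h4
        · exact absurd hc3 (not_le.2 (hwo c h4))
        · have := ho' w h4
          rw [this, ncard_pair (Ne.symm hji)] at hw3
          omega
      rcases hcomp p q hs hvp c hcp hcv with h4 | h4
      · left
        have h5 := key w1 hw1v hw13 hw1o q1 hw1 h4
        exact hj1u j hji hvj (by rw [← h5]; exact hcT.2)
      · right
        have h5 := key w2 hw2v hw23 hw2o q2 hw2 h4
        exact hj2u j hji hvj (by rw [← h5]; exact hcT.2)
    · rintro (rfl | h4)
      · exact ⟨hj1i, hv1T.2, w1, hw1v, hw1T⟩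
      · rw [mem_singleton_iff] at h4
        subst h4
        exact ⟨hj2i, hv2T.2, w2, hw2v, hw2T⟩
  rw [hset, ncard_pair hj12]

theorem count (h : Tiling P g) (i : ι) :
    ∑ v ∈ (vs_fin h i).toFinset, (Thr P g v).ncard =
      {j | j ≠ i ∧ (g i '' P ∩ g j '' P).Nonempty}.ncard + 2 * (vs_fin h i).toFinset.card := by
  classical
  -- the finite set of the neighbours
  have hJfin : {j | j ≠ i ∧ (g i '' P ∩ g j '' P).Nonempty}.Finite := by
    obtain ⟨z, hz⟩ := tile_int h i
    have hz' := interior_subset hz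
    have hsub : g i '' P ⊆ closedBall z (0 + diam P) :=
      tile_sub h ⟨z, hz', mem_closedBall_self le_rfl⟩
    refine (locfin h z (0 + diam P)).subset ?_
    rintro j ⟨_, x, hx, hx'⟩
    exact ⟨x, hx', hsub hx⟩
  set V := (vs_fin h i).toFinset with hV
  set J := hJfin.toFinset with hJ
  have hVmem : ∀ v, v ∈ V ↔ v ∈ g i '' P ∧ 3 ≤ (Thr P g v).ncard := fun v =>
    Set.Finite.mem_toFinset _
  have hJmem : ∀ j, j ∈ J ↔ j ≠ i ∧ (g i '' P ∩ g j '' P).Nonempty := fun j =>
    Set.Finite.mem_toFinset _
  set E := J.filter (fun j => ∃ x y, x ≠ y ∧ x ∈ g i '' P ∩ g j '' P ∧ y ∈ g i '' P ∩ g j '' P)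
    with hE
  -- degree of a vertex
  have hdeg : ∀ v ∈ V, (Thr P g v).ncard = 1 + (J.filter (fun j => v ∈ g j '' P)).card := by
    intro v hv
    rw [hVmem] at hv
    have h1 : Thr P g v = insert i (J.filter (fun j => v ∈ g j '' P) : Set ι) := by
      ext j
      simp only [mem_insert_iff, Finset.coe_filter, mem_ofPred_eq, hJmem]
      constructor
      · intro hj
        by_cases hji : j = i
        · exact Or.inl hji
        · exact Or.inr ⟨⟨hji, v, hv.1, hj⟩, hj⟩
      · rintro (rfl | hj)
        · exact hv.1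
        · exact hj.2
    have h2 : i ∉ (J.filter (fun j => v ∈ g j '' P) : Set ι) := by
      simp only [Finset.coe_filter, mem_ofPred_eq, hJmem]
      rintro ⟨⟨h3, _⟩, _⟩
      exact h3 rfl
    rw [h1, Set.ncard_insert_of_notMem h2 (Finset.finite_toSet _), Set.ncard_coe_finset]
    ring
  -- number of vertices of an intersection
  have hbel : ∀ j ∈ J, (V.filter (fun v => v ∈ g j '' P)).card = 1 + if j ∈ E then 1 else 0 := by
    intro j hj
    have hj' := (hJmem j).mp hj
    obtain ⟨a, b, hK, ha3, hb3, ho⟩ := inter_cases h (Ne.symm hj'.1) hj'.2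
    have haK : a ∈ g i '' P ∩ g j '' P := by rw [hK]; exact left_mem_segment ℝ _ _
    have hbK : b ∈ g i '' P ∩ g j '' P := by rw [hK]; exact right_mem_segment ℝ _ _
    have h1 : V.filter (fun v => v ∈ g j '' P) = {a, b} := by
      ext v
      rw [Finset.mem_filter, hVmem, Finset.mem_insert, Finset.mem_singleton]
      constructor
      · rintro ⟨⟨h2, h3⟩, h4⟩
        exact mem_ends (Ne.symm hj'.1) ho (by rw [← hK]; exact ⟨h2, h4⟩) h3
      · rintro (rfl | rfl)
        · exact ⟨⟨haK.1, ha3⟩, haK.2⟩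
        · exact ⟨⟨hbK.1, hb3⟩, hbK.2⟩
    rw [h1]
    by_cases hab : a = b
    · subst hab
      have h2 : j ∉ E := by
        rw [hE, Finset.mem_filter]
        rintro ⟨_, x, y, hxy, hx, hy⟩
        rw [hK, segment_same] at hx hy
        exact hxy (hx.trans hy.symm)
      rw [if_neg h2]
      simp
    · have h2 : j ∈ E := by
        rw [hE, Finset.mem_filter]
        exact ⟨hj, a, b, hab, haK, hbK⟩
      rw [if_pos h2, Finset.card_pair hab]
  -- first double counting
  have hdc : ∑ v ∈ V, (J.filter (fun j => v ∈ g j '' P)).card =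
      ∑ j ∈ J, (V.filter (fun v => v ∈ g j '' P)).card :=
    Finset.sum_card_bipartiteAbove_eq_sum_card_bipartiteBelow (fun v j => v ∈ g j '' P)
  have hdcE : ∑ v ∈ V, (E.filter (fun j => v ∈ g j '' P)).card =
      ∑ j ∈ E, (V.filter (fun v => v ∈ g j '' P)).card :=
    Finset.sum_card_bipartiteAbove_eq_sum_card_bipartiteBelow (fun v j => v ∈ g j '' P)
  have hEJ : E ⊆ J := Finset.filter_subset _ _
  have e1 : ∑ j ∈ E, (V.filter (fun v => v ∈ g j '' P)).card = 2 * E.card := by
    rw [Finset.sum_congr rfl (fun j hj => by rw [hbel j (hEJ hj), if_pos hj]), Finset.sum_const,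
      smul_eq_mul, mul_comm]
  have e2 : ∑ v ∈ V, (E.filter (fun j => v ∈ g j '' P)).card = 2 * V.card := by
    rw [Finset.sum_congr rfl (g := fun _ => 2), Finset.sum_const, smul_eq_mul, mul_comm]
    intro v hv
    have hv' := (hVmem v).mp hv
    refine Eq.trans ?_ (edge_two h hv'.1 hv'.2)
    rw [← Set.ncard_coe_finset]
    congr 1
    ext j
    simp only [Finset.coe_filter, hE, Finset.mem_filter, hJmem, mem_ofPred_eq]
    constructor
    · rintro ⟨⟨⟨h1, _⟩, x, y, hxy, hx, hy⟩, h2⟩
      refine ⟨h1, h2, ?_⟩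
      by_cases hxv : x = v
      · exact ⟨y, fun h4 => hxy (hxv.trans h4.symm), hy⟩
      · exact ⟨x, hxv, hx⟩
    · rintro ⟨h1, h2, w, hwv, hw⟩
      exact ⟨⟨⟨h1, w, hw⟩, w, v, hwv, hw, hv'.1, h2⟩, h2⟩
  have e3 : E.card = V.card := by
    rw [hdcE, e1] at e2
    omega
  have e4 : ∑ j ∈ J, (V.filter (fun v => v ∈ g j '' P)).card = J.card + E.card := by
    rw [Finset.sum_congr rfl hbel, Finset.sum_add_distrib, Finset.sum_const, smul_eq_mul, mul_one,
      Finset.sum_ite_mem, Finset.inter_eq_right.mpr hEJ, Finset.sum_const, smul_eq_mul, mul_one]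
  have e5 : {j | j ≠ i ∧ (g i '' P ∩ g j '' P).Nonempty}.ncard = J.card :=
    Set.ncard_eq_toFinset_card _ hJfin
  rw [e5, Finset.sum_congr rfl hdeg, Finset.sum_add_distrib, Finset.sum_const, smul_eq_mul,
    mul_one, hdc, e4, e3]
  ring

end Pool.Agent.Work.MP_bd00dd_co
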