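import Pool.Agent.Work.MP_bd00dd_co.G.Iso

/-!
The angle is invariant under isometries: cone (g '' Q) (g x) = L '' cone Q x with L from iso_lin;
L maps the unit ball onto itself and preserves the volume.
-/

namespace Pool.Agent.Work.MP_bd00dd_co

open MeasureTheory Metric Set

theorem ang_im (g : Pl ≃ᵢ Pl) (Q : Set Pl) (x : Pl) : ang (g '' Q) (g x) = ang Q x := by
  obtain ⟨L, hL⟩ := iso_lin g
  have h1 : cone (g '' Q) (g x) = L '' cone Q x := by
    ext u
    constructor
    · rintro ⟨r, hr, y, hy, hyu⟩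
      refine ⟨L.symm u, ⟨r, hr, ?_⟩, L.apply_symm_apply u⟩
      have h3 : g (x + r • L.symm u) = g x + r • u := by
        rw [hL, map_smul, L.apply_symm_apply]
      rw [← h3] at hyu
      rw [← g.injective hyu]
      exact hy
    · rintro ⟨w, ⟨r, hr, hw⟩, rfl⟩
      exact ⟨r, hr, x + r • w, hw, by rw [hL, map_smul]⟩
  have h2 : L '' cone Q x ∩ ball 0 1 = L '' (cone Q x ∩ ball 0 1) := by
    rw [image_inter L.injective, L.image_ball, map_zero]
  have h3 : volume (L '' (cone Q x ∩ ball 0 1)) = volume (cone Q x ∩ ball 0 1) :=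
    vol_im L.toIsometryEquiv _
  unfold ang
  rw [h1, h2, h3]

end Pool.Agent.Work.MP_bd00dd_co
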