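import Pool.Agent.Work.MP_bd00dd_co.Defs

/-!
The area of a sector of the unit disk with angle φ is φ/2. Suggestion: by a rotation (iso_lin,
vol_im in G/Iso, or LinearIsometryEquiv) take u = (1, 0) times a positive number and
w = (cos φ, sin φ) times a positive number, 0 < φ < π; then use polar coordinates
(polarCoord, integral_comp_polarCoord_symm or the Complex version, volume-preserving equivalence
between the plane and ℝ × ℝ or ℂ): the sector is {(r cos t, r sin t), 0 < r < 1, 0 <= t <= φ}.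
-/

namespace Pool.Agent.Work.MP_bd00dd_co

open MeasureTheory Metric Set

private theorem im_expr (p : ℝ × ℝ) (t : ℂ) (φ ρ : ℝ)
    (ht : t = ρ * (Real.cos φ + Real.sin φ * Complex.I)) :
    ((starRingEnd ℂ) (Complex.polarCoord.symm p) * t).im = p.1 * ρ * Real.sin (φ - p.2) := by
  rw [Complex.polarCoord_symm_apply, ht, Real.sin_sub]
  simp [Complex.mul_im, Complex.mul_re, -Complex.ofReal_cos, -Complex.ofReal_sin]
  ring

private theorem re_lint (φ : ℝ) :
    ∫⁻ p in (Ioo (0:ℝ) 1 ×ˢ Icc (0:ℝ) φ), ENNReal.ofReal p.1 = ENNReal.ofReal (φ / 2) := by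
  rw [Measure.volume_eq_prod, ← Measure.prod_restrict]
  have h : (fun p : ℝ × ℝ => ENNReal.ofReal p.1) =
      fun p : ℝ × ℝ => ENNReal.ofReal p.1 * (fun _ : ℝ => (1 : ENNReal)) p.2 := by
    ext p; simp
  rw [h, lintegral_prod_mul (f := fun x : ℝ => ENNReal.ofReal x) (g := fun _ : ℝ => (1 : ENNReal))
    (by fun_prop) (by fun_prop)]
  rw [lintegral_one]
  have h2 : ∫⁻ x in Ioo (0:ℝ) 1, ENNReal.ofReal x = ENNReal.ofReal (1/2) := by
    rw [← ofReal_integral_eq_lintegral_ofReal]
    · rw [← integral_Ioc_eq_integral_Ioo, ← intervalIntegral.integral_of_le zero_le_one]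
      simp
    · have : IntegrableOn (fun x : ℝ => x) (Icc 0 1) := continuous_id.integrableOn_Icc
      exact this.mono_set Ioo_subset_Icc_self
    · filter_upwards [ae_restrict_mem measurableSet_Ioo] with x hx
      exact hx.1.le
  rw [h2]
  simp only [Measure.restrict_apply_univ, Real.volume_Icc, sub_zero]
  rw [← ENNReal.ofReal_mul (by norm_num)]
  congr 1
  ring

private theorem sector_aux {t : ℂ} (ht : 0 < t.im) :
    volume {z : ℂ | 0 ≤ z.im ∧ 0 ≤ ((starRingEnd ℂ) z * t).im ∧ ‖z‖ < 1} =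
      ENNReal.ofReal (t.arg / 2) := by
  set S' := {z : ℂ | 0 ≤ z.im ∧ 0 ≤ ((starRingEnd ℂ) z * t).im ∧ ‖z‖ < 1} with hS'
  have ht0 : t ≠ 0 := by
    rintro rfl
    simp at ht
  have hφ0 : 0 < t.arg := by
    rcases lt_or_eq_of_le (Complex.arg_nonneg_iff.2 ht.le) with h | h
    · exact h
    · exfalso
      have := Complex.arg_eq_zero_iff.1 h.symm
      rw [this.2] at ht
      exact lt_irrefl _ ht
  have hφ1 : t.arg < Real.pi := Complex.arg_lt_pi_iff.2 (Or.inr ht.ne')
  have hteq : t = (‖t‖ : ℂ) * (Real.cos t.arg + Real.sin t.arg * Complex.I) := by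
    rw [Complex.ofReal_cos, Complex.ofReal_sin]
    exact (Complex.norm_mul_cos_add_sin_mul_I t).symm
  have hm : MeasurableSet S' := by
    rw [hS']
    apply MeasurableSet.inter (s₁ := {z : ℂ | 0 ≤ z.im})
    · exact measurableSet_le measurable_const Complex.measurable_im
    · apply MeasurableSet.inter (s₁ := {z : ℂ | 0 ≤ ((starRingEnd ℂ) z * t).im})
      · have : Continuous (fun z : ℂ => ((starRingEnd ℂ) z * t).im) := by fun_prop
        exact measurableSet_le measurable_const this.measurable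
      · exact measurableSet_lt measurable_norm measurable_const
  have h1 : volume S' = ∫⁻ z, S'.indicator (fun _ => (1 : ENNReal)) z := by
    rw [lintegral_indicator hm, lintegral_one, Measure.restrict_apply_univ]
  rw [h1, ← Complex.lintegral_comp_polarCoord_symm]
  have h2 : ∀ p ∈ polarCoord.target,
      ENNReal.ofReal p.1 • S'.indicator (fun _ => (1 : ENNReal)) (Complex.polarCoord.symm p) =
      (Ioo (0:ℝ) 1 ×ˢ Icc (0:ℝ) t.arg).indicator (fun p : ℝ × ℝ => ENNReal.ofReal p.1) p := by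
    rintro ⟨r, θ⟩ hp
    rw [polarCoord_target] at hp
    obtain ⟨hr, hθ1, hθ2⟩ := hp
    simp only [mem_Ioi] at hr
    simp only at hθ1 hθ2
    have key : Complex.polarCoord.symm (r, θ) ∈ S' ↔ (r, θ) ∈ (Ioo (0:ℝ) 1 ×ˢ Icc (0:ℝ) t.arg) := by
      rw [hS', mem_ofPred_eq, im_expr (r, θ) t t.arg ‖t‖ hteq, Complex.norm_polarCoord_symm,
        abs_of_pos hr]
      have him : (Complex.polarCoord.symm (r, θ)).im = r * Real.sin θ := by
        rw [Complex.polarCoord_symm_apply]
        simp [Complex.mul_im, -Complex.ofReal_cos, -Complex.ofReal_sin]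
      rw [him]
      simp only [mem_prod, mem_Ioo, mem_Icc]
      have hn : 0 < ‖t‖ := norm_pos_iff.2 ht0
      constructor
      · rintro ⟨a, b, c⟩
        have a' : 0 ≤ Real.sin θ := by
          by_contra hh
          push Not at hh
          exact absurd a (not_le.2 (mul_neg_of_pos_of_neg hr hh))
        have b' : 0 ≤ Real.sin (t.arg - θ) := by
          by_contra hh
          push Not at hh
          exact absurd b (not_le.2 (mul_neg_of_pos_of_neg (mul_pos hr hn) hh))
        have hθ0 : 0 ≤ θ := by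
          by_contra hh
          push Not at hh
          exact absurd a' (not_le.2 (Real.sin_neg_of_neg_of_neg_pi_lt hh hθ1))
        refine ⟨⟨hr, c⟩, hθ0, ?_⟩
        by_contra hh
        push Not at hh
        exact absurd b' (not_le.2 (Real.sin_neg_of_neg_of_neg_pi_lt (by linarith) (by linarith)))
      · rintro ⟨⟨-, c⟩, h3, h4⟩
        refine ⟨mul_nonneg hr.le (Real.sin_nonneg_of_nonneg_of_le_pi h3 hθ2.le), ?_, c⟩
        exact mul_nonneg (mul_nonneg hr.le hn.le)
          (Real.sin_nonneg_of_nonneg_of_le_pi (by linarith) (by linarith))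
    by_cases hh : (r, θ) ∈ (Ioo (0:ℝ) 1 ×ˢ Icc (0:ℝ) t.arg)
    · rw [indicator_of_mem (key.2 hh), indicator_of_mem hh]
      simp
    · rw [indicator_of_notMem (fun h => hh (key.1 h)), indicator_of_notMem hh]
      simp
  rw [setLIntegral_congr_fun polarCoord.open_target.measurableSet h2]
  rw [setLIntegral_indicator (measurableSet_Ioo.prod measurableSet_Icc)]
  have hsub : (Ioo (0:ℝ) 1 ×ˢ Icc (0:ℝ) t.arg) ∩ polarCoord.target =
      (Ioo (0:ℝ) 1 ×ˢ Icc (0:ℝ) t.arg) := by
    apply inter_eq_left.2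
    rintro ⟨r, θ⟩ ⟨h3, h4⟩
    rw [polarCoord_target]
    simp only [mem_Ioo, mem_Icc] at h3 h4
    refine ⟨h3.1, ?_, ?_⟩
    · simp only
      linarith [Real.pi_pos]
    · simp only
      linarith
  rw [hsub]
  exact re_lint _

private theorem cross_e (x y : ℂ) :
    cross (Complex.orthonormalBasisOneI.repr x) (Complex.orthonormalBasisOneI.repr y) =
      ((starRingEnd ℂ) x * y).im := by
  unfold cross
  simp [Complex.orthonormalBasisOneI_repr_apply, Complex.mul_im]
  ring

theorem sector {u w : Pl} (h : 0 < cross u w) :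
    volume ({v : Pl | 0 ≤ cross u v ∧ 0 ≤ cross v w} ∩ ball 0 1) =
      ENNReal.ofReal (InnerProductGeometry.angle u w / 2) := by
  set e : ℂ ≃ₗᵢ[ℝ] Pl := Complex.orthonormalBasisOneI.repr with he
  obtain ⟨a, rfl⟩ := e.surjective u
  obtain ⟨b, rfl⟩ := e.surjective w
  rw [he, cross_e] at h
  have ha : a ≠ 0 := by
    rintro rfl
    simp at h
  have hb : b ≠ 0 := by
    rintro rfl
    simp at h
  have hna : 0 < ‖a‖ := norm_pos_iff.2 ha
  have hang : InnerProductGeometry.angle (e a) (e b) = |(b / a).arg| := by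
    rw [InnerProductGeometry.angle_comm]
    have := LinearIsometry.angle_map e.toLinearIsometry b a
    simp only [LinearIsometryEquiv.coe_toLinearIsometry] at this
    rw [this, Complex.angle_eq_abs_arg hb ha]
  have him : ((starRingEnd ℂ) a * b).im = ‖a‖ ^ 2 * (b / a).im := by
    have h1 : (starRingEnd ℂ) a * b = ((‖a‖ ^ 2 : ℝ) : ℂ) * (b / a) := by
      rw [Complex.ofReal_pow, ← Complex.conj_mul']
      field_simp
    rw [h1, Complex.im_ofReal_mul]
  have hτ : 0 < (b / a).im := by
    rw [him] at h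
    by_contra hh
    push Not at hh
    exact absurd h (not_lt.2 (mul_nonpos_of_nonneg_of_nonpos (by positivity) hh))
  have hpos : 0 ≤ (b / a).arg := Complex.arg_nonneg_iff.2 hτ.le
  rw [hang, abs_of_nonneg hpos, ← sector_aux hτ]
  -- the rotation
  set c : ℂ := a / ‖a‖ with hc
  have hcn : ‖c‖ = 1 := by
    rw [hc, norm_div, Complex.norm_real, norm_norm, div_self hna.ne']
  have hcm : c ∈ Submonoid.unitSphere ℂ := mem_sphere_zero_iff_norm.2 hcn
  obtain ⟨q, hq⟩ : ∃ q : Circle, (q : ℂ) = c := ⟨⟨c, hcm⟩, rfl⟩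
  set R : ℂ ≃ₗᵢ[ℝ] Pl := (rotation q).trans e with hR
  have hRa : ∀ z, R z = e (c * z) := by
    intro z
    rw [hR, LinearIsometryEquiv.trans_apply, rotation_apply, hq]
  have hmp := R.measurePreserving
  rw [← hmp.measure_preimage_emb R.toHomeomorph.measurableEmbedding]
  congr 1
  ext z
  rw [mem_preimage]
  simp only [mem_inter_iff, mem_ofPred_eq, mem_ball_zero_iff]
  rw [LinearIsometryEquiv.norm_map, hRa, he, cross_e, cross_e]
  have e1 : ((starRingEnd ℂ) a * (c * z)).im = ‖a‖ * z.im := by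
    have h1 : (starRingEnd ℂ) a * (c * z) = (‖a‖ : ℂ) * z := by
      have h2 : (starRingEnd ℂ) a * a = (‖a‖ : ℂ) ^ 2 := Complex.conj_mul' a
      have h3 : (‖a‖ : ℂ) ≠ 0 := by exact_mod_cast hna.ne'
      rw [hc]
      field_simp
      rw [h2]
    rw [h1, Complex.im_ofReal_mul]
  have e2 : ((starRingEnd ℂ) (c * z) * b).im = ‖a‖ * ((starRingEnd ℂ) z * (b / a)).im := by
    have h1 : (starRingEnd ℂ) (c * z) * b = (‖a‖ : ℂ) * ((starRingEnd ℂ) z * (b / a)) := by
      have h2 : (starRingEnd ℂ) a * a = (‖a‖ : ℂ) ^ 2 := Complex.conj_mul' a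
      have h3 : (‖a‖ : ℂ) ≠ 0 := by exact_mod_cast hna.ne'
      rw [hc, map_mul, map_div₀, Complex.conj_ofReal]
      field_simp
      linear_combination (starRingEnd ℂ) z * h2
    rw [h1, Complex.im_ofReal_mul]
  rw [e1, e2, mul_nonneg_iff_of_pos_left hna, mul_nonneg_iff_of_pos_left hna, and_assoc]

end Pool.Agent.Work.MP_bd00dd_co
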