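import Pool.Agent.Work.MP_bd00dd_co.G.Ang
import Pool.Agent.Work.MP_bd00dd_co.G.Sector

/-!
Metric facts about a triangle Q with corners x, y, z.
-/

namespace Pool.Agent.Work.MP_bd00dd_co

open MeasureTheory Metric Set EuclideanGeometry

/-- Corners are not between other points of the set. -/
theorem not_wbtw_ext {Q : Set Pl} {x y z : Pl} (hx : x ∈ Q)
    (hy : y ∈ Q.extremePoints ℝ) (hz : z ∈ Q) (hxy : x ≠ y) (hyz : y ≠ z) : ¬ Wbtw ℝ x y z := by
  intro hw
  have h1 : y ∈ openSegment ℝ x z :=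
    mem_openSegment_of_ne_left_right (𝕜 := ℝ) hxy hyz.symm hw.mem_segment
  rw [mem_extremePoints] at hy
  exact hxy (hy.2 x hx z hz h1).1

/-- Different corners are not collinear (strict triangle inequality; the middle one of three
collinear points is not extreme). -/
theorem tineq {Q : Set Pl} (_h : Poly Q) {x y z : Pl} (hx : x ∈ Q.extremePoints ℝ)
    (hy : y ∈ Q.extremePoints ℝ) (hz : z ∈ Q.extremePoints ℝ) (hxy : x ≠ y) (hyz : y ≠ z)
    (_hxz : x ≠ z) : dist x z < dist x y + dist y z := by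
  refine lt_of_le_of_ne (dist_triangle x y z) fun he => ?_
  exact not_wbtw_ext hx.1 hy hz.1 hxy hyz (dist_add_dist_eq_iff.1 he.symm)

theorem not_col_ext {Q : Set Pl} {x y z : Pl} (hx : x ∈ Q.extremePoints ℝ)
    (hy : y ∈ Q.extremePoints ℝ) (hz : z ∈ Q.extremePoints ℝ) (hxy : x ≠ y) (hyz : y ≠ z)
    (hxz : x ≠ z) : ¬ Collinear ℝ ({x, y, z} : Set Pl) := by
  intro hc
  rcases hc.wbtw_or_wbtw_or_wbtw with h | h | h
  · exact not_wbtw_ext hx.1 hy hz.1 hxy hyz h
  · exact not_wbtw_ext hy.1 hz hx.1 hyz hxz.symm h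
  · exact not_wbtw_ext hz.1 hx hy.1 hxz.symm hxy h

/-- corner, cone_corner at y (the two other corners are x, z), sector, volume of the unit ball
is π (EuclideanSpace.volume_ball_fin_two). -/
theorem ang_angle {Q : Set Pl} (h : Poly Q) (h3 : (Q.extremePoints ℝ).ncard = 3) {x y z : Pl}
    (hx : x ∈ Q.extremePoints ℝ) (hy : y ∈ Q.extremePoints ℝ) (hz : z ∈ Q.extremePoints ℝ)
    (hxy : x ≠ y) (hyz : y ≠ z) (hxz : x ≠ z) : ang Q y * Real.pi = ∠ x y z := by
  obtain ⟨q, r, hq, hr, hqy, hry, hD, hall⟩ := corner h hy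
  have hE : ({x, y, z} : Set Pl) = Q.extremePoints ℝ := by
    apply eq_of_subset_of_ncard_le _ _ h.fin
    · intro w hw
      simp only [mem_insert_iff, mem_singleton_iff] at hw
      rcases hw with rfl | rfl | rfl
      · exact hx
      · exact hy
      · exact hz
    · rw [h3, ncard_eq_three.2 ⟨x, y, z, hxy, hxz, hyz, rfl⟩]
  have hqr : q ≠ r := by
    rintro rfl
    unfold cross at hD
    have : (q - y) 0 * (q - y) 1 - (q - y) 1 * (q - y) 0 = 0 := by ring
    linarith
  have hcone := cone_corner h hy.1 hq.1 hr.1 hD hall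
  have hv : ang Q y * Real.pi = InnerProductGeometry.angle (q - y) (r - y) := by
    unfold ang
    rw [hcone, sector hD, EuclideanSpace.volume_ball_fin_two]
    have h0 : 0 ≤ InnerProductGeometry.angle (q - y) (r - y) := InnerProductGeometry.angle_nonneg _ _
    have hpi := Real.pi_pos
    rw [ENNReal.toReal_ofReal (by linarith), ENNReal.ofReal_one, one_pow, one_mul,
      ENNReal.toReal_ofReal hpi.le]
    field_simp
  rw [hv]
  rw [← hE] at hq hr
  simp only [mem_insert_iff, mem_singleton_iff] at hq hr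
  unfold EuclideanGeometry.angle
  simp only [vsub_eq_sub]
  rcases hq with rfl | rfl | rfl
  · rcases hr with rfl | rfl | rfl
    · exact absurd rfl hqr
    · exact absurd rfl hry
    · rfl
  · exact absurd rfl hqy
  · rcases hr with rfl | rfl | rfl
    · exact InnerProductGeometry.angle_comm _ _
    · exact absurd rfl hry
    · exact absurd rfl hqr

/-- The larger angle is opposite to the longer side (EuclideanGeometry.angle_lt_iff_dist_lt). -/
theorem trilt {Q : Set Pl} (h : Poly Q) (h3 : (Q.extremePoints ℝ).ncard = 3) {x y z : Pl}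
    (hx : x ∈ Q.extremePoints ℝ) (hy : y ∈ Q.extremePoints ℝ) (hz : z ∈ Q.extremePoints ℝ)
    (hxy : x ≠ y) (hyz : y ≠ z) (hxz : x ≠ z) (hlt : ang Q x < ang Q y) :
    dist y z < dist x z := by
  have h1 := ang_angle h h3 hx hy hz hxy hyz hxz
  have h2 := ang_angle h h3 hy hx hz hxy.symm hxz hyz
  have hpi := Real.pi_pos
  have h4 : ∠ y x z < ∠ x y z := by
    rw [← h1, ← h2]
    exact mul_lt_mul_of_pos_right hlt hpi
  have h5 : ¬ Collinear ℝ ({z, y, x} : Set Pl) :=
    not_col_ext hz hy hx hyz.symm hxy.symm hxz.symm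
  have h6 := (angle_lt_iff_dist_lt h5).1 (by
    rw [EuclideanGeometry.angle_comm z x y, EuclideanGeometry.angle_comm z y x]
    exact h4)
  rw [dist_comm z y, dist_comm z x] at h6
  exact h6

/-- Law of sines (EuclideanGeometry.sin_angle_mul_dist_eq_sin_angle_mul_dist): dist y z : dist x z =
sin A : sin B with A = π θx <= 2π/21 < 0.3, so sin A < 0.3, and B = π/3 - A >= 5π/21 > 0.747, B < π/2,
sin B > 0.747 - 0.747^3/4 > 0.6 (Real.sin_gt_sub_cube and monotonicity), so 2 sin A < sin B. -/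
theorem tritwo {Q : Set Pl} (h : Poly Q) (h3 : (Q.extremePoints ℝ).ncard = 3) {x y z : Pl}
    (hx : x ∈ Q.extremePoints ℝ) (hy : y ∈ Q.extremePoints ℝ) (hz : z ∈ Q.extremePoints ℝ)
    (hxy : x ≠ y) (hyz : y ≠ z) (hxz : x ≠ z) (hz3 : ang Q z = 2 / 3) (hx2 : ang Q x ≤ 2 / 21) :
    2 * dist y z < dist x z := by
  have h1 := ang_angle h h3 hx hy hz hxy hyz hxz
  have h2 := ang_angle h h3 hy hx hz hxy.symm hxz hyz
  have h4 := ang_angle h h3 hx hz hy hxz hyz.symm hxy
  have hpi1 := Real.pi_gt_d4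
  have hpi2 := Real.pi_lt_d4
  obtain ⟨A, hA⟩ : ∃ A, A = ∠ z x y := ⟨_, rfl⟩
  obtain ⟨B, hB⟩ : ∃ B, B = ∠ x y z := ⟨_, rfl⟩
  have hA1 : A = ang Q x * Real.pi := by
    rw [hA, EuclideanGeometry.angle_comm, h2]
  have hA0 : 0 < A := by
    rw [hA1]
    exact mul_pos (ang_corner h hx).1 Real.pi_pos
  have hA2 : A < 0.3 := by
    rw [hA1]
    have : ang Q x * Real.pi ≤ 2 / 21 * Real.pi :=
      mul_le_mul_of_nonneg_right hx2 Real.pi_pos.le
    norm_num at *
    linarith
  have hsum := angle_add_angle_add_angle_eq_pi (p₁ := x) (p₂ := y) z hxy.symm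
  have hC : ∠ y z x = 2 / 3 * Real.pi := by
    rw [EuclideanGeometry.angle_comm, ← h4, hz3]
  have hAB : B = Real.pi / 3 - A := by
    rw [hA, hB]
    linarith
  have hB1 : 0.747 < B := by
    rw [hAB, hA1]
    have : ang Q x * Real.pi ≤ 2 / 21 * Real.pi :=
      mul_le_mul_of_nonneg_right hx2 Real.pi_pos.le
    norm_num at *
    linarith
  have hB2 : B ≤ Real.pi / 2 := by
    rw [hAB]
    linarith
  have hsB : Real.sin 0.747 ≤ Real.sin B :=
    Real.sin_le_sin_of_le_of_le_pi_div_two (by norm_num at *; linarith) hB2 hB1.le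
  have hs1 : 0.747 - 0.747 ^ 3 / 6 < Real.sin 0.747 := Real.sin_gt_sub_cube (by norm_num)
  have hsA : Real.sin A < 0.3 := lt_of_lt_of_le (Real.sin_lt hA0) hA2.le
  have hsB' : 0.6 < Real.sin B := by
    have : (0.6 : ℝ) < 0.747 - 0.747 ^ 3 / 6 := by norm_num
    linarith
  have h5 := EuclideanGeometry.law_sin x y z
  rw [← hA, ← hB, dist_comm z x] at h5
  have hd : 0 < dist x z := dist_pos.2 hxz
  have h6 : Real.sin B * (2 * dist y z) < Real.sin B * dist x z := by
    have h7 : 2 * Real.sin A < Real.sin B := by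
      norm_num at *
      linarith
    calc Real.sin B * (2 * dist y z) = 2 * (Real.sin B * dist y z) := by ring
      _ = 2 * Real.sin A * dist x z := by rw [h5]; ring
      _ < Real.sin B * dist x z := mul_lt_mul_of_pos_right h7 hd
  have h8 : 0 < Real.sin B := by
    norm_num at *
    linarith
  exact lt_of_mul_lt_mul_left h6 h8.le

end Pool.Agent.Work.MP_bd00dd_co
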