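import Pool.Agent.Work.MP_bd00dd_co.G.Ray
import Pool.Agent.Work.MP_bd00dd_co.G.Count
import Pool.Agent.Work.MP_bd00dd_co.G.AP
import Pool.Agent.Work.MP_bd00dd_co.G.TriMet
import Pool.Agent.Work.MP_bd00dd_co.G.IsoAng
import Pool.Agent.Work.MP_bd00dd_co.G.AngSum

/-!
From tilings to the structure Dat.
-/

namespace Pool.Agent.Work.MP_bd00dd_co

open MeasureTheory Metric Set

variable {ι : Type*} {P : Set Pl} {g : ι → Pl ≃ᵢ Pl}

private theorem mem_vs (h : Tiling P g) (i : ι) (v : Pl) :
    v ∈ (vs_fin h i).toFinset ↔ v ∈ g i '' P ∧ 3 ≤ (Thr P g v).ncard := by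
  simp

private theorem mem_ts (h : Tiling P g) (v : Pl) (i : ι) :
    i ∈ (thr_fin h v).toFinset ↔ v ∈ g i '' P := by
  simp [Thr]

private theorem card_ts (h : Tiling P g) (v : Pl) :
    (thr_fin h v).toFinset.card = (Thr P g v).ncard := by
  rw [Set.ncard_eq_toFinset_card _ (thr_fin h v)]

private theorem symm_mem (i : ι) (v : Pl) : (g i).symm v ∈ P ↔ v ∈ g i '' P := by
  constructor
  · intro hv
    exact ⟨(g i).symm v, hv, (g i).apply_symm_apply v⟩
  · rintro ⟨x, hx, rfl⟩
    simpa using hx

private theorem symm_ext (i : ι) (v : Pl) :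
    (g i).symm v ∈ P.extremePoints ℝ ↔ v ∈ (g i '' P).extremePoints ℝ := by
  rw [ext_im]
  constructor
  · intro hv
    exact ⟨(g i).symm v, hv, (g i).apply_symm_apply v⟩
  · rintro ⟨x, hx, rfl⟩
    simpa using hx

private theorem ext_of (i : ι) {s : Pl} (hs : s ∈ P.extremePoints ℝ) :
    g i s ∈ (g i '' P).extremePoints ℝ := by
  rw [ext_im]
  exact ⟨s, hs, rfl⟩

private theorem fr_of_vx (h : Tiling P g) {i : ι} {v : Pl} (hv : v ∈ g i '' P)
    (h3 : 3 ≤ (Thr P g v).ncard) : v ∈ frontier (g i '' P) := by
  have h1 : 1 < (Thr P g v).ncard := by omega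
  obtain ⟨a, ha, b, hb, hab⟩ := (Set.one_lt_ncard (thr_fin h v)).1 h1
  by_cases hai : a = i
  · subst hai
    exact inter_front h hab ha hb
  · exact inter_front h (Ne.symm hai) hv ha

private theorem ang_at (h : Tiling P g) {i : ι} {v : Pl} (hv : v ∈ g i '' P)
    (h3 : 3 ≤ (Thr P g v).ncard) :
    A (poly h).fin.toFinset (ang P) g i v = ang (g i '' P) v := by
  unfold A
  split_ifs with hs
  · have := ang_im (g i) P ((g i).symm v)
    rw [IsometryEquiv.apply_symm_apply] at this
    exact this.symm
  · rcases front_cases (poly_t h i) (fr_of_vx h hv h3) with hc | ⟨p, q, hpq, hx⟩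
    · exfalso
      apply hs
      rw [Set.Finite.mem_toFinset]
      exact (symm_ext i v).2 hc
    · exact (ang_side (poly_t h i) hpq hx).symm

/-- A tiling gives the structure Dat. -/
theorem dat_of (h : Tiling P g) (n : ℕ)
    (hn : ∀ i, {j | j ≠ i ∧ (g i '' P ∩ g j '' P).Nonempty}.ncard = n) :
    Dat n (poly h).fin.toFinset (ang P) (IsSide P) g (fun i => (vs_fin h i).toFinset)
      (fun v => (thr_fin h v).toFinset) where
  three := by
    rw [← Set.ncard_eq_toFinset_card _ (poly h).fin]
    exact three_ext (poly h)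
  pos := fun s hs => (ang_corner (poly h) (by simpa using hs)).1
  lt1 := fun s hs => (ang_corner (poly h) (by simpa using hs)).2
  sum := by
    rw [ang_sum (poly h), ← Set.ncard_eq_toFinset_card _ (poly h).fin]
  mem := by
    intro i v
    rw [mem_vs h, mem_ts h, card_ts h]
  cmem := by
    intro i s hs
    rw [Set.Finite.mem_toFinset] at hs
    rw [mem_vs h]
    refine ⟨⟨s, hs.1, rfl⟩, vx_corner h (i := i) (ext_of i hs)⟩
  tot := by
    intro v hv
    rw [card_ts h] at hv
    rw [← total h v]
    apply Finset.sum_congr rfl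
    intro i hi
    rw [mem_ts h] at hi
    exact ang_at h hi hv
  cnt := by
    intro i
    have := count h i
    rw [hn i] at this
    rw [← this]
    apply Finset.sum_congr rfl
    intro v _
    exact card_ts h v
  ap := by
    intro F Q hQ hF
    apply ap h n _ F Q hQ
    · intro v hv
      apply hF v
      rw [card_ts h]
      exact hv
    · intro i
      have h1 := count h i
      rw [hn i] at h1
      have h2 : (vs_fin h i).toFinset.card * 3 ≤
          ∑ v ∈ (vs_fin h i).toFinset, (Thr P g v).ncard := by
        rw [← smul_eq_mul]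
        apply Finset.card_nsmul_le_sum
        intro v hv
        exact ((mem_vs h i v).1 hv).2
      omega
  sd := by
    intro s t hst
    simp only [Set.Finite.mem_toFinset]
    exact ⟨hst.1, hst.2.1, hst.2.2.1⟩
  sdsymm := by
    intro s t hst
    exact ⟨hst.2.1, hst.1, hst.2.2.1.symm, by rw [segment_symm]; exact hst.2.2.2⟩
  two := by
    intro s hs
    rw [Set.Finite.mem_toFinset] at hs
    obtain ⟨q, r, hqr, hq, hr, _, hall⟩ := two_sides (poly h) hs
    exact ⟨q, r, hqr, hq, hr, hall⟩
  tineq := by
    intro x hx y hy z hz hxy hyz hxz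
    simp only [Set.Finite.mem_toFinset] at hx hy hz
    exact tineq (poly h) hx hy hz hxy hyz hxz
  seg := by
    intro j s t hs ht x hx
    simp only [Set.Finite.mem_toFinset] at hs ht
    rw [mem_ts h]
    exact (conv_im (g j) h.conv).segment_subset ⟨s, hs.1, rfl⟩ ⟨t, ht.1, rfl⟩ hx
  share := by
    intro i j hij x hx y hy z hz hx' hy' hz' hxy hyz hxz
    rw [mem_vs h] at hx hy hz hx' hy' hz'
    exact share2 h hij hx.1 hy.1 hz.1 hx'.1 hy'.1 hz'.1 hx.2 hy.2 hz.2 hxy hyz hxz
  adj := by
    intro i j s t hij hs ht hst hjs hjt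
    simp only [Set.Finite.mem_toFinset] at hs ht
    rw [mem_ts h] at hjs hjt
    rw [← side_im (g i)]
    refine ⟨ext_of i hs, ext_of i ht, fun he => hst ((g i).injective he), ?_⟩
    intro x hx
    apply inter_front h hij
    · exact (conv_im (g i) h.conv).segment_subset ⟨s, hs.1, rfl⟩ ⟨t, ht.1, rfl⟩ hx
    · exact (conv_im (g j) h.conv).segment_subset hjs hjt hx
  across := by
    intro i s t hst hw
    have hs' := (side_im (g i) P s t).2 hst
    obtain ⟨j, hji, hj, hu⟩ := edge h hs' (left_mem_segment ℝ _ _) (right_mem_segment ℝ _ _)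
      hs'.2.2.1 (vx_corner h (i := i) hs'.1) (vx_corner h (i := i) hs'.2.1) (by
        intro x hx
        by_contra hcon
        push Not at hcon
        apply hw x _ hx
        rw [mem_vs h]
        refine ⟨(conv_im (g i) h.conv).segment_subset hs'.1.1 hs'.2.1.1
          (openSegment_subset_segment ℝ _ _ hx), hcon⟩)
    refine ⟨j, hji, ?_, ?_, ?_⟩
    · rw [mem_ts h]
      have : g i s ∈ g i '' P ∩ g j '' P := by
        rw [hj]
        exact left_mem_segment ℝ _ _
      exact this.2
    · rw [mem_ts h]
      have : g i t ∈ g i '' P ∩ g j '' P := by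
        rw [hj]
        exact right_mem_segment ℝ _ _
      exact this.2
    · intro j' hj' h1 h2
      rw [mem_ts h] at h1 h2
      exact hu j' hj' h1 h2
  strt := by
    intro i v hv hs
    rw [mem_vs h] at hv
    rcases front_cases (poly_t h i) (fr_of_vx h hv.1 hv.2) with hc | ⟨p, q, hpq, hx⟩
    · exfalso
      apply hs
      rw [Set.Finite.mem_toFinset]
      exact (symm_ext i v).2 hc
    · refine ⟨(g i).symm p, (g i).symm q, ?_, ?_⟩
      · rw [← side_im (g i)]
        simpa using hpq
      · simpa using hx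
  openc := by
    intro i s t s' hst hs' hmem
    rw [Set.Finite.mem_toFinset] at hs'
    rw [← oseg_im] at hmem
    obtain ⟨z, hz, hze⟩ := hmem
    have hz' : z = s' := (g i).injective hze
    subst hz'
    rcases ext_side (poly h) hst (openSegment_subset_segment ℝ _ _ hz) hs' with he | he
    · subst he
      exact hst.2.2.1 (left_mem_openSegment_iff.1 hz)
    · subst he
      exact hst.2.2.1 (right_mem_openSegment_iff.1 hz)
  same := by
    intro i s t s' t' w hst hst' hw hw'
    have h1 := (side_im (g i) P s t).2 hst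
    have h2 := (side_im (g i) P s' t').2 hst'
    rcases side_unique (poly_t h i) h1 h2 hw (openSegment_subset_segment ℝ _ _ hw') with he | he
    · exact Or.inl ⟨(g i).injective he.1, (g i).injective he.2⟩
    · exact Or.inr ⟨(g i).injective he.1, (g i).injective he.2⟩
  line := by
    intro i j x y s t hij hst hx hxi hjx hyi hjy
    rw [mem_vs h] at hxi hyi
    rw [mem_ts h] at hjx hjy
    have h1 := (side_im (g i) P s t).2 hst
    by_cases hxy : x = y
    · subst hxy
      exact openSegment_subset_segment ℝ _ _ hx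
    · obtain ⟨p, q, hpq, hxp, hyp⟩ := seg_front (poly_t h i) hxy (by
        intro z hz
        apply inter_front h hij
        · exact (conv_im (g i) h.conv).segment_subset hxi.1 hyi.1 hz
        · exact (conv_im (g j) h.conv).segment_subset hjx hjy hz)
      rcases side_unique (poly_t h i) h1 hpq hx hxp with he | he
      · rw [he.1, he.2]
        exact hyp
      · rw [he.1, he.2, segment_symm]
        exact hyp
  ray := by
    intro i s t hst hc
    apply ray_ex h i s t hst
    intro j hj
    have := hc j (by rw [Set.Finite.mem_toFinset]; exact hj)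
    rwa [Set.Finite.mem_toFinset] at this
  rayu := by
    intro i s t j s' t' j' s'' t'' h1 h2
    exact ray_un h i s t j s' t' j' s'' t'' h1 h2
  trilt := by
    intro h3 x hx y hy z hz hxy hyz hxz hlt
    simp only [Set.Finite.mem_toFinset] at hx hy hz
    rw [← Set.ncard_eq_toFinset_card _ (poly h).fin] at h3
    exact trilt (poly h) h3 hx hy hz hxy hyz hxz hlt
  tritwo := by
    intro h3 x hx y hy z hz hxy hyz hxz hz3 hx2
    simp only [Set.Finite.mem_toFinset] at hx hy hz
    rw [← Set.ncard_eq_toFinset_card _ (poly h).fin] at h3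
    exact tritwo (poly h) h3 hx hy hz hxy hyz hxz hz3 hx2

end Pool.Agent.Work.MP_bd00dd_co
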