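import Pool.Agent.Work.MP_bd00dd_co.G.Corner

/-!
Angles of a convex polygon (ang Q x = 2 vol(cone ∩ ball)/vol(ball)).
-/

namespace Pool.Agent.Work.MP_bd00dd_co

open MeasureTheory Metric Set

/-- Basic: the cone of a convex set at one of its points is convex. -/
theorem cone_convex {Q : Set Pl} (h : Convex ℝ Q) {x : Pl} (hx : x ∈ Q) :
    Convex ℝ (cone Q x) := by
  rintro u ⟨r, hr, hu⟩ v ⟨s, hs, hv⟩ a b ha hb hab
  have hm : 0 < min r s := lt_min hr hs
  refine ⟨min r s, hm, ?_⟩
  have h1 : min r s * a / r ≤ a := by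
    rw [div_le_iff₀ hr]
    nlinarith [min_le_left r s]
  have h2 : min r s * b / s ≤ b := by
    rw [div_le_iff₀ hs]
    nlinarith [min_le_right r s]
  have h3 : x + min r s • (a • u + b • v) = (1 - min r s * a / r - min r s * b / s) • x +
      (min r s * a / r) • (x + r • u) + (min r s * b / s) • (x + s • v) := by
    apply face_ext <;>
    · simp only [PiLp.add_apply, PiLp.smul_apply, smul_eq_mul]
      field_simp
      ring
  rw [h3]
  exact corner_conv3 h hx hu hv (by linarith) (by positivity) (by positivity) (by ring)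

theorem cone_null {Q : Set Pl} (h : Convex ℝ Q) {x : Pl} (hx : x ∈ Q) :
    NullMeasurableSet (cone Q x) volume :=
  (cone_convex h hx).nullMeasurableSet volume

/-- A line through 0 is a null set. -/
theorem line_null {w : Pl} (hw : w ≠ 0) : volume {u : Pl | cross w u = 0} = 0 := by
  have h1 : {u : Pl | cross w u = 0} = ((LinearMap.ker (face_cr w : Pl →ₗ[ℝ] ℝ) :
      Submodule ℝ Pl) : Set Pl) := by
    ext u
    simp only [mem_ofPred_eq, SetLike.mem_coe, LinearMap.mem_ker]
    rfl
  rw [h1]
  apply Measure.addHaar_submodule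
  intro h2
  apply face_cr_ne hw
  ext u
  have h3 : u ∈ LinearMap.ker (face_cr w : Pl →ₗ[ℝ] ℝ) := by rw [h2]; trivial
  exact h3

/-- The open half planes have half of the volume of the unit ball. -/
theorem ang_half {w : Pl} (hw : w ≠ 0) :
    2 * (volume ({u : Pl | 0 < cross w u} ∩ ball 0 1)).toReal =
      (volume (ball (0 : Pl) 1)).toReal := by
  have hBfin : volume (ball (0 : Pl) 1) ≠ ⊤ := measure_ball_lt_top.ne
  have hop : IsOpen {u : Pl | 0 < cross w u} :=
    isOpen_lt continuous_const (face_cr w).continuous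
  have hom : IsOpen {u : Pl | cross w u < 0} :=
    isOpen_lt (face_cr w).continuous continuous_const
  have hneg : -({u : Pl | 0 < cross w u} ∩ ball 0 1) = {u : Pl | cross w u < 0} ∩ ball 0 1 := by
    ext u
    simp only [mem_neg, mem_inter_iff, mem_ofPred_eq, mem_ball_zero_iff, norm_neg]
    have : cross w (-u) = - cross w u := by
      simp only [cross, PiLp.neg_apply]; ring
    rw [this, neg_pos]
  have h1 : volume ({u : Pl | cross w u < 0} ∩ ball 0 1) =
      volume ({u : Pl | 0 < cross w u} ∩ ball 0 1) := by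
    rw [← hneg, Measure.measure_neg]
  have hdisj : Disjoint ({u : Pl | 0 < cross w u} ∩ ball 0 1)
      ({u : Pl | cross w u < 0} ∩ ball 0 1) := by
    rw [Set.disjoint_left]
    rintro u ⟨h2, _⟩ ⟨h3, _⟩
    have h2' : 0 < cross w u := h2
    have h3' : cross w u < 0 := h3
    linarith
  have h2 := measure_union (μ := volume) hdisj (hom.inter isOpen_ball).measurableSet
  rw [h1] at h2
  have h3 : volume (ball (0 : Pl) 1) ≤ volume (({u : Pl | 0 < cross w u} ∩ ball 0 1) ∪
      ({u : Pl | cross w u < 0} ∩ ball 0 1)) := by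
    have h4 : ball (0 : Pl) 1 ⊆ (({u : Pl | 0 < cross w u} ∩ ball 0 1) ∪
      ({u : Pl | cross w u < 0} ∩ ball 0 1)) ∪ {u : Pl | cross w u = 0} := by
      intro u hu
      rcases lt_trichotomy (cross w u) 0 with h5 | h5 | h5
      · exact Or.inl (Or.inr ⟨h5, hu⟩)
      · exact Or.inr h5
      · exact Or.inl (Or.inl ⟨h5, hu⟩)
    calc volume (ball (0 : Pl) 1) ≤ _ := measure_mono h4
      _ ≤ _ := measure_union_le _ _
      _ = _ := by rw [line_null hw, add_zero]
  have h4 : volume (({u : Pl | 0 < cross w u} ∩ ball 0 1) ∪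
      ({u : Pl | cross w u < 0} ∩ ball 0 1)) ≤ volume (ball (0 : Pl) 1) :=
    measure_mono (union_subset inter_subset_right inter_subset_right)
  have h5 := le_antisymm h3 h4
  rw [h2] at h5
  have hfin : volume ({u : Pl | 0 < cross w u} ∩ ball 0 1) ≠ ⊤ :=
    ne_top_of_le_ne_top hBfin (measure_mono inter_subset_right)
  rw [h5, ENNReal.toReal_add hfin hfin]
  ring

/-- The closed half planes have half of the volume of the unit ball. -/
theorem ang_half' {w : Pl} (hw : w ≠ 0) :
    2 * (volume ({u : Pl | 0 ≤ cross w u} ∩ ball 0 1)).toReal =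
      (volume (ball (0 : Pl) 1)).toReal := by
  rw [← ang_half hw]
  congr 2
  apply le_antisymm
  · have h4 : {u : Pl | 0 ≤ cross w u} ∩ ball 0 1 ⊆
        ({u : Pl | 0 < cross w u} ∩ ball 0 1) ∪ {u : Pl | cross w u = 0} := by
      rintro u ⟨hu, hu'⟩
      rcases (show 0 ≤ cross w u from hu).lt_or_eq with h5 | h5
      · exact Or.inl ⟨h5, hu'⟩
      · exact Or.inr h5.symm
    calc _ ≤ _ := measure_mono h4
      _ ≤ _ := measure_union_le _ _
      _ = _ := by rw [line_null hw, add_zero]
  · exact measure_mono (inter_subset_inter_left _ fun u (hu : 0 < cross w u) => hu.le)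

theorem ang_ball_pos : 0 < (volume (ball (0 : Pl) 1)).toReal :=
  ENNReal.toReal_pos (measure_ball_pos volume 0 one_pos).ne' measure_ball_lt_top.ne

/-- An open set which is invariant under positive multiples meets the unit ball in a set of
positive volume. -/
theorem ang_open_pos {O : Set Pl} (hO : IsOpen O) {u : Pl}
    (hs : ∀ c : ℝ, 0 < c → c • u ∈ O) : 0 < (volume (O ∩ ball 0 1)).toReal := by
  apply ENNReal.toReal_pos
  · apply ((hO.inter isOpen_ball).measure_pos volume _).ne'
    have hc : 0 < 1 / (‖u‖ + 1) := by positivity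
    refine ⟨(1 / (‖u‖ + 1)) • u, hs _ hc, ?_⟩
    rw [mem_ball_zero_iff, norm_smul, Real.norm_of_nonneg hc.le, one_div, inv_mul_lt_iff₀
      (by positivity)]
    linarith
  · exact ne_top_of_le_ne_top measure_ball_lt_top.ne (measure_mono inter_subset_right)

/-- Inside a side the angle is 1 (i.e. π). Proof: let f be the functional of seg_front for the side
(face of f = the side). Then {f < 0} ⊆ cone Q x ⊆ {f <= 0}: for the first inclusion take z in the
interior of Q, f z < f x, and write u with f u < 0 as s (z - x) + t (q - p), s > 0; x + small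
multiples of z - x, q - p, p - q are in Q. {f = 0} is null and u -> -u shows that {f < 0} ∩ ball has
half of the volume of the ball. -/
theorem ang_side {Q : Set Pl} (h : Poly Q) {p q x : Pl} (hs : IsSide Q p q)
    (hx : x ∈ openSegment ℝ p q) : ang Q x = 1 := by
  obtain ⟨hpQ, hqQ⟩ := face_side_mem hs
  obtain ⟨f, hf, hmax, hfe⟩ := face_fun h hs.2.2.2
  obtain ⟨w, hw⟩ := face_repr f
  have hw0 := face_repr_ne hf hw
  have hfx : f x = f p := face_seg_eq (openSegment_subset_segment ℝ p q hx) rfl hfe.symm
  have hqp : q - p ≠ 0 := sub_ne_zero.mpr hs.2.2.1.symm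
  have hfqp : f (q - p) = 0 := by rw [map_sub, hfe, sub_self]
  -- the functional `-f = cross (-w)`
  have hnw : -w ≠ 0 := neg_ne_zero.mpr hw0
  have hcn : ∀ u, cross (-w) u = - f u := by
    intro u
    rw [hw u]
    simp only [cross, PiLp.neg_apply]; ring
  have hsub1 : cone Q x ⊆ {u : Pl | 0 ≤ cross (-w) u} := by
    rintro u ⟨r, hr, hu⟩
    have h1 := hmax _ hu
    rw [map_add, map_smul, smul_eq_mul, hfx] at h1
    show 0 ≤ cross (-w) u
    rw [hcn]
    have h2 : r * f u ≤ 0 := by linarith
    have h3 : f u ≤ 0 := by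
      by_contra hc
      push Not at hc
      nlinarith [mul_pos hr hc]
    linarith
  have hsub2 : {u : Pl | 0 < cross (-w) u} ⊆ cone Q x := by
    intro u hu
    have hu' : f u < 0 := by
      have h1 : 0 < cross (-w) u := hu
      rw [hcn] at h1
      linarith
    obtain ⟨z, hz⟩ := h.int
    have hzQ : z ∈ Q := interior_subset hz
    have hfz : f z < f p := by
      rcases (hmax z hzQ).lt_or_eq with h1 | h1
      · exact h1
      · exact absurd hz (front_of h hf hzQ (fun y hy => by rw [h1]; exact hmax y hy)).2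
    have hfzx : f (z - x) < 0 := by rw [map_sub, hfx]; linarith
    obtain ⟨t, ht⟩ := face_ker hf hqp hfqp
      (show f (u - (f u / f (z - x)) • (z - x)) = 0 by
        rw [map_sub, map_smul, smul_eq_mul, div_mul_cancel₀ _ hfzx.ne, sub_self])
    set s := f u / f (z - x) with hs'
    have hs0 : 0 < s := div_pos_of_neg_of_neg hu' hfzx
    have hu2 : u = s • (z - x) + t • (q - p) := by rw [← ht]; abel
    obtain ⟨a, b, ha, hb, hab, hx'⟩ := hx
    set m := min a b with hm
    have hm0 : 0 < m := lt_min ha hb
    have hma : m ≤ a := min_le_left a b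
    have hmb : m ≤ b := min_le_right a b
    have hK : 0 < 2 * (s + |t| + 1) := by positivity
    have hρ : 0 < m / (2 * (s + |t| + 1)) := div_pos hm0 hK
    set ρ := m / (2 * (s + |t| + 1)) with hρ'
    have hρK : ρ * (2 * (s + |t| + 1)) = m := by rw [hρ', div_mul_cancel₀ _ hK.ne']
    have h1 : ρ * s ≤ m / 2 := by nlinarith [abs_nonneg t]
    have h2 : ρ * |t| ≤ m / 2 := by nlinarith [abs_nonneg t]
    have h3 : |ρ * t| ≤ m / 2 := by rw [abs_mul, abs_of_pos hρ]; exact h2
    rw [abs_le] at h3
    have h4 : ρ * s ≤ 1 / 2 := by linarith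
    refine ⟨ρ, hρ, ?_⟩
    have h5 : x + ρ • u = (ρ * s) • z + ((1 - ρ * s) * a - ρ * t) • p +
        ((1 - ρ * s) * b + ρ * t) • q := by
      rw [hu2, ← hx']
      apply face_ext <;>
      · simp only [PiLp.add_apply, PiLp.smul_apply, PiLp.sub_apply, smul_eq_mul]
        ring
    rw [h5]
    have h6 : 0 ≤ ρ * s := by positivity
    exact corner_conv3 h.conv hzQ hpQ hqQ h6 (by nlinarith) (by nlinarith) (by
      have : b = 1 - a := by linarith
      rw [this]; ring)
  have hB := ang_ball_pos
  have e1 := ang_half hnw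
  have e2 := ang_half' hnw
  have hfin : ∀ s : Set Pl, volume (s ∩ ball 0 1) ≠ ⊤ := fun s =>
    ne_top_of_le_ne_top measure_ball_lt_top.ne (measure_mono inter_subset_right)
  have i1 : (volume ({u : Pl | 0 < cross (-w) u} ∩ ball 0 1)).toReal ≤
      (volume (cone Q x ∩ ball 0 1)).toReal :=
    ENNReal.toReal_mono (hfin _) (measure_mono (inter_subset_inter_left _ hsub2))
  have i2 : (volume (cone Q x ∩ ball 0 1)).toReal ≤
      (volume ({u : Pl | 0 ≤ cross (-w) u} ∩ ball 0 1)).toReal :=
    ENNReal.toReal_mono (hfin _) (measure_mono (inter_subset_inter_left _ hsub1))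
  unfold ang
  rw [div_eq_one_iff_eq hB.ne']
  linarith

/-- At a corner the angle is in (0, 1). Proof: cone_corner; the cone contains a small ball around a
positive multiple of (q-p) + (r-p), and it is contained in the half plane 0 <= cross (q-p) u, which
has half of the volume, and misses a small ball in this half plane around a multiple of
(r-p) - t (q-p) for a suitable t > 0. -/
theorem ang_corner {Q : Set Pl} (h : Poly Q) {p : Pl} (hp : p ∈ Q.extremePoints ℝ) :
    0 < ang Q p ∧ ang Q p < 1 := by
  obtain ⟨q, r, hq, hr, hqp, hrp, hD, hx⟩ := corner h hp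
  have hcone := cone_corner h (extremePoints_subset hp) (extremePoints_subset hq)
    (extremePoints_subset hr) hD hx
  have hB := ang_ball_pos
  have hqp0 : q - p ≠ 0 := sub_ne_zero.mpr hqp
  have hfin : ∀ s : Set Pl, volume (s ∩ ball 0 1) ≠ ⊤ := fun s =>
    ne_top_of_le_ne_top measure_ball_lt_top.ne (measure_mono inter_subset_right)
  set a := q - p with ha
  set b := r - p with hb
  have hca : Continuous (fun u : Pl => cross a u) := (face_cr a).continuous
  have hcb : Continuous (fun u : Pl => cross u b) := by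
    have : (fun u : Pl => cross u b) = fun u => - face_cr b u := by
      funext u
      rw [face_cr_apply, corner_cross_anti]
    rw [this]
    exact (face_cr b).continuous.neg
  -- lower bound
  have hO1 : IsOpen {u : Pl | 0 < cross a u ∧ 0 < cross u b} :=
    (isOpen_lt continuous_const hca).inter (isOpen_lt continuous_const hcb)
  have hO2 : IsOpen {u : Pl | 0 < cross a u ∧ cross u b < 0} :=
    (isOpen_lt continuous_const hca).inter (isOpen_lt hcb continuous_const)
  have hm1 : ∀ c : ℝ, 0 < c → c • (a + b) ∈ {u : Pl | 0 < cross a u ∧ 0 < cross u b} := by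
    intro c hc
    have e1 : cross a (c • (a + b)) = c * cross a b := by
      simp only [cross, PiLp.smul_apply, PiLp.add_apply, smul_eq_mul]; ring
    have e2 : cross (c • (a + b)) b = c * cross a b := by
      simp only [cross, PiLp.smul_apply, PiLp.add_apply, smul_eq_mul]; ring
    constructor
    · rw [e1]; positivity
    · rw [e2]; positivity
  have hm2 : ∀ c : ℝ, 0 < c → c • (b - a) ∈ {u : Pl | 0 < cross a u ∧ cross u b < 0} := by
    intro c hc
    have e1 : cross a (c • (b - a)) = c * cross a b := by
      simp only [cross, PiLp.smul_apply, PiLp.sub_apply, smul_eq_mul]; ring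
    have e2 : cross (c • (b - a)) b = - (c * cross a b) := by
      simp only [cross, PiLp.smul_apply, PiLp.sub_apply, smul_eq_mul]; ring
    constructor
    · rw [e1]; positivity
    · rw [e2]
      have : 0 < c * cross a b := by positivity
      linarith
  have p1 := ang_open_pos hO1 hm1
  have p2 := ang_open_pos hO2 hm2
  have i1 : (volume ({u : Pl | 0 < cross a u ∧ 0 < cross u b} ∩ ball 0 1)).toReal ≤
      (volume (cone Q p ∩ ball 0 1)).toReal := by
    refine ENNReal.toReal_mono (hfin _) (measure_mono (inter_subset_inter_left _ ?_))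
    rw [hcone]
    exact fun u hu => ⟨hu.1.le, hu.2.le⟩
  have hdisj : Disjoint (cone Q p ∩ ball 0 1)
      ({u : Pl | 0 < cross a u ∧ cross u b < 0} ∩ ball 0 1) := by
    rw [hcone, Set.disjoint_left]
    rintro u ⟨h2, _⟩ ⟨h3, _⟩
    exact absurd h3.2 (not_lt.mpr h2.2)
  have i2 := measure_union (μ := volume) hdisj (hO2.inter isOpen_ball).measurableSet
  have i3 : volume ((cone Q p ∩ ball 0 1) ∪
      ({u : Pl | 0 < cross a u ∧ cross u b < 0} ∩ ball 0 1)) ≤
      volume ({u : Pl | 0 ≤ cross a u} ∩ ball 0 1) := by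
    apply measure_mono
    rw [hcone]
    rintro u (⟨h2, h3⟩ | ⟨h2, h3⟩)
    · exact ⟨h2.1, h3⟩
    · exact ⟨h2.1.le, h3⟩
  rw [i2] at i3
  have i4 := ENNReal.toReal_mono (hfin _) i3
  rw [ENNReal.toReal_add (hfin _) (hfin _)] at i4
  have i5 := ang_half' hqp0
  unfold ang
  constructor
  · apply div_pos _ hB
    linarith
  · rw [div_lt_one hB]
    linarith

end Pool.Agent.Work.MP_bd00dd_co
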