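import Pool.Agent.Work.MP_bd00dd_co.G.Face

/-!
Corners of a convex polygon.
-/

namespace Pool.Agent.Work.MP_bd00dd_co

open MeasureTheory Metric Set

/-! ### Auxiliary facts (also used in Ang, AngSum) -/

theorem corner_cross_sub (w x y : Pl) : cross w (x - y) = cross w x - cross w y := by
  simp only [cross, PiLp.sub_apply]; ring

theorem corner_cross_smul (w x : Pl) (c : ℝ) : cross w (c • x) = c * cross w x := by
  simp only [cross, PiLp.smul_apply, smul_eq_mul]; ring

theorem corner_cross_anti (w x : Pl) : cross w x = - cross x w := by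
  simp only [cross]; ring

/-- Coordinates with respect to two vectors. -/
theorem corner_coord {a b : Pl} (h : cross a b ≠ 0) (u : Pl) :
    u = (cross u b / cross a b) • a + (cross a u / cross a b) • b := by
  apply face_ext
  · simp only [PiLp.add_apply, PiLp.smul_apply, smul_eq_mul]
    rw [div_mul_eq_mul_div, div_mul_eq_mul_div, ← add_div, eq_div_iff h]
    simp only [cross]
    ring
  · simp only [PiLp.add_apply, PiLp.smul_apply, smul_eq_mul]
    rw [div_mul_eq_mul_div, div_mul_eq_mul_div, ← add_div, eq_div_iff h]
    simp only [cross]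
    ring

/-- A functional bounded below on the corners is bounded below on the polygon. -/
theorem corner_hull_le {Q : Set Pl} (h : Poly Q) (f : Pl →L[ℝ] ℝ) (c : ℝ)
    (hE : ∀ x ∈ Q.extremePoints ℝ, c ≤ f x) : ∀ x ∈ Q, c ≤ f x := by
  have hconv : Convex ℝ {x : Pl | c ≤ f x} := by
    intro a ha b hb s t hs ht hst
    show c ≤ f (s • a + t • b)
    rw [map_add, map_smul, map_smul, smul_eq_mul, smul_eq_mul]
    have ha' : c ≤ f a := ha
    have hb' : c ≤ f b := hb
    have : c = s * c + t * c := by rw [← add_mul, hst, one_mul]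
    nlinarith [mul_le_mul_of_nonneg_left ha' hs, mul_le_mul_of_nonneg_left hb' ht]
  have h1 : convexHull ℝ (Q.extremePoints ℝ) ⊆ {x : Pl | c ≤ f x} := convexHull_min hE hconv
  intro x hx
  rw [← hull h] at hx
  exact h1 hx

/-- A nonzero functional is not constant on a polygon. -/
theorem corner_not_const {Q : Set Pl} (h : Poly Q) {f : Pl →L[ℝ] ℝ} (hf : f ≠ 0) (c : ℝ)
    (hc : ∀ x ∈ Q, f x = c) : False := by
  obtain ⟨z, hz⟩ := h.int
  have hzQ : z ∈ Q := interior_subset hz
  exact (front_of h hf hzQ (fun y hy => by rw [hc y hy, hc z hzQ])).2 hz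

theorem corner_conv3 {Q : Set Pl} (h : Convex ℝ Q) {a b c : Pl} (ha : a ∈ Q) (hb : b ∈ Q)
    (hc : c ∈ Q) {x y z : ℝ} (hx : 0 ≤ x) (hy : 0 ≤ y) (hz : 0 ≤ z) (hs : x + y + z = 1) :
    x • a + y • b + z • c ∈ Q := by
  have := h.sum_mem (t := Finset.univ) (w := ![x, y, z]) (z := ![a, b, c])
    (by intro i _; fin_cases i <;> simpa) (by simp [Fin.sum_univ_three, hs])
    (by intro i _; fin_cases i <;> simpa)
  simpa [Fin.sum_univ_three] using this

/-- The two extreme directions at a corner p. Proof. E = extreme points, finite, card >= 3. p is not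
in convexHull (E without p) (p is extreme in Q = convexHull E: otherwise p is a convex combination
of other points of E; use extremality, e.g. mem_extremePoints_iff_convex_diff or
Finset induction), so there is a vector w with 0 < w 0 * (x - p) 0 + w 1 * (x - p) 1 for all x in
E, x ≠ p (geometric_hahn_banach_point_closed / compact). For x in E, x ≠ p let the slope of x be
cross w (x - p) / (w 0 * (x - p) 0 + w 1 * (x - p) 1) and let r, q have the largest and the smallest
slope. slope x <= slope r means 0 <= cross (x - p) (r - p), etc. If cross (q - p) (r - p) = 0 then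
all slopes are equal and E is collinear, against h.int. The inequalities extend from E to the hull
(linear in x). -/
theorem corner {Q : Set Pl} (h : Poly Q) {p : Pl} (hp : p ∈ Q.extremePoints ℝ) :
    ∃ q r, q ∈ Q.extremePoints ℝ ∧ r ∈ Q.extremePoints ℝ ∧ q ≠ p ∧ r ≠ p ∧
      0 < cross (q - p) (r - p) ∧
      ∀ x ∈ Q, 0 ≤ cross (q - p) (x - p) ∧ 0 ≤ cross (x - p) (r - p) := by
  classical
  have hpn : p ∉ convexHull ℝ (Q.extremePoints ℝ \ {p}) := by
    intro h1
    have h2 := (h.conv.mem_extremePoints_iff_mem_sdiff_convexHull_sdiff).mp hp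
    exact h2.2 (convexHull_mono (sdiff_subset_sdiff_left extremePoints_subset) h1)
  have hfin : (Q.extremePoints ℝ \ {p}).Finite := h.fin.subset sdiff_subset
  obtain ⟨f, u, hfp, hfb⟩ := geometric_hahn_banach_point_closed (convex_convexHull ℝ _)
    (hfin.isClosed_convexHull ℝ) hpn
  have hpos : ∀ x ∈ Q.extremePoints ℝ, x ≠ p → 0 < f (x - p) := by
    intro x hx hxp
    rw [map_sub]
    have := hfb x (subset_convexHull ℝ _ ⟨hx, hxp⟩)
    linarith
  obtain ⟨w, hw⟩ := face_repr f
  -- the finite set of the other corners
  set E : Finset Pl := h.fin.toFinset.erase p with hE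
  have hEmem : ∀ x, x ∈ E ↔ x ≠ p ∧ x ∈ Q.extremePoints ℝ := by
    intro x
    rw [hE, Finset.mem_erase, Set.Finite.mem_toFinset]
  have hEne : E.Nonempty := by
    rw [← Finset.card_pos, hE, Finset.card_erase_of_mem (by rw [Set.Finite.mem_toFinset]; exact hp)]
    have := three_ext h
    rw [Set.ncard_eq_toFinset_card _ h.fin] at this
    omega
  have hf0 : f ≠ 0 := by
    rintro rfl
    obtain ⟨x, hx⟩ := hEne
    rw [hEmem] at hx
    exact lt_irrefl _ (hpos x hx.2 hx.1)
  have hw0 := face_repr_ne hf0 hw
  have hc := face_ne hw0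
  set w' : Pl := !₂[- w 1, w 0] with hw'
  have hkey : ∀ x y : Pl, cross w x * cross w' y - cross w' x * cross w y =
      (w 0 * w 0 + w 1 * w 1) * cross x y := by
    intro x y
    simp only [cross, hw', Matrix.cons_val_zero, Matrix.cons_val_one]
    ring
  have hslope : ∀ x y : Pl, 0 < f (x - p) → 0 < f (y - p) →
      (cross w' (x - p) / f (x - p) ≤ cross w' (y - p) / f (y - p) ↔
        0 ≤ cross (x - p) (y - p)) := by
    intro x y hx hy
    rw [div_le_div_iff₀ hx hy]
    have h1 := hkey (x - p) (y - p)
    rw [← hw, ← hw] at h1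
    constructor
    · intro h2
      by_contra h3
      push Not at h3
      nlinarith
    · intro h2
      nlinarith [mul_nonneg hc.le h2]
  obtain ⟨r, hrE, hr⟩ := E.exists_max_image (fun x => cross w' (x - p) / f (x - p)) hEne
  obtain ⟨q, hqE, hq⟩ := E.exists_min_image (fun x => cross w' (x - p) / f (x - p)) hEne
  rw [hEmem] at hrE hqE
  have h1 : ∀ x ∈ Q.extremePoints ℝ, 0 ≤ cross (q - p) (x - p) ∧ 0 ≤ cross (x - p) (r - p) := by
    intro x hx
    by_cases hxp : x = p
    · subst hxp
      simp [cross]
    · have hxE : x ∈ E := (hEmem x).mpr ⟨hxp, hx⟩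
      exact ⟨(hslope q x (hpos q hqE.2 hqE.1) (hpos x hx hxp)).mp (hq x hxE),
        (hslope x r (hpos x hx hxp) (hpos r hrE.2 hrE.1)).mp (hr x hxE)⟩
  refine ⟨q, r, hqE.2, hrE.2, hqE.1, hrE.1, ?_, ?_⟩
  · rcases (h1 q hqE.2).2.lt_or_eq with h2 | h2
    · exact h2
    · exfalso
      -- all slopes are equal
      have h3 : ∀ x ∈ Q.extremePoints ℝ, cross (q - p) (x - p) = 0 := by
        intro x hx
        by_cases hxp : x = p
        · subst hxp
          simp [cross]
        · have hxE : x ∈ E := (hEmem x).mpr ⟨hxp, hx⟩
          have h4 := (hslope r q (hpos r hrE.2 hrE.1) (hpos q hqE.2 hqE.1)).mpr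
            (by rw [corner_cross_anti, ← h2]; simp)
          have h5 := hr x hxE
          have h6 := (hslope x q (hpos x hx hxp) (hpos q hqE.2 hqE.1)).mp (h5.trans h4)
          rw [corner_cross_anti] at h6
          have h7 := (h1 x hx).1
          linarith
      have hqp : q - p ≠ 0 := sub_ne_zero.mpr hqE.1
      have h4 := corner_hull_le h (face_cr (q - p)) (cross (q - p) p) (by
        intro x hx
        have := h3 x hx
        rw [corner_cross_sub] at this
        rw [face_cr_apply]
        linarith)
      have h5 := corner_hull_le h (- face_cr (q - p)) (- cross (q - p) p) (by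
        intro x hx
        have := h3 x hx
        rw [corner_cross_sub] at this
        show _ ≤ - (face_cr (q - p) x)
        rw [face_cr_apply]
        linarith)
      refine corner_not_const h (face_cr_ne hqp) (cross (q - p) p) (fun x hx => ?_)
      have h6 := h4 x hx
      have h7 : - cross (q - p) p ≤ - (face_cr (q - p) x) := h5 x hx
      linarith
  · intro x hx
    have h4 := corner_hull_le h (face_cr (q - p)) (cross (q - p) p) (by
      intro x hx
      have := (h1 x hx).1
      rw [corner_cross_sub] at this
      rw [face_cr_apply]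
      linarith) x hx
    have h5 := corner_hull_le h (- face_cr (r - p)) (- cross (r - p) p) (by
      intro x hx
      have := (h1 x hx).2
      rw [corner_cross_anti, corner_cross_sub] at this
      show _ ≤ - (face_cr (r - p) x)
      rw [face_cr_apply]
      linarith) x hx
    have h6 : - cross (r - p) p ≤ - cross (r - p) x := h5
    rw [face_cr_apply] at h4
    constructor
    · rw [corner_cross_sub]; linarith
    · rw [corner_cross_anti, corner_cross_sub]; linarith

/-- The cone at a corner: u = (cross u (r-p) / D) (q-p) + (cross (q-p) u / D) (r-p) with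
D = cross (q-p) (r-p). -/
theorem cone_corner {Q : Set Pl} (h : Poly Q) {p q r : Pl} (hp : p ∈ Q) (hq : q ∈ Q) (hr : r ∈ Q)
    (hD : 0 < cross (q - p) (r - p))
    (hx : ∀ x ∈ Q, 0 ≤ cross (q - p) (x - p) ∧ 0 ≤ cross (x - p) (r - p)) :
    cone Q p = {u | 0 ≤ cross (q - p) u ∧ 0 ≤ cross u (r - p)} := by
  ext u
  constructor
  · rintro ⟨ρ, hρ, hu⟩
    obtain ⟨h1, h2⟩ := hx _ hu
    rw [add_sub_cancel_left] at h1 h2
    rw [corner_cross_smul] at h1
    rw [corner_cross_anti, corner_cross_smul] at h2
    refine ⟨?_, ?_⟩
    · exact nonneg_of_mul_nonneg_right h1 hρ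
    · rw [corner_cross_anti]
      have : 0 ≤ ρ * (- cross (r - p) u) := by linarith
      exact nonneg_of_mul_nonneg_right this hρ
  · rintro ⟨h1, h2⟩
    have h3 := corner_coord hD.ne' u
    set α := cross u (r - p) / cross (q - p) (r - p) with hα
    set β := cross (q - p) u / cross (q - p) (r - p) with hβ
    have hα0 : 0 ≤ α := div_nonneg h2 hD.le
    have hβ0 : 0 ≤ β := div_nonneg h1 hD.le
    have hs : 0 < 1 + α + β := by linarith
    refine ⟨1 / (1 + α + β), by positivity, ?_⟩
    have h4 : p + (1 / (1 + α + β)) • u = (1 / (1 + α + β)) • p + (α / (1 + α + β)) • q +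
        (β / (1 + α + β)) • r := by
      rw [h3]
      apply face_ext <;>
      · simp only [PiLp.add_apply, PiLp.smul_apply, PiLp.sub_apply, smul_eq_mul]
        field_simp
        ring
    rw [h4]
    exact corner_conv3 h.conv hp hq hr (by positivity) (by positivity) (by positivity)
      (by field_simp)

/-- Exactly two sides start at a corner, and they are not parallel. Proof: corner; the segments
p q, p r are in the frontier (front_of with f x = - cross (q - p) x and f x = - cross x (r - p)).
If p s is a side, s - p = x (q - p) + y (r - p) with x, y >= 0 (cone_corner); if x, y > 0 then the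
points p + ε (s - p) are interior points of the triangle p q r for small ε, against the frontier;
if y = 0 then s = p + x (q - p), x > 0, and x = 1 since q and s are both extreme (side_line). -/
theorem two_sides {Q : Set Pl} (h : Poly Q) {p : Pl} (hp : p ∈ Q.extremePoints ℝ) :
    ∃ q r, q ≠ r ∧ IsSide Q p q ∧ IsSide Q p r ∧ cross (q - p) (r - p) ≠ 0 ∧
      ∀ s, IsSide Q p s → s = q ∨ s = r := by
  obtain ⟨q, r, hq, hr, hqp, hrp, hD, hx⟩ := corner h hp
  have hpQ : p ∈ Q := extremePoints_subset hp
  have hqQ : q ∈ Q := extremePoints_subset hq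
  have hrQ : r ∈ Q := extremePoints_subset hr
  have hsq : IsSide Q p q := by
    refine ⟨hp, hq, hqp.symm, fun z hz => ?_⟩
    have hne : - face_cr (q - p) ≠ 0 := neg_ne_zero.mpr (face_cr_ne (sub_ne_zero.mpr hqp))
    have h1 : (- face_cr (q - p)) q = (- face_cr (q - p)) p := by
      show - cross (q - p) q = - cross (q - p) p
      simp only [cross, PiLp.sub_apply]
      ring
    have h2 := face_seg_eq hz rfl h1
    refine front_of h hne (h.conv.segment_subset hpQ hqQ hz) (fun y hy => ?_)
    rw [h2]
    have h3 := (hx y hy).1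
    rw [corner_cross_sub] at h3
    show - cross (q - p) y ≤ - cross (q - p) p
    linarith
  have hsr : IsSide Q p r := by
    refine ⟨hp, hr, hrp.symm, fun z hz => ?_⟩
    have hne : face_cr (r - p) ≠ 0 := face_cr_ne (sub_ne_zero.mpr hrp)
    have h1 : (face_cr (r - p)) r = (face_cr (r - p)) p := by
      show cross (r - p) r = cross (r - p) p
      simp only [cross, PiLp.sub_apply]
      ring
    have h2 := face_seg_eq hz rfl h1
    refine front_of h hne (h.conv.segment_subset hpQ hrQ hz) (fun y hy => ?_)
    rw [h2]
    have h3 := (hx y hy).2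
    rw [corner_cross_anti, corner_cross_sub] at h3
    show cross (r - p) y ≤ cross (r - p) p
    linarith
  refine ⟨q, r, ?_, hsq, hsr, hD.ne', fun s hs => ?_⟩
  · rintro rfl
    simp [cross, mul_comm] at hD
  · have hsQ : s ∈ Q := (face_side_mem hs).2
    obtain ⟨h1, h2⟩ := hx s hsQ
    have h3 := corner_coord hD.ne' (s - p)
    set α := cross (s - p) (r - p) / cross (q - p) (r - p) with hα
    set β := cross (q - p) (s - p) / cross (q - p) (r - p) with hβ
    have hα0 : 0 ≤ α := div_nonneg h2 hD.le
    have hβ0 : 0 ≤ β := div_nonneg h1 hD.le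
    rcases hβ0.lt_or_eq with hβ1 | hβ1
    · rcases hα0.lt_or_eq with hα1 | hα1
      · exfalso
        obtain ⟨f, hf, hmax, hfe⟩ := face_fun h hs.2.2.2
        have h4 : f (s - p) = α * f (q - p) + β * f (r - p) := by
          conv_lhs => rw [h3]
          rw [map_add, map_smul, map_smul]; rfl
        have h5 : f (s - p) = 0 := by rw [map_sub, hfe, sub_self]
        have h6 : f (q - p) ≤ 0 := by
          rw [map_sub]; have := hmax q hqQ; linarith
        have h7 : f (r - p) ≤ 0 := by
          rw [map_sub]; have := hmax r hrQ; linarith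
        have h8 : f (q - p) = 0 := by
          rcases h6.lt_or_eq with h9 | h9
          · nlinarith [mul_neg_of_pos_of_neg hα1 h9, mul_nonpos_of_nonneg_of_nonpos hβ0 h7]
          · exact h9
        have h9 : f (r - p) = 0 := by
          rcases h7.lt_or_eq with h10 | h10
          · nlinarith [mul_neg_of_pos_of_neg hβ1 h10, mul_nonpos_of_nonneg_of_nonpos hα0 h6]
          · exact h10
        obtain ⟨c, hc⟩ := face_ker hf (sub_ne_zero.mpr hqp) h8 h9
        rw [hc, corner_cross_smul] at hD
        simp [cross, mul_comm] at hD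
      · right
        rw [← hα1, zero_smul, zero_add] at h3
        have h4 : s = p + β • (r - p) := by rw [← h3]; abel
        have h5 := side_line hsr (t := β) (by rw [← h4]; exact hsQ)
        have h6 : s ∈ segment ℝ p r := by
          rw [segment_eq_image']
          exact ⟨β, h5, h4.symm⟩
        exact (ext_side h hsr h6 hs.2.1).resolve_left hs.2.2.1.symm
    · left
      rw [← hβ1, zero_smul, add_zero] at h3
      have h4 : s = p + α • (q - p) := by rw [← h3]; abel
      have h5 := side_line hsq (t := α) (by rw [← h4]; exact hsQ)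
      have h6 : s ∈ segment ℝ p q := by
        rw [segment_eq_image']
        exact ⟨α, h5, h4.symm⟩
      exact (ext_side h hsq h6 hs.2.1).resolve_left hs.2.2.1.symm

end Pool.Agent.Work.MP_bd00dd_co
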