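import Pool.Agent.Work.MP_bd00dd_co.G.Inter

/-!
Vertices on a tile and edges.
-/

namespace Pool.Agent.Work.MP_bd00dd_co

open MeasureTheory Metric Set

variable {ι : Type*} {P : Set Pl} {g : ι → Pl ≃ᵢ Pl}

/-- Points of degree >= 3 of an intersection are its ends. -/
theorem mem_ends {i j : ι} (hij : i ≠ j) {a b : Pl}
    (ho : ∀ x ∈ openSegment ℝ a b, a ≠ b → Thr P g x = {i, j}) {v : Pl}
    (hv : v ∈ segment ℝ a b) (h3 : 3 ≤ (Thr P g v).ncard) : v = a ∨ v = b := by
  by_cases hab : a = b
  · subst hab
    rw [segment_same] at hv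
    exact Or.inl hv
  · rw [← insert_endpoints_openSegment] at hv
    rcases hv with hv | hv | hv
    · exact Or.inl hv
    · exact Or.inr hv
    · have := ho v hv hab
      rw [this, ncard_pair hij] at h3
      omega

/-- The vertices on a tile form a finite set: each of them is in T i ∩ T j for one of the finitely
many tiles j ≠ i which meet T i (locfin), and it is an end of this intersection (inter_cases: inner
points are in two tiles only). -/
theorem vs_fin (h : Tiling P g) (i : ι) :
    {v | v ∈ g i '' P ∧ 3 ≤ (Thr P g v).ncard}.Finite := by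
  obtain ⟨z, hz⟩ := tile_int h i
  have hz' := interior_subset hz
  have hsub : g i '' P ⊆ closedBall z (0 + diam P) :=
    tile_sub h ⟨z, hz', mem_closedBall_self le_rfl⟩
  have hJ := (locfin h z (0 + diam P)).subset
    (t := {j | j ≠ i ∧ (g j '' P ∩ closedBall z (0 + diam P)).Nonempty}) fun j hj => hj.2
  refine (hJ.biUnion (t := fun j => {v | v ∈ g i '' P ∩ g j '' P ∧ 3 ≤ (Thr P g v).ncard})
    fun j hj => ?_).subset ?_
  · by_cases hne : (g i '' P ∩ g j '' P).Nonempty
    · obtain ⟨a, b, hK, _, _, ho⟩ := inter_cases h (Ne.symm hj.1) hne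
      refine (toFinite ({a, b} : Set Pl)).subset ?_
      rintro v ⟨hv, h3⟩
      rw [hK] at hv
      exact mem_ends (Ne.symm hj.1) ho hv h3
    · rw [not_nonempty_iff_eq_empty] at hne
      refine finite_empty.subset ?_
      rintro v ⟨hv, _⟩
      rw [hne] at hv
      exact hv
  · rintro v ⟨hv, h3⟩
    obtain ⟨j, hj, hji⟩ : ∃ j ∈ Thr P g v, j ≠ i := by
      by_contra hno
      push Not at hno
      have : (Thr P g v).ncard ≤ 1 :=
        (ncard_le_one (thr_fin h v)).2 fun a ha b hb => (hno a ha).trans (hno b hb).symm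
      omega
    simp only [mem_iUnion]
    exact ⟨j, ⟨hji, v, hj, hsub hv⟩, ⟨hv, hj⟩, h3⟩

theorem line_mem {p d : Pl} {s t u : ℝ} (h : (t < s ∧ s < u) ∨ (u < s ∧ s < t)) :
    p + s • d ∈ openSegment ℝ (p + t • d) (p + u • d) := by
  rcases h with ⟨h1, h2⟩ | ⟨h1, h2⟩
  · have h3 : 0 < u - t := by linarith
    refine ⟨(u - s) / (u - t), (s - t) / (u - t), div_pos (by linarith) h3,
      div_pos (by linarith) h3, by field_simp; ring, ?_⟩
    have e1 : s = (u - s) / (u - t) * t + (s - t) / (u - t) * u := by field_simp; ring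
    have e2 : (1 : ℝ) = (u - s) / (u - t) + (s - t) / (u - t) := by field_simp; ring
    calc ((u - s) / (u - t)) • (p + t • d) + ((s - t) / (u - t)) • (p + u • d)
        = ((u - s) / (u - t) + (s - t) / (u - t)) • p +
          ((u - s) / (u - t) * t + (s - t) / (u - t) * u) • d := by module
      _ = p + s • d := by rw [← e1, ← e2, one_smul]
  · have h3 : 0 < t - u := by linarith
    refine ⟨(s - u) / (t - u), (t - s) / (t - u), div_pos (by linarith) h3,
      div_pos (by linarith) h3, by field_simp; ring, ?_⟩
    have e1 : s = (s - u) / (t - u) * t + (t - s) / (t - u) * u := by field_simp; ring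
    have e2 : (1 : ℝ) = (s - u) / (t - u) + (t - s) / (t - u) := by field_simp; ring
    calc ((s - u) / (t - u)) • (p + t • d) + ((t - s) / (t - u)) • (p + u • d)
        = ((s - u) / (t - u) + (t - s) / (t - u)) • p +
          ((s - u) / (t - u) * t + (t - s) / (t - u) * u) • d := by module
      _ = p + s • d := by rw [← e1, ← e2, one_smul]

theorem line_inj {p d : Pl} (hd : d ≠ 0) {s t : ℝ} (h : p + s • d = p + t • d) : s = t := by
  have h1 : s • d = t • d := add_left_cancel h
  have h2 : (s - t) • d = 0 := by rw [sub_smul, h1, sub_self]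
  rcases smul_eq_zero.1 h2 with h3 | h3
  · linarith
  · exact absurd h3 hd

theorem line_seg {p d : Pl} (hd : d ≠ 0) {s t u : ℝ}
    (h : p + s • d ∈ segment ℝ (p + t • d) (p + u • d)) : (t ≤ s ∧ s ≤ u) ∨ (u ≤ s ∧ s ≤ t) := by
  obtain ⟨a, b, ha, hb, hab, he⟩ := h
  have h1 : p + s • d = p + (a * t + b * u) • d := by
    rw [← he]
    have : a • (p + t • d) + b • (p + u • d) = (a + b) • p + (a * t + b * u) • d := by module
    rw [this, hab, one_smul]
  have h2 := line_inj hd h1
  have ha' : a = 1 - b := by linarith
  subst ha'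
  rcases le_total t u with h3 | h3
  · left
    constructor <;> nlinarith
  · right
    constructor <;> nlinarith

/-- Edge along a side. Let p q be a side of T i and v, w different points of it of degree >= 3 with
no point of degree >= 3 in the open segment v w. Then there is exactly one tile j ≠ i which
contains v and w, and T i ∩ T j is the segment v w.
Proof: the midpoint x is in the frontier of T i and has degree 2 (front_other), say {i, j}. K =
T i ∩ T j = segment a b by inter_cases, a, b of degree >= 3, so x ≠ a, b and a ≠ b. K is in the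
frontier of T i (inter_front), so in a side (seg_front), which is p q (side_unique at x). a and b
are not in the open segment v w, so v and w are in segment a b; inner points of a b have degree 2,
so {v, w} = {a, b}. Uniqueness: another tile which contains v and w contains x. -/
theorem edge (h : Tiling P g) {i : ι} {p q v w : Pl} (hs : IsSide (g i '' P) p q)
    (hv : v ∈ segment ℝ p q) (hw : w ∈ segment ℝ p q) (hvw : v ≠ w)
    (hv3 : 3 ≤ (Thr P g v).ncard) (hw3 : 3 ≤ (Thr P g w).ncard)
    (hno : ∀ x ∈ openSegment ℝ v w, (Thr P g x).ncard < 3) :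
    ∃ j, j ≠ i ∧ g i '' P ∩ g j '' P = segment ℝ v w ∧
      ∀ j', j' ≠ i → v ∈ g j' '' P → w ∈ g j' '' P → j' = j := by
  have hd : q - p ≠ 0 := sub_ne_zero.2 hs.2.2.1.symm
  obtain ⟨x, hxdef⟩ : ∃ x, x = midpoint ℝ v w := ⟨_, rfl⟩
  have hxo : x ∈ openSegment ℝ v w := by
    rw [hxdef]
    refine ⟨1 / 2, 1 / 2, by norm_num, by norm_num, by norm_num, ?_⟩
    rw [midpoint_eq_smul_add, smul_add]
    norm_num
  have hvT : v ∈ g i '' P := (tile_closed h i).frontier_subset (hs.2.2.2 hv)
  have hwT : w ∈ g i '' P := (tile_closed h i).frontier_subset (hs.2.2.2 hw)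
  have hxs : x ∈ segment ℝ p q :=
    (convex_segment p q).segment_subset hv hw (openSegment_subset_segment ℝ _ _ hxo)
  have hxf : x ∈ frontier (g i '' P) := hs.2.2.2 hxs
  have hxT : x ∈ g i '' P := (tile_closed h i).frontier_subset hxf
  obtain ⟨j, hji, hj⟩ := front_other h hxf
  have hThr : ({i, j} : Set ι) = Thr P g x := by
    apply eq_of_subset_of_ncard_le _ _ (thr_fin h x)
    · intro k hk
      simp only [mem_insert_iff, mem_singleton_iff] at hk
      rcases hk with rfl | rfl
      · exact hxT
      · exact hj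
    · rw [ncard_pair (Ne.symm hji)]
      have := hno x hxo
      omega
  obtain ⟨a, b, hK, ha3, hb3, ho⟩ := inter_cases h (Ne.symm hji) ⟨x, hxT, hj⟩
  have hxK : x ∈ segment ℝ a b := by
    rw [← hK]
    exact ⟨hxT, hj⟩
  have hx2 : (Thr P g x).ncard < 3 := hno x hxo
  have hxa : x ≠ a := by
    rintro rfl
    omega
  have hxb : x ≠ b := by
    rintro rfl
    omega
  have hab : a ≠ b := by
    rintro rfl
    rw [segment_same] at hxK
    exact hxa hxK
  have hKf : segment ℝ a b ⊆ frontier (g i '' P) := by
    intro y hy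
    rw [← hK] at hy
    exact inter_front h (Ne.symm hji) hy.1 hy.2
  obtain ⟨p', q', hs', hap, hbp⟩ := seg_front (poly_t h i) hab hKf
  have hxp' : x ∈ segment ℝ p' q' := (convex_segment p' q').segment_subset hap hbp hxK
  -- parameters
  rw [segment_eq_image'] at hv hw
  obtain ⟨tv, htv, rfl⟩ := hv
  obtain ⟨tw, htw, rfl⟩ := hw
  have htvw : tv ≠ tw := by
    rintro rfl
    exact hvw rfl
  have hxe : x = p + ((tv + tw) / 2) • (q - p) := by
    rw [hxdef, midpoint_eq_smul_add]
    have : (2 : ℝ) • ((⅟ 2 : ℝ) • (p + tv • (q - p) + (p + tw • (q - p)))) =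
        (2 : ℝ) • (p + ((tv + tw) / 2) • (q - p)) := by
      rw [smul_smul, mul_invOf_self, one_smul]
      module
    exact smul_right_injective Pl (two_ne_zero) this
  have hxpq : x ∈ openSegment ℝ p q := by
    have h1 : p = p + (0 : ℝ) • (q - p) := by simp
    have h2 : q = p + (1 : ℝ) • (q - p) := by simp
    rw [hxe]
    have h3 : p + ((tv + tw) / 2) • (q - p) ∈
        openSegment ℝ (p + (0 : ℝ) • (q - p)) (p + (1 : ℝ) • (q - p)) := by
      apply line_mem
      left
      obtain ⟨h5, h6⟩ := htv
      obtain ⟨h7, h8⟩ := htw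
      rcases lt_or_gt_of_ne htvw with h4 | h4 <;> constructor <;> linarith
    rwa [← h1, ← h2] at h3
  have habpq : a ∈ segment ℝ p q ∧ b ∈ segment ℝ p q := by
    rcases side_unique (poly_t h i) hs hs' hxpq hxp' with ⟨e1, e2⟩ | ⟨e1, e2⟩
    · rw [e1, e2]
      exact ⟨hap, hbp⟩
    · rw [e1, e2, segment_symm]
      exact ⟨hap, hbp⟩
  obtain ⟨hapq, hbpq⟩ := habpq
  rw [segment_eq_image'] at hapq hbpq
  obtain ⟨ta, hta, rfl⟩ := hapq
  obtain ⟨tb, htb, rfl⟩ := hbpq
  have htab : ta ≠ tb := by
    rintro rfl
    exact hab rfl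
  obtain ⟨tx, htx⟩ : ∃ tx, tx = (tv + tw) / 2 := ⟨_, rfl⟩
  rw [← htx] at hxe
  have hbetw := by
    rw [hxe] at hxK
    exact line_seg hd hxK
  have hxa' : tx ≠ ta := by
    rintro rfl
    exact hxa hxe
  have hxb' : tx ≠ tb := by
    rintro rfl
    exact hxb hxe
  have hna : ¬ ((tv < ta ∧ ta < tw) ∨ (tw < ta ∧ ta < tv)) := by
    intro hc
    exact absurd ha3 (not_le.2 (hno _ (line_mem (p := p) (d := q - p) hc)))
  have hnb : ¬ ((tv < tb ∧ tb < tw) ∨ (tw < tb ∧ tb < tv)) := by
    intro hc
    exact absurd hb3 (not_le.2 (hno _ (line_mem (p := p) (d := q - p) hc)))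
  have hnv : ¬ ((ta < tv ∧ tv < tb) ∨ (tb < tv ∧ tv < ta)) := by
    intro hc
    have := ho _ (line_mem (p := p) (d := q - p) hc) hab
    rw [this, ncard_pair (Ne.symm hji)] at hv3
    omega
  have hnw : ¬ ((ta < tw ∧ tw < tb) ∨ (tb < tw ∧ tw < ta)) := by
    intro hc
    have := ho _ (line_mem (p := p) (d := q - p) hc) hab
    rw [this, ncard_pair (Ne.symm hji)] at hw3
    omega
  have hcases : (ta = tv ∧ tb = tw) ∨ (ta = tw ∧ tb = tv) := by
    push Not at hna hnb hnv hnw
    obtain ⟨na1, na2⟩ := hna
    obtain ⟨nb1, nb2⟩ := hnb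
    obtain ⟨nv1, nv2⟩ := hnv
    obtain ⟨nw1, nw2⟩ := hnw
    rcases lt_or_gt_of_ne htvw with h1 | h1
    · have hx1 : tv < tx := by linarith
      have hx2 : tx < tw := by linarith
      rcases hbetw with ⟨h2, h3⟩ | ⟨h2, h3⟩
      · have h2' : ta < tx := lt_of_le_of_ne h2 (Ne.symm hxa')
        have h3' : tx < tb := lt_of_le_of_ne h3 hxb'
        left
        constructor
        · apply le_antisymm
          · by_contra hc
            push Not at hc
            linarith [na1 hc]
          · by_contra hc
            push Not at hc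
            linarith [nv1 hc]
        · apply le_antisymm
          · by_contra hc
            push Not at hc
            have := nw1 (by linarith)
            linarith
          · by_contra hc
            push Not at hc
            have := nb1 (by linarith)
            linarith
      · have h2' : tb < tx := lt_of_le_of_ne h2 (Ne.symm hxb')
        have h3' : tx < ta := lt_of_le_of_ne h3 hxa'
        right
        constructor
        · apply le_antisymm
          · by_contra hc
            push Not at hc
            have := nw2 (by linarith)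
            linarith
          · by_contra hc
            push Not at hc
            have := na1 (by linarith)
            linarith
        · apply le_antisymm
          · by_contra hc
            push Not at hc
            linarith [nb1 hc]
          · by_contra hc
            push Not at hc
            linarith [nv2 hc]
    · have hx1 : tw < tx := by linarith
      have hx2 : tx < tv := by linarith
      rcases hbetw with ⟨h2, h3⟩ | ⟨h2, h3⟩
      · have h2' : ta < tx := lt_of_le_of_ne h2 (Ne.symm hxa')
        have h3' : tx < tb := lt_of_le_of_ne h3 hxb'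
        right
        constructor
        · apply le_antisymm
          · by_contra hc
            push Not at hc
            linarith [na2 hc]
          · by_contra hc
            push Not at hc
            linarith [nw1 hc]
        · apply le_antisymm
          · by_contra hc
            push Not at hc
            have := nv1 (by linarith)
            linarith
          · by_contra hc
            push Not at hc
            have := nb2 (by linarith)
            linarith
      · have h2' : tb < tx := lt_of_le_of_ne h2 (Ne.symm hxb')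
        have h3' : tx < ta := lt_of_le_of_ne h3 hxa'
        left
        constructor
        · apply le_antisymm
          · by_contra hc
            push Not at hc
            have := nv2 (by linarith)
            linarith
          · by_contra hc
            push Not at hc
            have := na2 (by linarith)
            linarith
        · apply le_antisymm
          · by_contra hc
            push Not at hc
            linarith [nb2 hc]
          · by_contra hc
            push Not at hc
            linarith [nw2 hc]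
  refine ⟨j, hji, ?_, ?_⟩
  · rw [hK]
    rcases hcases with ⟨e1, e2⟩ | ⟨e1, e2⟩
    · rw [e1, e2]
    · rw [e1, e2, segment_symm]
  · intro j' hj' h1 h2
    have h3 : x ∈ g j' '' P :=
      (conv_im (g j') h.conv).segment_subset h1 h2 (openSegment_subset_segment ℝ _ _ hxo)
    have h4 : j' ∈ Thr P g x := h3
    rw [← hThr] at h4
    simp only [mem_insert_iff, mem_singleton_iff] at h4
    rcases h4 with h4 | h4
    · exact absurd h4 hj'
    · exact h4

/-- First edge from a point v of degree >= 3 on a side p q, v ≠ q, in the direction of q: there is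
a nearest point w of degree >= 3 (vs_fin, vx_corner for q). -/
theorem first_edge (h : Tiling P g) {i : ι} {p q v : Pl} (hs : IsSide (g i '' P) p q)
    (hv : v ∈ segment ℝ p q) (hvq : v ≠ q) (_hv3 : 3 ≤ (Thr P g v).ncard) :
    ∃ w ∈ segment ℝ v q, w ≠ v ∧ 3 ≤ (Thr P g w).ncard ∧
      ∀ x ∈ openSegment ℝ v w, (Thr P g x).ncard < 3 := by
  have hvT : v ∈ g i '' P := (tile_closed h i).frontier_subset (hs.2.2.2 hv)
  have hqT : q ∈ g i '' P := hs.2.1.1
  have hfin : {w | w ∈ segment ℝ v q ∧ w ≠ v ∧ 3 ≤ (Thr P g w).ncard}.Finite := by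
    refine (vs_fin h i).subset ?_
    rintro w ⟨hw, _, h3⟩
    exact ⟨(conv_im (g i) h.conv).segment_subset hvT hqT hw, h3⟩
  obtain ⟨w, ⟨hw, hwv, hw3⟩, hmin⟩ := exists_min_image _ (fun w => dist v w) hfin
    ⟨q, right_mem_segment ℝ _ _, hvq.symm, vx_corner h (i := i) hs.2.1⟩
  refine ⟨w, hw, hwv, hw3, ?_⟩
  intro x hx
  by_contra hcon
  push Not at hcon
  have hxs : x ∈ segment ℝ v q := (convex_segment v q).segment_subset (left_mem_segment ℝ _ _) hw
    (openSegment_subset_segment ℝ _ _ hx)
  rw [openSegment_eq_image'] at hx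
  obtain ⟨t, ⟨ht0, ht1⟩, rfl⟩ := hx
  have hwv' : w - v ≠ 0 := sub_ne_zero.2 hwv
  have hne : v + t • (w - v) ≠ v := by
    intro he
    have h1 : t • (w - v) = 0 := by
      have h2 : v + t • (w - v) = v + 0 := by rw [he, add_zero]
      exact add_left_cancel h2
    rcases smul_eq_zero.1 h1 with h3 | h3
    · exact ht0.ne' h3
    · exact hwv' h3
  have := hmin _ ⟨hxs, hne, hcon⟩
  simp only [dist_eq_norm] at this
  have h1 : v - (v + t • (w - v)) = -(t • (w - v)) := by abel
  rw [h1, norm_neg, norm_smul, Real.norm_of_nonneg ht0.le, norm_sub_rev v w] at this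
  have h2 : 0 < ‖w - v‖ := norm_pos_iff.2 hwv'
  nlinarith

/-- Two different tiles have at most two common points of degree >= 3 (inter_cases). -/
theorem share2 (h : Tiling P g) {i j : ι} (hij : i ≠ j) {x y z : Pl} (hx : x ∈ g i '' P)
    (hy : y ∈ g i '' P) (hz : z ∈ g i '' P) (hx' : x ∈ g j '' P) (hy' : y ∈ g j '' P)
    (hz' : z ∈ g j '' P) (hx3 : 3 ≤ (Thr P g x).ncard) (hy3 : 3 ≤ (Thr P g y).ncard)
    (hz3 : 3 ≤ (Thr P g z).ncard) (hxy : x ≠ y) (hyz : y ≠ z) (hxz : x ≠ z) : False := by
  obtain ⟨a, b, hK, _, _, ho⟩ := inter_cases h hij ⟨x, hx, hx'⟩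
  have h1 : x = a ∨ x = b := mem_ends hij ho (by rw [← hK]; exact ⟨hx, hx'⟩) hx3
  have h2 : y = a ∨ y = b := mem_ends hij ho (by rw [← hK]; exact ⟨hy, hy'⟩) hy3
  have h3 : z = a ∨ z = b := mem_ends hij ho (by rw [← hK]; exact ⟨hz, hz'⟩) hz3
  rcases h1 with rfl | rfl <;> rcases h2 with rfl | rfl <;> rcases h3 with rfl | rfl <;>
    simp_all

end Pool.Agent.Work.MP_bd00dd_co
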