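import Pool.Agent.Work.MP_bd00dd_co.Defs

/-!
Convex polygons: hull, number of corners.
-/

namespace Pool.Agent.Work.MP_bd00dd_co

open MeasureTheory Metric Set

/-- Krein-Milman (closure_convexHull_extremePoints) and the hull of a finite set is closed. -/
theorem hull {Q : Set Pl} (h : Poly Q) : convexHull ℝ (Q.extremePoints ℝ) = Q := by
  have h1 := closure_convexHull_extremePoints h.comp h.conv
  rwa [(h.fin.isClosed_convexHull (𝕜 := ℝ)).closure_eq] at h1

/-- A convex set in the plane with empty interior lies on a line
(Convex.interior_nonempty_iff_affineSpan_eq_top; a proper affine subspace of the plane has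
dimension <= 1). -/
theorem collinear_of {K : Set Pl} (hK : Convex ℝ K) (hi : interior K = ∅) : Collinear ℝ K := by
  rcases K.eq_empty_or_nonempty with rfl | hne
  · exact collinear_empty ℝ Pl
  have h1 : affineSpan ℝ K ≠ ⊤ := by
    intro h
    have := (hK.interior_nonempty_iff_affineSpan_eq_top).2 h
    rw [hi] at this
    exact this.ne_empty rfl
  have h2 : (affineSpan ℝ K).direction ≠ ⊤ := by
    intro h
    exact h1 ((AffineSubspace.direction_eq_top_iff_of_nonempty
      ((affineSpan_nonempty ℝ).2 hne)).1 h)
  have h3 := Submodule.finrank_lt h2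
  rw [direction_affineSpan, finrank_euclideanSpace_fin] at h3
  rw [collinear_iff_finrank_le_one]
  omega

theorem int_empty_of_collinear {K : Set Pl} (hc : Collinear ℝ K) : interior K = ∅ := by
  by_contra hne
  have hne' : (interior K).Nonempty := nonempty_iff_ne_empty.2 hne
  have h1 : affineSpan ℝ K = ⊤ := by
    have h := isOpen_interior.affineSpan_eq_top hne'
    rw [eq_top_iff, ← h]
    exact affineSpan_mono ℝ interior_subset
  have h2 := (collinear_iff_finrank_le_one).1 hc
  rw [← direction_affineSpan, h1, AffineSubspace.direction_top, finrank_top,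
    finrank_euclideanSpace_fin] at h2
  omega

theorem eq_of_three {K : Set Pl} (hc : Collinear ℝ K) {x y z : Pl} (hx : x ∈ K.extremePoints ℝ)
    (hy : y ∈ K.extremePoints ℝ) (hz : z ∈ K.extremePoints ℝ) (hxy : x ≠ y) (hyz : y ≠ z)
    (hxz : x ≠ z) : False := by
  have hs : ({x, y, z} : Set Pl) ⊆ K := by
    intro w hw
    simp only [mem_insert_iff, mem_singleton_iff] at hw
    rcases hw with rfl | rfl | rfl
    · exact hx.1
    · exact hy.1
    · exact hz.1
  have key : ∀ a b c : Pl, a ∈ K.extremePoints ℝ → b ∈ K.extremePoints ℝ → c ∈ K.extremePoints ℝ →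
      a ≠ b → c ≠ b → Wbtw ℝ a b c → False := by
    intro a b c ha hb hc' hab hcb hw
    rcases hw.mem_segment with h
    have h2 : b ∈ openSegment ℝ a c := by
      have := mem_openSegment_of_ne_left_right (𝕜 := ℝ) hab hcb h
      exact this
    rw [mem_extremePoints] at hb
    exact hab (hb.2 a ha.1 c hc'.1 h2).1
  rcases (hc.subset hs).wbtw_or_wbtw_or_wbtw with h | h | h
  · exact key x y z hx hy hz hxy hyz.symm h
  · exact key y z x hy hz hx hyz hxz h
  · exact key z x y hz hx hy hxz.symm hxy.symm h

/-- A compact convex set on a line has at most two extreme points: of three different points on a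
line one lies in the open segment of the two other ones. -/
theorem ext_le_two {K : Set Pl} (hc : Collinear ℝ K) :
    (K.extremePoints ℝ).Finite ∧ (K.extremePoints ℝ).ncard ≤ 2 := by
  by_cases h : (K.extremePoints ℝ).Subsingleton
  · refine ⟨h.finite, ?_⟩
    have : (K.extremePoints ℝ).ncard ≤ 1 := (ncard_le_one h.finite).2 fun a ha b hb => h ha hb
    omega
  · rw [not_subsingleton_iff] at h
    obtain ⟨x, hx, y, hy, hxy⟩ := h
    have hsub : K.extremePoints ℝ ⊆ {x, y} := by
      intro z hz
      by_contra hzz
      simp only [mem_insert_iff, mem_singleton_iff, not_or] at hzz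
      exact eq_of_three hc hx hy hz hxy (Ne.symm hzz.2) (Ne.symm hzz.1)
    refine ⟨(toFinite _).subset hsub, ?_⟩
    exact (ncard_le_ncard hsub (toFinite _)).trans (ncard_pair hxy).le

/-- A compact convex set on a line is empty or a segment whose ends are its extreme points. -/
theorem seg_of {K : Set Pl} (hK : Convex ℝ K) (hcomp : IsCompact K) (hc : Collinear ℝ K)
    (hne : K.Nonempty) :
    ∃ a b, K = segment ℝ a b ∧ a ∈ K.extremePoints ℝ ∧ b ∈ K.extremePoints ℝ := by
  obtain ⟨hf, h2⟩ := ext_le_two hc
  have h1 := closure_convexHull_extremePoints hcomp hK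
  rw [(hf.isClosed_convexHull (𝕜 := ℝ)).closure_eq] at h1
  obtain ⟨a, ha⟩ := hcomp.extremePoints_nonempty hne
  by_cases h : (K.extremePoints ℝ).Subsingleton
  · refine ⟨a, a, ?_, ha, ha⟩
    have : K.extremePoints ℝ = {a} := h.eq_singleton_of_mem ha
    rw [this, convexHull_singleton] at h1
    rw [segment_same, h1]
  · rw [not_subsingleton_iff] at h
    obtain ⟨x, hx, y, hy, hxy⟩ := h
    have hsub : K.extremePoints ℝ = {x, y} := by
      refine Subset.antisymm ?_ ?_
      · intro z hz
        by_contra hzz
        simp only [mem_insert_iff, mem_singleton_iff, not_or] at hzz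
        exact eq_of_three hc hx hy hz hxy (Ne.symm hzz.2) (Ne.symm hzz.1)
      · intro z hz
        simp only [mem_insert_iff, mem_singleton_iff] at hz
        rcases hz with rfl | rfl
        · exact hx
        · exact hy
    refine ⟨x, y, ?_, hx, hy⟩
    rw [hsub, convexHull_pair] at h1
    exact h1.symm

/-- There are at least three corners: the hull of at most two points has empty interior in the
plane. -/
theorem three_ext {Q : Set Pl} (h : Poly Q) : 3 ≤ (Q.extremePoints ℝ).ncard := by
  by_contra hlt
  have hlt' : (Q.extremePoints ℝ).ncard ≤ 2 := by omega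
  have hcol : Collinear ℝ (Q.extremePoints ℝ) := by
    by_cases hs : (Q.extremePoints ℝ).Subsingleton
    · rcases hs.eq_empty_or_singleton with h0 | ⟨a, h0⟩
      · rw [h0]; exact collinear_empty ℝ Pl
      · rw [h0]; exact collinear_singleton ℝ a
    · rw [not_subsingleton_iff] at hs
      obtain ⟨x, hx, y, hy, hxy⟩ := hs
      have hsub : ({x, y} : Set Pl) ⊆ Q.extremePoints ℝ := by
        intro z hz
        simp only [mem_insert_iff, mem_singleton_iff] at hz
        rcases hz with rfl | rfl
        · exact hx
        · exact hy
      have := eq_of_subset_of_ncard_le hsub (by rw [ncard_pair hxy]; exact hlt') h.fin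
      rw [← this]
      exact collinear_pair ℝ x y
  have hQ : Collinear ℝ Q := by
    rw [← hull h]
    rw [Collinear, ← direction_affineSpan, affineSpan_convexHull, direction_affineSpan]
    exact hcol
  have := int_empty_of_collinear hQ
  exact h.int.ne_empty this

end Pool.Agent.Work.MP_bd00dd_co
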