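import Pool.Agent.Work.MP_bd00dd_co.G.Loc
import Pool.Agent.Work.MP_bd00dd_co.G.Hull

/-!
The prototile is a polygon. Proof: take a tile i (there is one, by h.cov). Every extreme point x of
T i = g i '' P is in the frontier (an interior point is not extreme), so x ∈ T j for some j ≠ i
(front_other); x is extreme in T i ∩ T j, which is convex with empty interior (inter_int), so
on a line (collinear_of) and it has at most two extreme points (ext_le_two). Only finitely many
tiles j meet the bounded set T i (locfin). So T i has finitely many extreme points, and ext_im.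
-/

namespace Pool.Agent.Work.MP_bd00dd_co

open MeasureTheory Metric Set

variable {ι : Type*} {P : Set Pl} {g : ι → Pl ≃ᵢ Pl}

theorem ext_front (h : Tiling P g) (i : ι) {x : Pl} (hx : x ∈ (g i '' P).extremePoints ℝ) :
    x ∈ frontier (g i '' P) := by
  rw [(tile_closed h i).frontier_eq]
  exact ⟨hx.1, fun hi => disjoint_left.1 (disjoint_interior_extremePoints _) hi hx⟩

theorem poly_t (h : Tiling P g) (i : ι) : Poly (g i '' P) := by
  refine ⟨conv_im (g i) h.conv, tile_compact h i, tile_int h i, ?_⟩
  obtain ⟨z, hz⟩ := tile_int h i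
  have hz' := interior_subset hz
  have hsub : g i '' P ⊆ closedBall z (0 + diam P) :=
    tile_sub h ⟨z, hz', mem_closedBall_self le_rfl⟩
  have hJ := (locfin h z (0 + diam P)).subset
    (t := {j | j ≠ i ∧ (g j '' P ∩ closedBall z (0 + diam P)).Nonempty}) fun j hj => hj.2
  refine (hJ.biUnion (t := fun j => (g i '' P ∩ g j '' P).extremePoints ℝ)
    fun j hj => ?_).subset ?_
  · exact (ext_le_two (collinear_of ((conv_im (g i) h.conv).inter (conv_im (g j) h.conv))
      (inter_int h (Ne.symm hj.1)))).1
  · intro x hx
    obtain ⟨j, hji, hj⟩ := front_other h (ext_front h i hx)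
    simp only [mem_iUnion]
    refine ⟨j, ⟨hji, x, hj, hsub hx.1⟩, ?_⟩
    exact inter_extremePoints_subset_extremePoints_of_subset inter_subset_left ⟨⟨hx.1, hj⟩, hx⟩

theorem poly (h : Tiling P g) : Poly P := by
  have hne : (⋃ i, g i '' P).Nonempty := by
    rw [h.cov]
    exact univ_nonempty
  obtain ⟨x, hx⟩ := hne
  obtain ⟨i, _⟩ := mem_iUnion.1 hx
  have h1 := (poly_t h i).fin
  rw [ext_im] at h1
  exact ⟨h.conv, h.comp, h.int, h1.of_finite_image (g i).injective.injOn⟩

end Pool.Agent.Work.MP_bd00dd_co
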