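import Pool.Agent.Work.MP_bd00dd_co.G.Hull

/-!
Faces and sides of a convex polygon Q.
-/

namespace Pool.Agent.Work.MP_bd00dd_co

open MeasureTheory Metric Set

/-! ### Auxiliary facts (also used in Corner, Ang, AngSum) -/

/-- The functional `cross w`. -/
noncomputable def face_cr (w : Pl) : Pl →L[ℝ] ℝ :=
  LinearMap.toContinuousLinearMap
    { toFun := fun u => cross w u
      map_add' := fun u v => by simp only [cross, PiLp.add_apply]; ring
      map_smul' := fun c u => by
        simp only [cross, PiLp.smul_apply, smul_eq_mul, RingHom.id_apply]; ring }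

theorem face_cr_apply (w u : Pl) : face_cr w u = cross w u := rfl

theorem face_ext {u v : Pl} (h0 : u 0 = v 0) (h1 : u 1 = v 1) : u = v := by
  ext i
  fin_cases i
  · exact h0
  · exact h1

theorem face_ne {u : Pl} (h : u ≠ 0) : 0 < u 0 * u 0 + u 1 * u 1 := by
  by_contra hc
  push Not at hc
  have h0 : u 0 = 0 := by nlinarith [mul_self_nonneg (u 0), mul_self_nonneg (u 1)]
  have h1 : u 1 = 0 := by nlinarith [mul_self_nonneg (u 0), mul_self_nonneg (u 1)]
  exact h (face_ext (by simpa using h0) (by simpa using h1))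

/-- Every functional is of the form `cross w`. -/
theorem face_repr (f : Pl →L[ℝ] ℝ) : ∃ w : Pl, ∀ u, f u = cross w u := by
  refine ⟨!₂[f (EuclideanSpace.single 1 1), - f (EuclideanSpace.single 0 1)], fun u => ?_⟩
  have hu : u = u 0 • EuclideanSpace.single (0 : Fin 2) (1 : ℝ) +
      u 1 • EuclideanSpace.single (1 : Fin 2) (1 : ℝ) := by
    apply face_ext <;> simp
  conv_lhs => rw [hu]
  rw [map_add, map_smul, map_smul]
  simp only [cross, smul_eq_mul, Matrix.cons_val_zero, Matrix.cons_val_one]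
  ring

theorem face_cr_ne {w : Pl} (hw : w ≠ 0) : face_cr w ≠ 0 := by
  intro h
  have h1 : face_cr w !₂[- w 1, w 0] = 0 := by rw [h]; rfl
  rw [face_cr_apply] at h1
  simp only [cross, Matrix.cons_val_zero, Matrix.cons_val_one] at h1
  have := face_ne hw
  nlinarith

theorem face_repr_ne {f : Pl →L[ℝ] ℝ} (hf : f ≠ 0) {w : Pl} (hw : ∀ u, f u = cross w u) :
    w ≠ 0 := by
  rintro rfl
  apply hf
  ext u
  rw [hw u]
  simp [cross]

/-- Two vectors with cross product zero are proportional. -/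
theorem face_prop {d u : Pl} (hd : d ≠ 0) (h : cross d u = 0) : ∃ r : ℝ, u = r • d := by
  have hp := face_ne hd
  refine ⟨(u 0 * d 0 + u 1 * d 1) / (d 0 * d 0 + d 1 * d 1), ?_⟩
  simp only [cross] at h
  apply face_ext
  · simp only [PiLp.smul_apply, smul_eq_mul]
    rw [div_mul_eq_mul_div, eq_div_iff hp.ne']
    linear_combination (- d 1) * h
  · simp only [PiLp.smul_apply, smul_eq_mul]
    rw [div_mul_eq_mul_div, eq_div_iff hp.ne']
    linear_combination (d 0) * h

/-- The kernel of a nonzero functional is a line. -/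
theorem face_ker {f : Pl →L[ℝ] ℝ} (hf : f ≠ 0) {d u : Pl} (hd : d ≠ 0) (h1 : f d = 0)
    (h2 : f u = 0) : ∃ r : ℝ, u = r • d := by
  obtain ⟨w, hw⟩ := face_repr f
  have hw0 := face_repr_ne hf hw
  rw [hw] at h1 h2
  obtain ⟨a, ha⟩ := face_prop hw0 h1
  obtain ⟨b, hb⟩ := face_prop hw0 h2
  have ha0 : a ≠ 0 := by
    rintro rfl
    rw [zero_smul] at ha
    exact hd ha
  refine ⟨b / a, ?_⟩
  rw [ha, hb, smul_smul, div_mul_cancel₀ _ ha0]

/-- A point of an open segment, its value under an affine function. -/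
theorem face_open_eq {f : Pl →L[ℝ] ℝ} {a b x : Pl} (hx : x ∈ openSegment ℝ a b)
    (ha : f a ≤ f x) (hb : f b ≤ f x) : f a = f x ∧ f b = f x := by
  obtain ⟨s, t, hs, ht, hst, rfl⟩ := hx
  have h1 : f (s • a + t • b) = s * f a + t * f b := by
    rw [map_add, map_smul, map_smul]; rfl
  rw [h1] at ha hb ⊢
  have ht' : t = 1 - s := by linarith
  subst ht'
  constructor
  · nlinarith
  · nlinarith

theorem face_seg_eq {f : Pl →L[ℝ] ℝ} {a b x : Pl} {c : ℝ} (hx : x ∈ segment ℝ a b)
    (ha : f a = c) (hb : f b = c) : f x = c := by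
  obtain ⟨s, t, hs, ht, hst, rfl⟩ := hx
  rw [map_add, map_smul, map_smul, ha, hb, smul_eq_mul, smul_eq_mul, ← add_mul, hst, one_mul]

theorem face_open_of_seg {a b x : Pl} (hx : x ∈ segment ℝ a b) (ha : x ≠ a) (hb : x ≠ b) :
    x ∈ openSegment ℝ a b := by
  rw [← insert_endpoints_openSegment] at hx
  rcases hx with h | h | h
  · exact absurd h ha
  · exact absurd h hb
  · exact h

theorem face_side_mem {Q : Set Pl} {p q : Pl} (hs : IsSide Q p q) : p ∈ Q ∧ q ∈ Q :=
  ⟨extremePoints_subset hs.1, extremePoints_subset hs.2.1⟩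

theorem face_side_sub {Q : Set Pl} (h : Poly Q) {p q : Pl} (hs : IsSide Q p q) :
    segment ℝ p q ⊆ Q := h.conv.segment_subset (face_side_mem hs).1 (face_side_mem hs).2

theorem face_side_symm {Q : Set Pl} {p q : Pl} (hs : IsSide Q p q) : IsSide Q q p :=
  ⟨hs.2.1, hs.1, hs.2.2.1.symm, by rw [segment_symm]; exact hs.2.2.2⟩

/-- Supporting line at a frontier point (geometric_hahn_banach_open_point for interior Q,
Convex.closure_interior_eq_closure_of_nonempty_interior; Q is closed). -/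
theorem support {Q : Set Pl} (h : Poly Q) {x : Pl} (hx : x ∈ frontier Q) :
    ∃ f : Pl →L[ℝ] ℝ, f ≠ 0 ∧ ∀ y ∈ Q, f y ≤ f x := by
  obtain ⟨f, hf⟩ := geometric_hahn_banach_open_point h.conv.interior isOpen_interior hx.2
  refine ⟨f, ?_, fun y hy => ?_⟩
  · rintro rfl
    obtain ⟨z, hz⟩ := h.int
    exact lt_irrefl _ (hf z hz)
  · have h1 : y ∈ closure (interior Q) := by
      rw [h.conv.closure_interior_eq_closure_of_nonempty_interior h.int]
      exact subset_closure hy
    have h2 : closure (interior Q) ⊆ {y | f y ≤ f x} :=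
      closure_minimal (fun z hz => (hf z hz).le) (isClosed_le f.continuous continuous_const)
    exact h2 h1

/-- A point of Q where a nonzero linear functional is maximal on Q is in the frontier. -/
theorem front_of {Q : Set Pl} (h : Poly Q) {f : Pl →L[ℝ] ℝ} (hf : f ≠ 0) {x : Pl} (hx : x ∈ Q)
    (hm : ∀ y ∈ Q, f y ≤ f x) : x ∈ frontier Q := by
  refine ⟨subset_closure hx, fun hint => ?_⟩
  have h1 : ∃ w : Pl, 0 < f w := by
    by_contra hc
    push Not at hc
    apply hf
    ext w
    have h2 := hc w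
    have h3 := hc (-w)
    rw [map_neg] at h3
    show f w = 0
    linarith
  obtain ⟨w, hw⟩ := h1
  have h2 : ContinuousAt (fun t : ℝ => x + t • w) 0 := by fun_prop
  have h3 : Q ∈ nhds (x + (0 : ℝ) • w) := by
    rw [zero_smul, add_zero]; exact mem_interior_iff_mem_nhds.mp hint
  have h4 := h2.eventually h3
  obtain ⟨ε, hε, h5⟩ := Metric.eventually_nhds_iff.mp h4
  have h6 := h5 (y := ε / 2) (by rw [Real.dist_eq, sub_zero, abs_of_pos (by linarith)]; linarith)
  have h7 := hm _ h6
  rw [map_add, map_smul, smul_eq_mul] at h7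
  nlinarith [mul_pos (half_pos hε) hw]

/-- The face of f: if it contains two different points x, y it is a side p q; it contains no
further corners. Proof: F = {z ∈ Q | f z = f x} is compact, convex, contained in a line (f ≠ 0); by
seg_of it is a segment p q with p, q extreme in F, hence extreme in Q (face); p ≠ q; all points of F
are in the frontier (front_of). -/
theorem face {Q : Set Pl} (h : Poly Q) {f : Pl →L[ℝ] ℝ} (hf : f ≠ 0) {x y : Pl} (hx : x ∈ Q)
    (hy : y ∈ Q) (hxy : x ≠ y) (hfxy : f x = f y) (hm : ∀ z ∈ Q, f z ≤ f x) :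
    ∃ p q, IsSide Q p q ∧ {z | z ∈ Q ∧ f z = f x} = segment ℝ p q := by
  set F : Set Pl := {z | z ∈ Q ∧ f z = f x} with hF
  have hFx : x ∈ F := ⟨hx, rfl⟩
  have hFy : y ∈ F := ⟨hy, hfxy.symm⟩
  have hconv : Convex ℝ F := by
    intro a ha b hb s t hs ht hst
    refine ⟨h.conv ha.1 hb.1 hs ht hst, ?_⟩
    rw [map_add, map_smul, map_smul, ha.2, hb.2, smul_eq_mul, smul_eq_mul, ← add_mul, hst, one_mul]
  have hcomp : IsCompact F :=
    h.comp.inter_right (isClosed_eq f.continuous continuous_const)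
  have hcol : Collinear ℝ F := by
    rw [collinear_iff_of_mem hFx]
    refine ⟨y - x, fun p hp => ?_⟩
    obtain ⟨r, hr⟩ := face_ker hf (sub_ne_zero.mpr hxy.symm) (by rw [map_sub, hfxy, sub_self])
      (show f (p - x) = 0 by rw [map_sub, hp.2, sub_self])
    refine ⟨r, ?_⟩
    rw [← hr, vadd_eq_add, sub_add_cancel]
  obtain ⟨p, q, hpq, hp, hq⟩ := seg_of hconv hcomp hcol ⟨x, hFx⟩
  have hext : ∀ z, z ∈ F.extremePoints ℝ → z ∈ Q.extremePoints ℝ := by
    intro z hz
    rw [mem_extremePoints] at hz ⊢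
    refine ⟨hz.1.1, fun a ha b hb hzab => ?_⟩
    have h1 := face_open_eq (f := f) hzab (by rw [hz.1.2]; exact hm a ha)
      (by rw [hz.1.2]; exact hm b hb)
    exact hz.2 a ⟨ha, h1.1.trans hz.1.2⟩ b ⟨hb, h1.2.trans hz.1.2⟩ hzab
  refine ⟨p, q, ⟨hext p hp, hext q hq, ?_, ?_⟩, hpq⟩
  · rintro rfl
    rw [segment_same] at hpq
    rw [hpq] at hFx hFy
    exact hxy (hFx.trans hFy.symm)
  · intro z hz
    rw [← hpq] at hz
    exact front_of h hf hz.1 (fun w hw => by rw [hz.2]; exact hm w hw)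

/-- A segment in the frontier: a functional which is maximal on it. -/
theorem face_fun {Q : Set Pl} (h : Poly Q) {a b : Pl} (hs : segment ℝ a b ⊆ frontier Q) :
    ∃ f : Pl →L[ℝ] ℝ, f ≠ 0 ∧ (∀ y ∈ Q, f y ≤ f a) ∧ f a = f b := by
  have hm : midpoint ℝ a b ∈ segment ℝ a b := midpoint_mem_segment a b
  obtain ⟨f, hf, hmax⟩ := support h (hs hm)
  have hcl : IsClosed Q := h.comp.isClosed
  have ha : a ∈ Q := hcl.frontier_subset (hs (left_mem_segment ℝ a b))
  have hb : b ∈ Q := hcl.frontier_subset (hs (right_mem_segment ℝ a b))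
  have h1 : f (midpoint ℝ a b) = (f a + f b) / 2 := by
    rw [midpoint_eq_smul_add, map_smul, map_add, smul_eq_mul]
    norm_num
    ring
  have h2 := hmax a ha
  have h3 := hmax b hb
  rw [h1] at h2 h3
  have hab : f a = f b := by linarith
  refine ⟨f, hf, fun y hy => ?_, hab⟩
  have := hmax y hy
  rw [h1] at this
  linarith

/-- A segment in the frontier lies in a side. Proof: support at the midpoint m: f a, f b <= f m and
their mean is f m, so a, b are in the face; face. -/
theorem seg_front {Q : Set Pl} (h : Poly Q) {a b : Pl} (hab : a ≠ b)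
    (hs : segment ℝ a b ⊆ frontier Q) :
    ∃ p q, IsSide Q p q ∧ a ∈ segment ℝ p q ∧ b ∈ segment ℝ p q := by
  obtain ⟨f, hf, hmax, hfab⟩ := face_fun h hs
  have hcl : IsClosed Q := h.comp.isClosed
  have ha : a ∈ Q := hcl.frontier_subset (hs (left_mem_segment ℝ a b))
  have hb : b ∈ Q := hcl.frontier_subset (hs (right_mem_segment ℝ a b))
  obtain ⟨p, q, hpq, hF⟩ := face h hf ha hb hab hfab hmax
  refine ⟨p, q, hpq, ?_, ?_⟩
  · rw [← hF]; exact ⟨ha, rfl⟩
  · rw [← hF]; exact ⟨hb, hfab.symm⟩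

/-- A frontier point is a corner or lies inside a side. Proof: support gives f; let F be the face
of x; if x is not extreme in Q then x is in an open segment of points x1, x2 of Q different from x,
f x1 = f x2 = f x; face gives a side p q which contains x, and x ≠ p, q as x is not extreme. -/
theorem front_cases {Q : Set Pl} (h : Poly Q) {x : Pl} (hx : x ∈ frontier Q) :
    x ∈ Q.extremePoints ℝ ∨ ∃ p q, IsSide Q p q ∧ x ∈ openSegment ℝ p q := by
  by_cases he : x ∈ Q.extremePoints ℝ
  · exact Or.inl he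
  right
  have hxQ : x ∈ Q := h.comp.isClosed.frontier_subset hx
  obtain ⟨f, hf, hmax⟩ := support h hx
  have h1 : ∃ x₁ ∈ Q, ∃ x₂ ∈ Q, x ∈ openSegment ℝ x₁ x₂ ∧ ¬ (x₁ = x ∧ x₂ = x) := by
    by_contra hc
    push Not at hc
    apply he
    rw [mem_extremePoints]
    exact ⟨hxQ, fun a ha b hb hab => hc a ha b hb hab⟩
  obtain ⟨x₁, hx₁, x₂, hx₂, hseg, hne⟩ := h1
  obtain ⟨e1, e2⟩ := face_open_eq hseg (hmax x₁ hx₁) (hmax x₂ hx₂)
  have h2 : ∃ y ∈ Q, x ≠ y ∧ f x = f y := by
    by_cases h3 : x₁ = x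
    · exact ⟨x₂, hx₂, fun h4 => hne ⟨h3, h4.symm⟩, e2.symm⟩
    · exact ⟨x₁, hx₁, fun h4 => h3 h4.symm, e1.symm⟩
  obtain ⟨y, hy, hxy, hfxy⟩ := h2
  obtain ⟨p, q, hpq, hF⟩ := face h hf hxQ hy hxy hfxy hmax
  refine ⟨p, q, hpq, face_open_of_seg ?_ ?_ ?_⟩
  · rw [← hF]; exact ⟨hxQ, rfl⟩
  · rintro rfl; exact he hpq.1
  · rintro rfl; exact he hpq.2.1

/-- Points of Q on the line of a side are on the side (p and q are extreme). -/
theorem side_line {Q : Set Pl} {p q : Pl} (hs : IsSide Q p q) {t : ℝ}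
    (ht : p + t • (q - p) ∈ Q) : 0 ≤ t ∧ t ≤ 1 := by
  obtain ⟨hp, hq, hne, _⟩ := hs
  rw [mem_extremePoints] at hp hq
  constructor
  · by_contra hc
    push Not at hc
    have h2 : (1 - t) ≠ 0 := by linarith
    have h1 : p ∈ openSegment ℝ (p + t • (q - p)) q := by
      refine ⟨1 / (1 - t), -t / (1 - t), by apply div_pos <;> linarith,
        by apply div_pos <;> linarith, by rw [← add_div, div_eq_one_iff_eq h2]; ring, ?_⟩
      apply face_ext <;>
      · simp only [PiLp.add_apply, PiLp.smul_apply, PiLp.sub_apply, smul_eq_mul]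
        field_simp
        ring
    exact hne (hp.2 _ ht q hq.1 h1).2.symm
  · by_contra hc
    push Not at hc
    have h2 : t ≠ 0 := by linarith
    have h1 : q ∈ openSegment ℝ p (p + t • (q - p)) := by
      refine ⟨(t - 1) / t, 1 / t, by apply div_pos <;> linarith,
        by apply div_pos <;> linarith, by rw [← add_div, div_eq_one_iff_eq h2]; ring, ?_⟩
      apply face_ext <;>
      · simp only [PiLp.add_apply, PiLp.smul_apply, PiLp.sub_apply, smul_eq_mul]
        field_simp
        ring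
    exact hne (hq.2 p hp.1 _ ht h1).1

/-- A corner on a side is one of its ends (it is extreme in Q). -/
theorem ext_side {Q : Set Pl} (h : Poly Q) {p q x : Pl} (hs : IsSide Q p q)
    (hx : x ∈ segment ℝ p q) (he : x ∈ Q.extremePoints ℝ) : x = p ∨ x = q := by
  by_contra hc
  push Not at hc
  have h1 := face_open_of_seg hx hc.1 hc.2
  rw [mem_extremePoints] at he
  exact hc.1 (he.2 p (face_side_mem hs).1 q (face_side_mem hs).2 h1).1.symm

/-- Two sides with a common point which is inside one of them are equal. Proof: seg_front (its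
proof) for the side p' q' gives f with maximal value on p' q' ∋ x; x is inside p q, so f is maximal
at p, q too; face and ext_side. -/
theorem side_unique {Q : Set Pl} (h : Poly Q) {p q p' q' x : Pl} (hs : IsSide Q p q)
    (hs' : IsSide Q p' q') (hx : x ∈ openSegment ℝ p q) (hx' : x ∈ segment ℝ p' q') :
    (p = p' ∧ q = q') ∨ (p = q' ∧ q = p') := by
  obtain ⟨f, hf, hmax, hf'⟩ := face_fun h hs'.2.2.2
  obtain ⟨hp, hq⟩ := face_side_mem hs
  obtain ⟨hp', hq'⟩ := face_side_mem hs'
  have hfx : f x = f p' := face_seg_eq hx' rfl hf'.symm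
  obtain ⟨e1, e2⟩ := face_open_eq (f := f) hx (by rw [hfx]; exact hmax p hp)
    (by rw [hfx]; exact hmax q hq)
  obtain ⟨P, R, hPR, hF⟩ := face h hf hp' hq' hs'.2.2.1 hf' hmax
  have k1 : p ∈ segment ℝ P R := by rw [← hF]; exact ⟨hp, e1.trans hfx⟩
  have k2 : q ∈ segment ℝ P R := by rw [← hF]; exact ⟨hq, e2.trans hfx⟩
  have k3 : p' ∈ segment ℝ P R := by rw [← hF]; exact ⟨hp', rfl⟩
  have k4 : q' ∈ segment ℝ P R := by rw [← hF]; exact ⟨hq', hf'.symm⟩
  have l1 := ext_side h hPR k1 hs.1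
  have l2 := ext_side h hPR k2 hs.2.1
  have l3 := ext_side h hPR k3 hs'.1
  have l4 := ext_side h hPR k4 hs'.2.1
  have n1 := hs.2.2.1
  have n2 := hs'.2.2.1
  rcases l1 with l1 | l1 <;> rcases l2 with l2 | l2 <;> rcases l3 with l3 | l3 <;>
    rcases l4 with l4 | l4 <;>
    first
      | exact absurd (l1.trans l2.symm) n1
      | exact absurd (l3.trans l4.symm) n2
      | exact Or.inl ⟨l1.trans l3.symm, l2.trans l4.symm⟩
      | exact Or.inr ⟨l1.trans l4.symm, l2.trans l3.symm⟩

end Pool.Agent.Work.MP_bd00dd_co
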