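import Pool.Agent.Work.MP_bd00dd_co.G.Vx

/-!
The intersection of two tiles is empty, a vertex, or a segment between two vertices.

Proof. K = T i ∩ T j, i ≠ j, nonempty, compact, convex, on a line (inter_int, collinear_of); seg_of:
K = segment a b, with a = b or a ≠ b.
CLAIM: an end a of K has degree >= 3. Suppose not: i, j are the only tiles at a (degree 2), and a is
not a corner of T i (two_flat), so a is inside a side p q of T i (front_cases, inter_front).
By near, every point y of p q close to a is only in tiles which contain a, i.e. in T i or T j; since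
y is in the frontier of T i it is also in another tile (front_other), so y ∈ T j, y ∈ K. So K
contains a neighbourhood of a in p q. If a = b this is a contradiction. If a ≠ b: segment a b is in
the frontier of T i (inter_front), so in a side (seg_front), which is p q (side_unique at a); points
y beyond a on the line are in K: contradiction.
If a ≠ b and x ∈ openSegment a b: x is not a corner of T i or T j, so Thr x = {i, j} (deg_two).
-/

namespace Pool.Agent.Work.MP_bd00dd_co

open MeasureTheory Metric Set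

variable {ι : Type*} {P : Set Pl} {g : ι → Pl ≃ᵢ Pl}

theorem inter_ext_deg (h : Tiling P g) {i j : ι} (hij : i ≠ j) {a : Pl}
    (ha : a ∈ (g i '' P ∩ g j '' P).extremePoints ℝ) : 3 ≤ (Thr P g a).ncard := by
  by_contra hlt
  push Not at hlt
  have hi : a ∈ g i '' P := ha.1.1
  have hj : a ∈ g j '' P := ha.1.2
  have hsub : ({i, j} : Set ι) ⊆ Thr P g a := by
    intro k hk
    simp only [mem_insert_iff, mem_singleton_iff] at hk
    rcases hk with rfl | rfl
    · exact hi
    · exact hj
  have hThr : ({i, j} : Set ι) = Thr P g a :=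
    eq_of_subset_of_ncard_le hsub (by rw [ncard_pair hij]; omega) (thr_fin h a)
  have hni : a ∉ (g i '' P).extremePoints ℝ := by
    apply two_flat h _ hi
    rw [← hThr, ncard_pair hij]
  rcases front_cases (poly_t h i) (inter_front h hij hi hj) with hc | ⟨p, q, hpq, hx⟩
  · exact hni hc
  obtain ⟨r, hr, hn⟩ := near h a
  have key : ∀ y ∈ segment ℝ p q, y ∈ ball a r → y ∈ g i '' P ∩ g j '' P := by
    intro y hy hyr
    have hf : y ∈ frontier (g i '' P) := hpq.2.2.2 hy
    obtain ⟨k, hki, hk⟩ := front_other h hf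
    have hka : k ∈ Thr P g a := hn k ⟨y, hk, hyr⟩
    rw [← hThr] at hka
    simp only [mem_insert_iff, mem_singleton_iff] at hka
    rcases hka with rfl | rfl
    · exact absurd rfl hki
    · exact ⟨(tile_closed h i).frontier_subset hf, hk⟩
  rw [openSegment_eq_image'] at hx
  obtain ⟨t, ⟨ht0, ht1⟩, rfl⟩ := hx
  have hN : 0 < ‖q - p‖ + 1 := by positivity
  obtain ⟨ε, hε, h1, h2, h3⟩ : ∃ ε : ℝ, 0 < ε ∧ ε < t ∧ ε < 1 - t ∧ ε * ‖q - p‖ < r := by
    refine ⟨min (min t (1 - t)) (r / (‖q - p‖ + 1)) / 2, ?_, ?_, ?_, ?_⟩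
    · have : 0 < 1 - t := by linarith
      positivity
    · have := min_le_left (min t (1 - t)) (r / (‖q - p‖ + 1))
      have := min_le_left t (1 - t)
      linarith
    · have := min_le_left (min t (1 - t)) (r / (‖q - p‖ + 1))
      have := min_le_right t (1 - t)
      linarith
    · have h4 := min_le_right (min t (1 - t)) (r / (‖q - p‖ + 1))
      have h5 : 0 < r / (‖q - p‖ + 1) := by positivity
      have h6 : r / (‖q - p‖ + 1) * (‖q - p‖ + 1) = r := div_mul_cancel₀ _ hN.ne'
      nlinarith [norm_nonneg (q - p)]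
  have hmem : ∀ s : ℝ, |s| = ε → p + (t + s) • (q - p) ∈ g i '' P ∩ g j '' P := by
    intro s hs
    have hs1 : -ε ≤ s := by rw [← hs]; exact neg_abs_le s
    have hs2 : s ≤ ε := by rw [← hs]; exact le_abs_self s
    apply key
    · rw [segment_eq_image']
      exact ⟨t + s, ⟨by linarith, by linarith⟩, rfl⟩
    · rw [mem_ball, dist_eq_norm]
      have : p + (t + s) • (q - p) - (p + t • (q - p)) = s • (q - p) := by
        rw [add_smul]; abel
      rw [this, norm_smul, Real.norm_eq_abs, hs]
      exact h3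
  have hm1 := hmem (-ε) (by rw [abs_neg, abs_of_pos hε])
  have hm2 := hmem ε (abs_of_pos hε)
  rw [mem_extremePoints] at ha
  have ho : p + t • (q - p) ∈ openSegment ℝ (p + (t + -ε) • (q - p)) (p + (t + ε) • (q - p)) := by
    refine ⟨1 / 2, 1 / 2, by norm_num, by norm_num, by norm_num, ?_⟩
    module
  have heq := (ha.2 _ hm1 _ hm2 ho).1
  have h7 : ε • (q - p) = 0 := by
    have : p + t • (q - p) - (p + (t + -ε) • (q - p)) = ε • (q - p) := by module
    rw [← this, heq, sub_self]
  rcases smul_eq_zero.1 h7 with h8 | h8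
  · exact hε.ne' h8
  · exact hpq.2.2.1 (sub_eq_zero.1 h8).symm

theorem not_ext_of_open {K : Set Pl} {a b x : Pl} (ha : a ∈ K) (hb : b ∈ K) (hab : a ≠ b)
    (hx : x ∈ openSegment ℝ a b) : x ∉ K.extremePoints ℝ := by
  intro he
  rw [mem_extremePoints] at he
  obtain ⟨h1, h2⟩ := he.2 a ha b hb hx
  exact hab (h1.trans h2.symm)

theorem inter_cases (h : Tiling P g) {i j : ι} (hij : i ≠ j)
    (hne : (g i '' P ∩ g j '' P).Nonempty) :
    ∃ a b, g i '' P ∩ g j '' P = segment ℝ a b ∧ 3 ≤ (Thr P g a).ncard ∧
      3 ≤ (Thr P g b).ncard ∧ ∀ x ∈ openSegment ℝ a b, a ≠ b → Thr P g x = {i, j} := by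
  have hconv : Convex ℝ (g i '' P ∩ g j '' P) := (conv_im (g i) h.conv).inter (conv_im (g j) h.conv)
  obtain ⟨a, b, hK, ha, hb⟩ := seg_of hconv ((tile_compact h i).inter (tile_compact h j))
    (collinear_of hconv (inter_int h hij)) hne
  refine ⟨a, b, hK, inter_ext_deg h hij ha, inter_ext_deg h hij hb, ?_⟩
  intro x hx hab
  have hxK : x ∈ g i '' P ∩ g j '' P := by
    rw [hK]
    exact openSegment_subset_segment ℝ _ _ hx
  exact deg_two h hij hxK.1 hxK.2 (not_ext_of_open ha.1.1 hb.1.1 hab hx)
    (not_ext_of_open ha.1.2 hb.1.2 hab hx)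

end Pool.Agent.Work.MP_bd00dd_co
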