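import Pool.Agent.Work.MP_bd00dd_co.Defs

/-!
Isometries of the plane. A bijective isometry g is affine (IsometryEquiv.toRealAffineIsometryEquiv,
with coe lemma IsometryEquiv.coeFn_toRealAffineIsometryEquiv), i.e. g x = L x + g 0 with a linear
isometry L.
-/

namespace Pool.Agent.Work.MP_bd00dd_co

open MeasureTheory Metric Set

/-- There is a linear isometry L with g (x + u) = g x + L u. -/
theorem iso_lin (g : Pl ≃ᵢ Pl) : ∃ L : Pl ≃ₗᵢ[ℝ] Pl, ∀ x u, g (x + u) = g x + L u := by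
  refine ⟨g.toRealAffineIsometryEquiv.linearIsometryEquiv, fun x u => ?_⟩
  have h := g.toRealAffineIsometryEquiv.map_vadd x u
  rw [IsometryEquiv.coeFn_toRealAffineIsometryEquiv] at h
  simp only [vadd_eq_add] at h
  rw [add_comm x u, h, add_comm]

/-- Volume is invariant (LinearIsometryEquiv.measurePreserving and translations). -/
theorem vol_im (g : Pl ≃ᵢ Pl) (s : Set Pl) : volume (g '' s) = volume s := by
  obtain ⟨L, hL⟩ := iso_lin g
  have h : g '' s = (fun x => g 0 + x) '' (L '' s) := by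
    rw [image_image]
    refine image_congr fun x _ => ?_
    have := hL 0 x
    rwa [zero_add] at this
  rw [h, image_add_left, measure_preimage_add]
  have h3 : L '' s = L.symm ⁻¹' s := L.toEquiv.image_eq_preimage_symm s
  rw [h3]
  have h2 := L.symm.measurePreserving
  exact h2.measure_preimage_emb L.symm.toHomeomorph.measurableEmbedding s

/-- The affine map behind an isometry. -/
theorem iso_aff (g : Pl ≃ᵢ Pl) : ∃ f : Pl →ᵃ[ℝ] Pl, ⇑f = ⇑g := by
  refine ⟨g.toRealAffineIsometryEquiv.toAffineEquiv.toAffineMap, ?_⟩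
  ext x
  simp

theorem seg_im (g : Pl ≃ᵢ Pl) (a b : Pl) : g '' segment ℝ a b = segment ℝ (g a) (g b) := by
  obtain ⟨f, hf⟩ := iso_aff g
  rw [← hf]
  exact image_segment ℝ f a b

theorem oseg_im (g : Pl ≃ᵢ Pl) (a b : Pl) :
    g '' openSegment ℝ a b = openSegment ℝ (g a) (g b) := by
  obtain ⟨f, hf⟩ := iso_aff g
  rw [← hf]
  exact image_openSegment ℝ f a b

theorem conv_im (g : Pl ≃ᵢ Pl) {Q : Set Pl} (h : Convex ℝ Q) : Convex ℝ (g '' Q) := by
  obtain ⟨f, hf⟩ := iso_aff g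
  rw [← hf]
  exact h.affine_image f

theorem ext_im_sub (g : Pl ≃ᵢ Pl) (Q : Set Pl) :
    g '' Q.extremePoints ℝ ⊆ (g '' Q).extremePoints ℝ := by
  rintro _ ⟨x, hx, rfl⟩
  rw [mem_extremePoints] at hx ⊢
  refine ⟨mem_image_of_mem _ hx.1, ?_⟩
  rintro _ ⟨y, hy, rfl⟩ _ ⟨z, hz, rfl⟩ hyz
  rw [← oseg_im] at hyz
  obtain ⟨w, hw, hwx⟩ := hyz
  rw [g.injective hwx] at hw
  obtain ⟨h1, h2⟩ := hx.2 y hy z hz hw
  exact ⟨by rw [h1], by rw [h2]⟩

theorem ext_im (g : Pl ≃ᵢ Pl) (Q : Set Pl) :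
    (g '' Q).extremePoints ℝ = g '' Q.extremePoints ℝ := by
  refine Subset.antisymm ?_ (ext_im_sub g Q)
  have h := ext_im_sub g.symm (g '' Q)
  rw [image_image] at h
  simp only [IsometryEquiv.symm_apply_apply, image_id'] at h
  intro x hx
  exact ⟨g.symm x, h (mem_image_of_mem _ hx), g.apply_symm_apply x⟩

theorem poly_im (g : Pl ≃ᵢ Pl) {Q : Set Pl} (h : Poly Q) : Poly (g '' Q) := by
  refine ⟨conv_im g h.conv, h.comp.image g.continuous, ?_, ?_⟩
  · have := g.toHomeomorph.image_interior Q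
    rw [IsometryEquiv.coe_toHomeomorph] at this
    rw [← this]
    exact h.int.image _
  · rw [ext_im]
    exact h.fin.image _

theorem side_im_aux (g : Pl ≃ᵢ Pl) (Q : Set Pl) (p q : Pl) (h : IsSide Q p q) :
    IsSide (g '' Q) (g p) (g q) := by
  obtain ⟨h1, h2, h3, h4⟩ := h
  refine ⟨?_, ?_, g.injective.ne h3, ?_⟩
  · rw [ext_im]; exact mem_image_of_mem _ h1
  · rw [ext_im]; exact mem_image_of_mem _ h2
  · rw [← seg_im]
    have := g.toHomeomorph.image_frontier Q
    rw [IsometryEquiv.coe_toHomeomorph] at this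
    rw [← this]
    exact image_mono h4

theorem side_im (g : Pl ≃ᵢ Pl) (Q : Set Pl) (p q : Pl) :
    IsSide (g '' Q) (g p) (g q) ↔ IsSide Q p q := by
  refine ⟨fun h => ?_, side_im_aux g Q p q⟩
  have := side_im_aux g.symm _ _ _ h
  rw [image_image] at this
  simpa using this

end Pool.Agent.Work.MP_bd00dd_co
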