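import Pool.Agent.Work.MP_bd00dd_co.G.Iso

/-!
Local finiteness of the tiling (write T i for g i '' P).
-/

namespace Pool.Agent.Work.MP_bd00dd_co

open MeasureTheory Metric Set

variable {ι : Type*} {P : Set Pl} {g : ι → Pl ≃ᵢ Pl}

/-- The volume of the prototile is positive and finite. -/
theorem vol_pos (h : Tiling P g) : 0 < volume P ∧ volume P < ⊤ := by
  refine ⟨?_, h.comp.measure_lt_top⟩
  exact (isOpen_interior.measure_pos _ h.int).trans_le (measure_mono interior_subset)

theorem tile_compact (h : Tiling P g) (i : ι) : IsCompact (g i '' P) :=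
  h.comp.image (g i).continuous

theorem tile_closed (h : Tiling P g) (i : ι) : IsClosed (g i '' P) :=
  (tile_compact h i).isClosed

theorem tile_int (h : Tiling P g) (i : ι) : (interior (g i '' P)).Nonempty := by
  have := (g i).toHomeomorph.image_interior P
  rw [IsometryEquiv.coe_toHomeomorph] at this
  rw [← this]
  exact h.int.image _

theorem tile_vol_int (h : Tiling P g) (i : ι) : volume (interior (g i '' P)) = volume P := by
  rw [measure_interior_of_null_frontier ((conv_im (g i) h.conv).addHaar_frontier volume)]
  exact vol_im (g i) P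

/-- Number of tiles of a finite family contained in a measurable bounded set B: the interiors are
pairwise disjoint and have full measure in the tiles (Convex.addHaar_frontier). -/
theorem card_le (h : Tiling P g) (F : Finset ι) (B : Set Pl) (hB : ∀ i ∈ F, g i '' P ⊆ B) :
    (F.card : ENNReal) * volume P ≤ volume B := by
  have h1 : volume (⋃ i ∈ F, interior (g i '' P)) = ∑ i ∈ F, volume (interior (g i '' P)) := by
    apply measure_biUnion_finset
    · intro i _ j _ hij
      exact h.disj i j hij
    · intro i _
      exact isOpen_interior.measurableSet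
  have h2 : ∑ i ∈ F, volume (interior (g i '' P)) = (F.card : ENNReal) * volume P := by
    rw [Finset.sum_congr rfl fun i _ => tile_vol_int h i, Finset.sum_const, nsmul_eq_mul]
  rw [← h2, ← h1]
  apply measure_mono
  intro x hx
  simp only [mem_iUnion] at hx
  obtain ⟨i, hi, hx⟩ := hx
  exact hB i hi (interior_subset hx)

theorem tile_sub (h : Tiling P g) {i : ι} {x : Pl} {R : ℝ}
    (hi : (g i '' P ∩ closedBall x R).Nonempty) : g i '' P ⊆ closedBall x (R + diam P) := by
  obtain ⟨y, hy, hyx⟩ := hi
  intro z hz
  rw [mem_closedBall] at hyx ⊢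
  have h1 : dist z y ≤ diam (g i '' P) := dist_le_diam_of_mem (tile_compact h i).isBounded hz hy
  rw [(g i).isometry.diam_image] at h1
  have := dist_triangle z y x
  linarith

/-- Only finitely many tiles meet a ball: they are contained in a larger ball (the diameter of
every tile is that of P), use card_le. -/
theorem locfin (h : Tiling P g) (x : Pl) (R : ℝ) :
    {i | (g i '' P ∩ closedBall x R).Nonempty}.Finite := by
  by_contra hinf
  obtain ⟨n, hn⟩ := ENNReal.exists_nat_mul_gt (vol_pos h).1.ne'
    (measure_closedBall_lt_top (μ := (volume : Measure Pl)) (x := x) (r := R + diam P)).ne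
  obtain ⟨t, ht, hc⟩ := (show Set.Infinite _ from hinf).exists_subset_card_eq n
  have := card_le h t (closedBall x (R + diam P)) fun i hi => tile_sub h (ht hi)
  rw [hc] at this
  exact absurd hn (not_lt.2 this)

/-- Near x there are only tiles which contain x (the tiles are closed, locfin). -/
theorem near (h : Tiling P g) (x : Pl) :
    ∃ r : ℝ, 0 < r ∧ ∀ i, (g i '' P ∩ ball x r).Nonempty → x ∈ g i '' P := by
  have hf := (locfin h x 1).subset (t := {i | (g i '' P ∩ closedBall x 1).Nonempty ∧ x ∉ g i '' P})
    (fun i hi => hi.1)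
  have hop : IsOpen (ball x 1 ∩ ⋂ i ∈ {i | (g i '' P ∩ closedBall x 1).Nonempty ∧ x ∉ g i '' P},
      (g i '' P)ᶜ) := by
    apply isOpen_ball.inter
    exact hf.isOpen_biInter fun i _ => (tile_closed h i).isOpen_compl
  have hx : x ∈ ball x 1 ∩ ⋂ i ∈ {i | (g i '' P ∩ closedBall x 1).Nonempty ∧ x ∉ g i '' P},
      (g i '' P)ᶜ := by
    refine ⟨mem_ball_self one_pos, ?_⟩
    simp only [mem_iInter]
    intro i hi
    exact hi.2
  obtain ⟨r, hr, hs⟩ := Metric.isOpen_iff.1 hop x hx
  refine ⟨r, hr, fun i hi => ?_⟩
  by_contra hxi
  obtain ⟨y, hy, hyr⟩ := hi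
  have h1 := hs hyr
  have h2 := h1.2
  simp only [mem_iInter] at h2
  exact h2 i ⟨⟨y, hy, ball_subset_closedBall h1.1⟩, hxi⟩ hy

theorem thr_fin (h : Tiling P g) (x : Pl) : (Thr P g x).Finite := by
  refine (locfin h x 0).subset fun i hi => ?_
  exact ⟨x, hi, mem_closedBall_self le_rfl⟩

/-- Different tiles meet only in their frontiers: if x is in T j and in the interior of T i then
the interior of T j (dense in T j) meets the interior of T i. -/
theorem inter_front (h : Tiling P g) {i j : ι} (hij : i ≠ j) {x : Pl} (hi : x ∈ g i '' P)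
    (hj : x ∈ g j '' P) : x ∈ frontier (g i '' P) := by
  rw [(tile_closed h i).frontier_eq]
  refine ⟨hi, fun hint => ?_⟩
  have h1 : x ∈ closure (interior (g j '' P)) := by
    rw [(conv_im (g j) h.conv).closure_interior_eq_closure_of_nonempty_interior (tile_int h j)]
    exact subset_closure hj
  obtain ⟨y, hy1, hy2⟩ := mem_closure_iff.1 h1 _ isOpen_interior hint
  exact disjoint_left.1 (h.disj i j hij) hy1 hy2

/-- Every frontier point of a tile is in another tile: near x there are finitely many tiles, all
closed; if none of them except T i contains x then a ball around x is covered by T i. -/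
theorem front_other (h : Tiling P g) {i : ι} {x : Pl} (hx : x ∈ frontier (g i '' P)) :
    ∃ j, j ≠ i ∧ x ∈ g j '' P := by
  by_contra hno
  push Not at hno
  obtain ⟨r, hr, hn⟩ := near h x
  rw [(tile_closed h i).frontier_eq] at hx
  apply hx.2
  rw [mem_interior]
  refine ⟨ball x r, fun y hy => ?_, isOpen_ball, mem_ball_self hr⟩
  have hyu : y ∈ ⋃ i, g i '' P := by rw [h.cov]; trivial
  obtain ⟨k, hk⟩ := mem_iUnion.1 hyu
  have hki : k = i := by
    by_contra hki
    exact hno k hki (hn k ⟨y, hk, hy⟩)
  rw [← hki]
  exact hk

/-- The intersection of two different tiles has empty interior. -/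
theorem inter_int (h : Tiling P g) {i j : ι} (hij : i ≠ j) :
    interior (g i '' P ∩ g j '' P) = ∅ := by
  rw [interior_inter]
  exact (h.disj i j hij).inter_eq

end Pool.Agent.Work.MP_bd00dd_co
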