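import Pool.Agent.Work.MP_bd00dd_co.G.Edge

/-!
Partners along a ray which starts at a corner.
-/

namespace Pool.Agent.Work.MP_bd00dd_co

open MeasureTheory Metric Set

variable {ι : Type*} {P : Set Pl} {g : ι → Pl ≃ᵢ Pl}

theorem side_symm {Q : Set Pl} {p q : Pl} (h : IsSide Q p q) : IsSide Q q p :=
  ⟨h.2.1, h.1, h.2.2.1.symm, by rw [segment_symm]; exact h.2.2.2⟩

/-- Existence of the partner, when all tiles at v = g i s have corners there. Proof: first_edge for
the side g i s, g i t of T i at v (vx_corner) gives w; edge gives the tile j with T i ∩ T j =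
segment v w. This segment is in the frontier of T j (inter_front), so in a side p q of T j
(seg_front); v is a corner of T j, so v = p or v = q (ext_side; wlog v = p by segment_symm), write
p = g j s', q = g j t' (ext_im, side_im). SameRay: w - v is a nonnegative multiple of q - v and of
g i t - v, and it is not 0 (SameRay.trans). -/
theorem ray_ex (h : Tiling P g) (i : ι) (s t : Pl) (hst : IsSide P s t)
    (hc : ∀ j ∈ Thr P g (g i s), (g j).symm (g i s) ∈ P.extremePoints ℝ) :
    ∃ j s' t', Prt (IsSide P) g i s t j s' t' := by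
  have hs := (side_im (g i) P s t).2 hst
  have hv3 := vx_corner h (i := i) hs.1
  obtain ⟨w, hw, hwv, hw3, hno⟩ := first_edge h hs (left_mem_segment ℝ _ _) hs.2.2.1 hv3
  obtain ⟨j, hji, hK, _⟩ := edge h hs (left_mem_segment ℝ _ _) hw hwv.symm hv3 hw3 hno
  have hf : segment ℝ (g i s) w ⊆ frontier (g j '' P) := by
    intro y hy
    rw [← hK] at hy
    exact inter_front h hji hy.2 hy.1
  have hvj : g i s ∈ g j '' P := by
    have : g i s ∈ g i '' P ∩ g j '' P := by
      rw [hK]
      exact left_mem_segment ℝ _ _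
    exact this.2
  obtain ⟨p, q, hpq, hvp, hwp⟩ := seg_front (poly_t h j) hwv.symm hf
  have hvext : g i s ∈ (g j '' P).extremePoints ℝ := by
    rw [ext_im]
    exact ⟨_, hc j hvj, (g j).apply_symm_apply _⟩
  obtain ⟨q', hq', hwq⟩ : ∃ q', IsSide (g j '' P) (g i s) q' ∧ w ∈ segment ℝ (g i s) q' := by
    rcases ext_side (poly_t h j) hpq hvp hvext with he | he
    · exact ⟨q, by rw [he]; exact hpq, by rw [he]; exact hwp⟩
    · exact ⟨p, by rw [he]; exact side_symm hpq, by rw [he, segment_symm]; exact hwp⟩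
  refine ⟨j, (g j).symm (g i s), (g j).symm q', hji.symm, hst, ?_, ?_, ?_⟩
  · rw [← side_im (g j)]
    simpa using hq'
  · simp
  · rw [IsometryEquiv.apply_symm_apply, IsometryEquiv.apply_symm_apply]
    rw [segment_eq_image'] at hw hwq
    obtain ⟨a, ⟨ha0, _⟩, ha⟩ := hw
    obtain ⟨b, ⟨hb0, _⟩, hb⟩ := hwq
    simp only at ha hb
    have ha1 : a ≠ 0 := by
      rintro rfl
      apply hwv
      rw [← ha]
      simp
    have hb1 : b ≠ 0 := by
      rintro rfl
      apply hwv
      rw [← hb]
      simp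
    right
    right
    refine ⟨a, b, lt_of_le_of_ne ha0 (Ne.symm ha1), lt_of_le_of_ne hb0 (Ne.symm hb1), ?_⟩
    have := ha.trans hb.symm
    exact add_left_cancel this

/-- Uniqueness. Proof: let v = g i s. The vectors g i t - v, g j t' - v, g j' t'' - v have the same
direction and are not 0, so there is a point x in the three open segments from v to g i t, g j t',
g j' t''. If x were a corner of T i then it could not be in the open segment (ext_side or extremality);
the same for T j; so deg_two: Thr x = {i, j}, hence j' = j (j' ≠ i). Then s' = s'' (injectivity),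
and t' = t'' by side_unique at (g j).symm x (oseg_im). -/
theorem ray_un (h : Tiling P g) (i : ι) (s t : Pl) (j : ι) (s' t' : Pl) (j' : ι) (s'' t'' : Pl)
    (h1 : Prt (IsSide P) g i s t j s' t') (h2 : Prt (IsSide P) g i s t j' s'' t'') :
    j = j' ∧ s' = s'' ∧ t' = t'' := by
  obtain ⟨hij, hst, hst', hv', hr'⟩ := h1
  obtain ⟨hij', _, hst'', hv'', hr''⟩ := h2
  have hS := (side_im (g i) P s t).2 hst
  have hS' := (side_im (g j) P s' t').2 hst'
  have hS'' := (side_im (g j') P s'' t'').2 hst''
  have e1 : g i t - g i s ≠ 0 := sub_ne_zero.2 hS.2.2.1.symm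
  have e2 : g j t' - g j s' ≠ 0 := sub_ne_zero.2 hS'.2.2.1.symm
  have e3 : g j' t'' - g j' s'' ≠ 0 := sub_ne_zero.2 hS''.2.2.1.symm
  obtain ⟨r, hr, hre⟩ := hr'.exists_pos_left e1 e2
  obtain ⟨r2, hr2, hre2⟩ := hr''.exists_pos_left e1 e3
  obtain ⟨m, hm, hm1, hmr, hmr2⟩ : ∃ m : ℝ, 0 < m ∧ m < 1 ∧ m < r ∧ m < r2 := by
    refine ⟨min 1 (min r r2) / 2, by positivity, ?_, ?_, ?_⟩
    · have := min_le_left 1 (min r r2)
      linarith
    · have := (min_le_right 1 (min r r2)).trans (min_le_left r r2)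
      have h0 : 0 < min 1 (min r r2) := by positivity
      linarith
    · have := (min_le_right 1 (min r r2)).trans (min_le_right r r2)
      have h0 : 0 < min 1 (min r r2) := by positivity
      linarith
  obtain ⟨x, hx⟩ : ∃ x, x = g i s + m • (g i t - g i s) := ⟨_, rfl⟩
  have hx1 : x ∈ openSegment ℝ (g i s) (g i t) := by
    rw [openSegment_eq_image', hx]
    exact ⟨m, ⟨hm, hm1⟩, rfl⟩
  have hx2 : x ∈ openSegment ℝ (g j s') (g j t') := by
    rw [openSegment_eq_image', hx]
    refine ⟨m / r, ⟨by positivity, (div_lt_one hr).2 hmr⟩, ?_⟩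
    simp only
    rw [← hre, smul_smul, div_mul_cancel₀ _ hr.ne', hv']
  have hx3 : x ∈ openSegment ℝ (g j' s'') (g j' t'') := by
    rw [openSegment_eq_image', hx]
    refine ⟨m / r2, ⟨by positivity, (div_lt_one hr2).2 hmr2⟩, ?_⟩
    simp only
    rw [← hre2, smul_smul, div_mul_cancel₀ _ hr2.ne', hv'']
  have hxi : x ∈ g i '' P :=
    (conv_im (g i) h.conv).segment_subset hS.1.1 hS.2.1.1 (openSegment_subset_segment ℝ _ _ hx1)
  have hxj : x ∈ g j '' P :=
    (conv_im (g j) h.conv).segment_subset hS'.1.1 hS'.2.1.1 (openSegment_subset_segment ℝ _ _ hx2)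
  have hxj' : x ∈ g j' '' P := (conv_im (g j') h.conv).segment_subset hS''.1.1 hS''.2.1.1
    (openSegment_subset_segment ℝ _ _ hx3)
  have hT := deg_two h hij hxi hxj (not_ext_of_open hS.1.1 hS.2.1.1 hS.2.2.1 hx1)
    (not_ext_of_open hS'.1.1 hS'.2.1.1 hS'.2.2.1 hx2)
  have hj' : j' ∈ Thr P g x := hxj'
  rw [hT] at hj'
  simp only [mem_insert_iff, mem_singleton_iff] at hj'
  rcases hj' with hj' | hj'
  · exact absurd hj'.symm hij'
  subst hj'
  have hss : s' = s'' := (g j').injective (hv'.symm.trans hv'')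
  subst hss
  refine ⟨rfl, rfl, ?_⟩
  rcases side_unique (poly_t h j') hS' hS'' hx2 (openSegment_subset_segment ℝ _ _ hx3) with
    ⟨_, he⟩ | ⟨he, _⟩
  · exact (g j').injective he
  · exact absurd he hS''.2.2.1

end Pool.Agent.Work.MP_bd00dd_co
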