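import Pool.Agent.Work.MP_bd00dd_co.G.ExtFin
import Pool.Agent.Work.MP_bd00dd_co.G.Ang

/-!
The angles at every point of the plane have sum 2 (i.e. 2π).

Proof. Let x be a point, B the unit ball around 0. (1) The cones cone (T i) x, i ∈ Thr x, cover the
plane: for u take ε > 0 with x + ε u in the ball of near; it is in some tile T i, which contains x.
(2) For i ≠ j in Thr x the intersection of the two cones is contained in cone (T i ∩ T j) x
(take the smaller radius; the tiles are convex and contain x), and T i ∩ T j lies on a line through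
x (collinear_of, inter_int), so it is a null set (line_null). (3) The cones are null measurable
(cone_null); measure_biUnion_finset₀ gives ∑ vol(cone ∩ B) = vol B.
-/

namespace Pool.Agent.Work.MP_bd00dd_co

open MeasureTheory Metric Set

variable {ι : Type*} {P : Set Pl} {g : ι → Pl ≃ᵢ Pl}

/-- The cone of a convex set: one can take a smaller radius. -/
theorem cone_smaller {Q : Set Pl} (hQ : Convex ℝ Q) {x : Pl} (hx : x ∈ Q) {u : Pl} {r s : ℝ}
    (hs : 0 ≤ s) (hsr : s ≤ r) (hu : x + r • u ∈ Q) : x + s • u ∈ Q := by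
  rcases hs.eq_or_lt with rfl | hs0
  · simpa using hx
  have hr : 0 < r := lt_of_lt_of_le hs0 hsr
  have h1 := hQ.add_smul_mem hx hu (t := s / r) ⟨by positivity, (div_le_one hr).2 hsr⟩
  rw [smul_smul, div_mul_cancel₀ _ hr.ne'] at h1
  exact h1

theorem cone_inter {Q R : Set Pl} (hQ : Convex ℝ Q) (hR : Convex ℝ R) {x : Pl} (hxQ : x ∈ Q)
    (hxR : x ∈ R) : cone Q x ∩ cone R x ⊆ cone (Q ∩ R) x := by
  rintro u ⟨⟨r, hr, h1⟩, ⟨s, hs, h2⟩⟩
  refine ⟨min r s, lt_min hr hs, ?_, ?_⟩
  · exact cone_smaller hQ hxQ (lt_min hr hs).le (min_le_left _ _) h1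
  · exact cone_smaller hR hxR (lt_min hr hs).le (min_le_right _ _) h2

theorem cone_col_null {K : Set Pl} (hK : Collinear ℝ K) {x : Pl} (hx : x ∈ K) :
    volume (cone K x) = 0 := by
  obtain ⟨w, hw⟩ := (collinear_iff_of_mem hx).1 hK
  obtain ⟨w', hw', hK'⟩ : ∃ w' : Pl, w' ≠ 0 ∧ ∀ p ∈ K, ∃ r : ℝ, p = r • w' +ᵥ x := by
    by_cases h0 : w = 0
    · obtain ⟨w', hw'⟩ := exists_ne (0 : Pl)
      refine ⟨w', hw', fun p hp => ⟨0, ?_⟩⟩
      obtain ⟨r, hr⟩ := hw p hp
      rw [hr, h0]
      simp
    · exact ⟨w, h0, hw⟩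
  refine measure_mono_null ?_ (line_null hw')
  rintro u ⟨r, hr, hu⟩
  obtain ⟨t, ht⟩ := hK' _ hu
  have h1 : r • u = t • w' := by
    rw [vadd_eq_add, add_comm] at ht
    exact add_right_cancel ht
  have h2 : u = (t / r) • w' := by
    rw [div_eq_inv_mul, mul_smul, ← h1, smul_smul, inv_mul_cancel₀ hr.ne', one_smul]
  show cross w' u = 0
  rw [h2]
  unfold cross
  simp only [PiLp.smul_apply, smul_eq_mul]
  ring

theorem total (h : Tiling P g) (x : Pl) :
    ∑ i ∈ (thr_fin h x).toFinset, ang (g i '' P) x = 2 := by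
  have hcov : (⋃ i ∈ (thr_fin h x).toFinset, (cone (g i '' P) x ∩ ball 0 1)) = ball 0 1 := by
    ext u
    simp only [mem_iUnion, mem_inter_iff, exists_prop, Finite.mem_toFinset]
    constructor
    · rintro ⟨i, _, _, hu⟩
      exact hu
    · intro hu
      obtain ⟨r, hr, hn⟩ := near h x
      have hmem : x + (r / 2) • u ∈ ball x r := by
        rw [mem_ball, dist_eq_norm, add_sub_cancel_left, norm_smul, Real.norm_of_nonneg (by positivity)]
        rw [mem_ball_zero_iff] at hu
        nlinarith [norm_nonneg u]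
      have hyu : x + (r / 2) • u ∈ ⋃ i, g i '' P := by rw [h.cov]; trivial
      obtain ⟨k, hk⟩ := mem_iUnion.1 hyu
      refine ⟨k, hn k ⟨_, hk, hmem⟩, ⟨r / 2, by positivity, hk⟩, hu⟩
  have hmeas : volume (ball (0 : Pl) 1) =
      ∑ i ∈ (thr_fin h x).toFinset, volume (cone (g i '' P) x ∩ ball 0 1) := by
    refine (congrArg volume hcov).symm.trans ?_
    apply measure_biUnion_finset₀
    · intro i hi j hj hij
      simp only [Finset.mem_coe, Finite.mem_toFinset] at hi hj
      show volume _ = 0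
      have hnull := cone_col_null (collinear_of ((conv_im (g i) h.conv).inter
        (conv_im (g j) h.conv)) (inter_int h hij)) (x := x) ⟨hi, hj⟩
      refine measure_mono_null ?_ hnull
      intro u hu
      exact cone_inter (conv_im (g i) h.conv) (conv_im (g j) h.conv) hi hj ⟨hu.1.1, hu.2.1⟩
    · intro i hi
      simp only [Finite.mem_toFinset] at hi
      exact (cone_null (conv_im (g i) h.conv) hi).inter isOpen_ball.measurableSet.nullMeasurableSet
  have hfin : ∀ i ∈ (thr_fin h x).toFinset, volume (cone (g i '' P) x ∩ ball 0 1) ≠ ⊤ := by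
    intro i _
    exact ((measure_mono inter_subset_right).trans_lt measure_ball_lt_top).ne
  have hpos : 0 < (volume (ball (0 : Pl) 1)).toReal :=
    ENNReal.toReal_pos (measure_ball_pos volume 0 one_pos).ne' measure_ball_lt_top.ne
  unfold ang
  rw [← Finset.sum_div, ← Finset.mul_sum, ← ENNReal.toReal_sum hfin, ← hmeas]
  field_simp

end Pool.Agent.Work.MP_bd00dd_co
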