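import Pool.Agent.Work.MP_bd00dd_co.G.Total

/-!
Degrees. Thr P g x is the set of the tiles which contain x. All angles are > 0, and <= 1 at
frontier points: at x in at least two tiles all of them have x in the frontier (inter_front), the
angle is < 1 at a corner (ang_corner) and 1 otherwise (front_cases, ang_side).
-/

namespace Pool.Agent.Work.MP_bd00dd_co

open MeasureTheory Metric Set

variable {ι : Type*} {P : Set Pl} {g : ι → Pl ≃ᵢ Pl}

theorem ang_front {Q : Set Pl} (h : Poly Q) {x : Pl} (hx : x ∈ frontier Q) :
    0 < ang Q x ∧ ang Q x ≤ 1 := by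
  rcases front_cases h hx with hc | ⟨p, q, hpq, hx'⟩
  · exact ⟨(ang_corner h hc).1, (ang_corner h hc).2.le⟩
  · rw [ang_side h hpq hx']
    norm_num

/-- A corner of a tile is in at least three tiles (sum of the angles is 2). -/
theorem vx_corner (h : Tiling P g) {i : ι} {x : Pl} (hx : x ∈ (g i '' P).extremePoints ℝ) :
    3 ≤ (Thr P g x).ncard := by
  have hi : x ∈ g i '' P := hx.1
  have hs := total h x
  have hlt : ∑ j ∈ (thr_fin h x).toFinset, ang (g j '' P) x <
      ∑ j ∈ (thr_fin h x).toFinset, (1 : ℝ) := by
    apply Finset.sum_lt_sum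
    · intro j hj
      simp only [Finite.mem_toFinset] at hj
      by_cases hji : j = i
      · rw [hji]
        exact (ang_corner (poly_t h i) hx).2.le
      · exact (ang_front (poly_t h j) (inter_front h hji hj hi)).2
    · exact ⟨i, (thr_fin h x).mem_toFinset.2 hi, (ang_corner (poly_t h i) hx).2⟩
  rw [hs, Finset.sum_const, nsmul_eq_mul, mul_one, ← Set.ncard_eq_toFinset_card _ (thr_fin h x)]
    at hlt
  exact_mod_cast hlt

/-- If x lies inside sides of two different tiles then it is in no further tile. -/
theorem deg_two (h : Tiling P g) {i j : ι} (hij : i ≠ j) {x : Pl} (hi : x ∈ g i '' P)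
    (hj : x ∈ g j '' P) (hi' : x ∉ (g i '' P).extremePoints ℝ)
    (hj' : x ∉ (g j '' P).extremePoints ℝ) : Thr P g x = {i, j} := by
  classical
  refine Subset.antisymm ?_ ?_
  · intro k hk
    by_contra hkij
    simp only [mem_insert_iff, mem_singleton_iff, not_or] at hkij
    have hs := total h x
    have hsub : ({i, j, k} : Finset ι) ⊆ (thr_fin h x).toFinset := by
      intro l hl
      simp only [Finset.mem_insert, Finset.mem_singleton] at hl
      rw [Finite.mem_toFinset]
      rcases hl with rfl | rfl | rfl
      · exact hi
      · exact hj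
      · exact hk
    have hai : ang (g i '' P) x = 1 := by
      rcases front_cases (poly_t h i) (inter_front h hij hi hj) with hc | ⟨p, q, hpq, hx'⟩
      · exact absurd hc hi'
      · exact ang_side (poly_t h i) hpq hx'
    have haj : ang (g j '' P) x = 1 := by
      rcases front_cases (poly_t h j) (inter_front h hij.symm hj hi) with hc | ⟨p, q, hpq, hx'⟩
      · exact absurd hc hj'
      · exact ang_side (poly_t h j) hpq hx'
    have hak : 0 < ang (g k '' P) x :=
      (ang_front (poly_t h k) (inter_front h hkij.1 hk hi)).1
    have hle : ∑ l ∈ ({i, j, k} : Finset ι), ang (g l '' P) x ≤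
        ∑ l ∈ (thr_fin h x).toFinset, ang (g l '' P) x := by
      apply Finset.sum_le_sum_of_subset_of_nonneg hsub
      intro l _ _
      unfold ang
      positivity
    rw [hs, Finset.sum_insert (by simp [hij, Ne.symm hkij.1]),
      Finset.sum_insert (by simp [Ne.symm hkij.2]), Finset.sum_singleton, hai, haj] at hle
    linarith
  · intro k hk
    simp only [mem_insert_iff, mem_singleton_iff] at hk
    rcases hk with rfl | rfl
    · exact hi
    · exact hj

/-- If x is in exactly two tiles then it is not a corner of one of them. -/
theorem two_flat (h : Tiling P g) {i : ι} {x : Pl} (hx : (Thr P g x).ncard = 2)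
    (_hi : x ∈ g i '' P) : x ∉ (g i '' P).extremePoints ℝ := by
  intro hc
  have := vx_corner h hc
  omega

end Pool.Agent.Work.MP_bd00dd_co
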